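import Pool.Agent.NH16.QL.Stm

/-! QL-4: Bombieri-Vinogradov for the weight `Ph` and the moduli `W q`, `W` arbitrary and small. -/

set_option autoImplicit false

open Finset Filter Topology
open scoped ContDiff

namespace Pool.Agent.NH16.QL

open Pool.Agent.H378R2 Pool.Agent.H387R2 Pool.Agent.H387R2.MB Pool.Agent.H362R2.QT
open Pool.Agent.H410R2 (psiLogAP psiLog1)

namespace BVx

/-- the weight as a combination of three ramps -/
lemma Ph_log (u : ℝ) : Ph u = max 0 (1 / 2 - Real.log u) - 2 * max 0 (1 / 4 - Real.log u) +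
    max 0 (0 - Real.log u) := by
  unfold Ph Phi
  rw [Real.log_pow, tent_eq]
  push_cast
  set x := Real.log u
  have h1 : max 0 (1 - 2 * x) = 2 * max 0 (1 / 2 - x) := by
    rw [mul_max_of_nonneg _ _ (by norm_num : (0:ℝ) ≤ 2)]
    congr 1 <;> ring
  have h2 : max 0 (1 / 2 - 2 * x) = 2 * max 0 (1 / 4 - x) := by
    rw [mul_max_of_nonneg _ _ (by norm_num : (0:ℝ) ≤ 2)]
    congr 1 <;> ring
  have h3 : max 0 (-(2 * x)) = 2 * max 0 (0 - x) := by
    rw [mul_max_of_nonneg _ _ (by norm_num : (0:ℝ) ≤ 2)]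
    congr 1 <;> ring
  rw [h1, h2, h3]
  ring

lemma EP_DAP (X : ℝ) (hX : 4 ≤ X) (Q b : ℕ) :
    EP X Q b = DAP (Real.exp (1 / 2) * X) Q b - 2 * DAP (Real.exp (1 / 4) * X) Q b +
      DAP (Real.exp 0 * X) Q b := by
  unfold EP LP DAP psiLogAP psiLog1
  have key : ∀ (P : ℕ → Prop) [DecidablePred P], ∑ n ∈ (Icc 1 ⌊3 * X⌋₊).filter P, Ph (n / X) * ArithmeticFunction.vonMangoldt n =
      ∑ n ∈ (Icc 1 ⌊Real.exp (1 / 2) * X⌋₊).filter P, ArithmeticFunction.vonMangoldt n * Real.log (Real.exp (1 / 2) * X / n) -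
      2 * ∑ n ∈ (Icc 1 ⌊Real.exp (1/4) * X⌋₊).filter P, ArithmeticFunction.vonMangoldt n * Real.log (Real.exp (1/4) * X / n) +
      ∑ n ∈ (Icc 1 ⌊Real.exp 0 * X⌋₊).filter P, ArithmeticFunction.vonMangoldt n * Real.log (Real.exp 0 * X / n) := by
    intro P _
    rw [← ramp_sum X (1/2) hX (by norm_num) (by norm_num), ← ramp_sum X (1/4) hX (by norm_num) (by norm_num),
      ← ramp_sum X 0 hX le_rfl (by norm_num), mul_sum, ← sum_sub_distrib, ← sum_add_distrib]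
    apply sum_congr rfl
    intro n _
    rw [Ph_log]
    ring
  have k1 := key (fun n => n ≡ b [MOD Q])
  have k2 := key (fun _ => True)
  simp only [filter_true] at k2
  rw [k1, k2]
  ring

/-- one ramp -/
theorem ramp (h : S_BVU) (θ : ℝ) (hθ0 : 0 < θ) (hθ : θ < 1 / 2) (K0 A : ℕ) (D s : ℝ) (hs0 : 0 ≤ s) :
    ∀ᶠ X : ℝ in atTop, ∀ W : ℕ, 1 ≤ W →
    (W : ℝ) ≤ Real.log X ^ D → ∀ Bc : ℕ → ℕ, (∀ q, 1 ≤ q → (Bc q).Coprime (W * q)) →
    ∑ q ∈ (Icc 1 ⌊X ^ θ⌋₊).filter (fun q => Squarefree q ∧ q.Coprime W),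
      (q.divisors.card : ℝ) ^ (2 * K0) * |DAP (Real.exp s * X) (W * q) (Bc q)| ≤
      (Real.exp s * X) / (Real.log (Real.exp s * X)) ^ A := by
  have h0 := h ((2 : ℝ) ^ (2 * K0)) (one_le_pow₀ (by norm_num)) (1 / 2 - θ) (by linarith) A |D|
  have hes : 1 ≤ Real.exp s := Real.one_le_exp hs0
  have hT : Tendsto (fun X : ℝ => Real.exp s * X) atTop atTop :=
    tendsto_id.const_mul_atTop (Real.exp_pos s)
  filter_upwards [hT.eventually h0, eventually_ge_atTop 4,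
    Real.tendsto_log_atTop.eventually_ge_atTop 1] with X h1 h4 hl
  intro W hW1 hW Bc hBc
  have hX0 : 0 < X := by linarith
  have hYX : X ≤ Real.exp s * X := by nlinarith
  have hlY : Real.log X ≤ Real.log (Real.exp s * X) := Real.log_le_log hX0 hYX
  have hW' : (W : ℝ) ≤ Real.log (Real.exp s * X) ^ |D| := by
    calc (W : ℝ) ≤ Real.log X ^ D := hW
      _ ≤ Real.log X ^ |D| := Real.rpow_le_rpow_of_exponent_le hl (le_abs_self D)
      _ ≤ Real.log (Real.exp s * X) ^ |D| := Real.rpow_le_rpow (by linarith) hlY (abs_nonneg D)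
  have k := h1 W hW1 hW' Bc
  refine le_trans ?_ k
  refine le_trans (sum_le_sum (g := fun q : ℕ => ((2 : ℝ) ^ (2 * K0)) ^ q.primeFactors.card *
    |DAP (Real.exp s * X) (W * q) (Bc q)|) ?_) (sum_le_sum_of_subset_of_nonneg ?_ ?_)
  · intro q hq
    rw [mem_filter, mem_Icc] at hq
    apply le_of_eq
    congr 1
    rw [card_div_sqf hq.2.1]
    push_cast
    rw [← pow_mul, ← pow_mul, mul_comm]
  · intro q hq
    rw [mem_filter, mem_Icc] at hq ⊢
    obtain ⟨⟨hq1, hq2⟩, hq3, hq4⟩ := hq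
    refine ⟨⟨hq1, ?_⟩, hq3, hBc q hq1⟩
    refine hq2.trans (Nat.floor_le_floor ?_)
    have e : (1 / 2 - (1 / 2 - θ) : ℝ) = θ := by ring
    rw [e]
    exact Real.rpow_le_rpow hX0.le hYX hθ0.le
  · intro q _ _
    positivity

end BVx

theorem t_BV (h : S_BVU) : S_BV := by
  intro θ hθ0 hθ K0 A D
  filter_upwards [BVx.ramp h θ hθ0 hθ K0 (A + 1) D (1 / 2) (by norm_num),
    BVx.ramp h θ hθ0 hθ K0 (A + 1) D (1 / 4) (by norm_num),
    BVx.ramp h θ hθ0 hθ K0 (A + 1) D 0 le_rfl, eventually_ge_atTop 4,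
    Real.tendsto_log_atTop.eventually_ge_atTop 12] with X h1 h2 h3 h4 h5
  intro W hW1 hW Bc hBc
  have hX0 : 0 < X := by linarith
  have hl0 : 0 < Real.log X := by linarith
  have key : ∀ s : ℝ, 0 ≤ s → s ≤ 1 → (Real.exp s * X) / (Real.log (Real.exp s * X)) ^ (A + 1) ≤ 3 * X / (Real.log X) ^ (A + 1) := by
    intro s hs0 hs1
    have he : Real.exp s ≤ 3 := (Real.exp_le_exp.2 hs1).trans exp_one_lt_three'.le
    have hes : 1 ≤ Real.exp s := Real.one_le_exp hs0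
    apply div_le_div₀ (by positivity) (by gcongr) (by positivity)
    apply pow_le_pow_left₀ hl0.le
    apply Real.log_le_log hX0
    nlinarith
  have k1 := (h1 W hW1 hW Bc hBc).trans (key (1/2) (by norm_num) (by norm_num))
  have k2 := (h2 W hW1 hW Bc hBc).trans (key (1/4) (by norm_num) (by norm_num))
  have k3 := (h3 W hW1 hW Bc hBc).trans (key 0 le_rfl (by norm_num))
  have k4 : ∑ q ∈ (Icc 1 ⌊X ^ θ⌋₊).filter (fun q => Squarefree q ∧ q.Coprime W),
      (q.divisors.card : ℝ) ^ (2 * K0) * |EP X (W * q) (Bc q)| ≤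
      ∑ q ∈ (Icc 1 ⌊X ^ θ⌋₊).filter (fun q => Squarefree q ∧ q.Coprime W),
      (q.divisors.card : ℝ) ^ (2 * K0) * |DAP (Real.exp (1 / 2) * X) (W * q) (Bc q)| +
      2 * ∑ q ∈ (Icc 1 ⌊X ^ θ⌋₊).filter (fun q => Squarefree q ∧ q.Coprime W),
      (q.divisors.card : ℝ) ^ (2 * K0) * |DAP (Real.exp (1 / 4) * X) (W * q) (Bc q)| +
      ∑ q ∈ (Icc 1 ⌊X ^ θ⌋₊).filter (fun q => Squarefree q ∧ q.Coprime W),
      (q.divisors.card : ℝ) ^ (2 * K0) * |DAP (Real.exp 0 * X) (W * q) (Bc q)| := by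
    rw [mul_sum, ← sum_add_distrib, ← sum_add_distrib]
    apply sum_le_sum
    intro q _
    rw [BVx.EP_DAP X h4]
    have hτ : 0 ≤ (q.divisors.card : ℝ) ^ (2 * K0) := by positivity
    have habs : |DAP (Real.exp (1 / 2) * X) (W * q) (Bc q) - 2 * DAP (Real.exp (1 / 4) * X) (W * q) (Bc q) +
        DAP (Real.exp 0 * X) (W * q) (Bc q)| ≤ |DAP (Real.exp (1 / 2) * X) (W * q) (Bc q)| +
        2 * |DAP (Real.exp (1 / 4) * X) (W * q) (Bc q)| + |DAP (Real.exp 0 * X) (W * q) (Bc q)| := by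
      refine (abs_add_le _ _).trans ?_
      have := abs_sub (DAP (Real.exp (1 / 2) * X) (W * q) (Bc q)) (2 * DAP (Real.exp (1 / 4) * X) (W * q) (Bc q))
      rw [abs_mul, abs_of_pos (by norm_num : (0:ℝ) < 2)] at this
      linarith
    have := mul_le_mul_of_nonneg_left habs hτ
    linarith
  have k5 : 12 * X / (Real.log X) ^ (A + 1) ≤ X / (Real.log X) ^ A := by
    rw [div_le_div_iff₀ (by positivity) (by positivity), pow_succ]
    have : 0 < (Real.log X) ^ A := by positivity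
    have : 12 * (X * (Real.log X) ^ A) ≤ Real.log X * (X * (Real.log X) ^ A) := by
      apply mul_le_mul_of_nonneg_right h5 (by positivity)
    linarith
  have k6 : 12 * X / (Real.log X) ^ (A + 1) = 4 * (3 * X / (Real.log X) ^ (A + 1)) := by ring
  linarith

end Pool.Agent.NH16.QL
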