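import Pool.Agent.NH16.QL.Stm
import Pool.Agent.H732R2.MT_B2
import Pool.Agent.H398R2.BV6
import Pool.Agent.H379R2.SWMain
import Pool.Agent.H307R2.Sg6

/-!
Project QL (helper16), part QL-3: the Bombieri-Vinogradov theorem uniformly in the fixed factor of
the modulus. Port of `bvAP` (`Pool/Agent/H732R2/MT_B2.lean`). Written by helper28.
-/

set_option autoImplicit false

namespace Pool.Agent.NH16.QL

open Finset Filter Topology
open Pool.Agent.H378R2 Pool.Agent.H387R2 Pool.Agent.H387R2.MB Pool.Agent.H410R2 Pool.Agent.H732R2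

open B2 in
open Classical in
theorem BVU.main (h : BVTotal) : S_BVU := by
  intro c hc δ hδ A D
  have hc0 : 0 ≤ c := by linarith
  set Dn : ℕ := ⌈|D|⌉₊ with hDn
  obtain ⟨C, hC, hSc⟩ := Sc_bound c hc0
  set A' : ℕ := A + ⌈2 * c⌉₊ + Dn + 1 with hA'
  obtain ⟨X1, h1⟩ := h c hc (δ / 2) (by positivity) A'
  have ev1 : ∀ᶠ X : ℝ in Filter.atTop,
      8 * C * Real.log X ^ ((Dn : ℝ) + (3 + 2 * c + A)) ≤ X ^ (2 * δ) := by
    have h2 := (isLittleO_log_rpow_rpow_atTop ((Dn : ℝ) + (3 + 2 * c + A))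
      (show 0 < 2 * δ by positivity)).bound (show 0 < 1 / (8 * C) by positivity)
    filter_upwards [h2, Filter.eventually_ge_atTop 1] with X hX hX1
    rw [Real.norm_of_nonneg (Real.rpow_nonneg (Real.log_nonneg hX1) _),
      Real.norm_of_nonneg (Real.rpow_nonneg (by linarith) _)] at hX
    calc 8 * C * Real.log X ^ ((Dn : ℝ) + (3 + 2 * c + A)) ≤
        8 * C * (1 / (8 * C) * X ^ (2 * δ)) := by gcongr
      _ = X ^ (2 * δ) := by field_simp
  have ev2 : ∀ᶠ X : ℝ in Filter.atTop, Real.log X ^ (Dn : ℝ) ≤ X ^ (δ / 2) := by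
    have h2 := (isLittleO_log_rpow_rpow_atTop (Dn : ℝ)
      (show 0 < δ / 2 by positivity)).bound (show (0 : ℝ) < 1 by norm_num)
    filter_upwards [h2, Filter.eventually_ge_atTop 1] with X hX hX1
    rw [Real.norm_of_nonneg (Real.rpow_nonneg (Real.log_nonneg hX1) _),
      Real.norm_of_nonneg (Real.rpow_nonneg (by linarith) _), one_mul] at hX
    exact hX
  have ev3 : ∀ᶠ X : ℝ in Filter.atTop, 2 * C ≤ Real.log X :=
    Real.tendsto_log_atTop.eventually_ge_atTop _
  filter_upwards [ev1, ev2, ev3, Filter.eventually_ge_atTop X1,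
    Filter.eventually_ge_atTop (3 : ℝ)] with X h3' h4' h5' h6 h7
  intro m₀ hm₀ hm₀D r
  have hm₀' : (1 : ℝ) ≤ m₀ := by exact_mod_cast hm₀
  have hX1 : 1 ≤ X := by linarith
  have hX0 : 0 < X := by linarith
  have hlX : 1 ≤ Real.log X := by
    rw [Real.le_log_iff_exp_le hX0]
    exact (Real.exp_one_lt_d9.le.trans (by norm_num)).trans h7
  have hlX0 : 0 < Real.log X := by linarith
  have hmD : (m₀ : ℝ) ≤ Real.log X ^ (Dn : ℝ) := hm₀D.trans
    (Real.rpow_le_rpow_of_exponent_le hlX ((le_abs_self D).trans (Nat.le_ceil _)))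
  have h3 : 8 * m₀ * C * Real.log X ^ (3 + 2 * c + A) ≤ X ^ (2 * δ) := by
    refine le_trans ?_ h3'
    rw [Real.rpow_add hlX0 (Dn : ℝ) (3 + 2 * c + A)]
    calc 8 * m₀ * C * Real.log X ^ (3 + 2 * c + A) ≤
        8 * Real.log X ^ (Dn : ℝ) * C * Real.log X ^ (3 + 2 * c + A) := by gcongr
      _ = _ := by ring
  have h4 : (m₀ : ℝ) ≤ X ^ (δ / 2) := hmD.trans h4'
  have h5 : 2 * m₀ * C ≤ Real.log X ^ Dn * Real.log X := by
    rw [Real.rpow_natCast] at hmD
    calc 2 * m₀ * C = m₀ * (2 * C) := by ring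
      _ ≤ Real.log X ^ Dn * Real.log X := by gcongr
  set Q := ⌊X ^ (1 / 2 - δ)⌋₊ with hQ
  have hQX : (Q : ℝ) ≤ X ^ (1 / 2 - δ) := Nat.floor_le (by positivity)
  have hSQ : Sc c Q ≤ C * Real.log X ^ (2 * c) := by
    have e1 : Sc c Q ≤ Sc c (max Q 3) := Sc_mono c hc0 (le_max_left _ _)
    refine e1.trans ((hSc _ (le_max_right _ _)).trans ?_)
    apply mul_le_mul_of_nonneg_left _ hC.le
    have e2 : (3 : ℝ) ≤ ((max Q 3 : ℕ) : ℝ) := by exact_mod_cast le_max_right Q 3
    apply Real.rpow_le_rpow (Real.log_nonneg (by linarith)) _ (by linarith)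
    apply Real.log_le_log (by linarith)
    push_cast
    apply max_le _ h7
    calc (Q : ℝ) ≤ X ^ (1 / 2 - δ) := hQX
      _ ≤ X ^ (1 : ℝ) := Real.rpow_le_rpow_of_exponent_le hX1 (by linarith)
      _ = X := Real.rpow_one X
  have hSc0 : 0 ≤ Sc c Q := by unfold Sc; positivity
  set QS := (Icc 1 Q).filter Squarefree with hQS
  -- range of moduli
  have hqX : ∀ q ∈ QS, (m₀ : ℝ) * q ≤ X ^ (1 / 2 - δ / 2) := by
    intro q hq
    rw [hQS, mem_filter, mem_Icc] at hq
    have e1 : (q : ℝ) ≤ X ^ (1 / 2 - δ) := (Nat.cast_le.2 hq.1.2).trans hQX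
    calc (m₀ : ℝ) * q ≤ X ^ (δ / 2) * X ^ (1 / 2 - δ) := by gcongr
      _ = X ^ (1 / 2 - δ / 2) := by
        rw [← Real.rpow_add hX0]; congr 1; ring
  -- pointwise
  have p1 : ∑ q ∈ (Icc 1 Q).filter (fun q => Squarefree q ∧ (r q).Coprime (m₀ * q)),
      c ^ q.primeFactors.card *
        |DAP X (m₀ * q) (r q)| ≤
      ∑ q ∈ QS, c ^ q.primeFactors.card * ((1 / (Nat.totient (m₀ * q) : ℝ)) *
        ∑ f ∈ (m₀ * q).divisors.filter (fun f => f ≠ 1), VV X f +
          2 * (m₀ * q : ℕ) * er X (m₀ * q)) := by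
    have hsub : (Icc 1 Q).filter (fun q => Squarefree q ∧ (r q).Coprime (m₀ * q)) ⊆ QS := by
      intro q hq
      rw [mem_filter] at hq
      rw [hQS, mem_filter]
      exact ⟨hq.1, hq.2.1⟩
    refine le_trans (sum_le_sum fun q hq => ?_) (sum_le_sum_of_subset_of_nonneg hsub ?_)
    · rw [mem_filter, mem_Icc] at hq
      apply mul_le_mul_of_nonneg_left _ (by positivity)
      exact AP_bound X hX1 (m₀ * q) (Nat.mul_pos hm₀ hq.1.1) (r q) hq.2.2
    · intro q _ _
      have : 0 ≤ ∑ f ∈ (m₀ * q).divisors.filter (fun f => f ≠ 1), VV X f :=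
        sum_nonneg fun f _ => VV_nonneg X f
      have : 0 ≤ er X (m₀ * q) := by unfold er; positivity
      positivity
  refine p1.trans ?_
  simp_rw [mul_add]
  rw [sum_add_distrib]
  -- first part
  have q1 : ∑ q ∈ QS, c ^ q.primeFactors.card * ((1 / (Nat.totient (m₀ * q) : ℝ)) *
        ∑ f ∈ (m₀ * q).divisors.filter (fun f => f ≠ 1), VV X f) ≤
      X / Real.log X ^ A / 2 := by
    set F := ⌊X ^ (1 / 2 - δ / 2)⌋₊ with hF
    have e1 : ∑ q ∈ QS, c ^ q.primeFactors.card * ((1 / (Nat.totient (m₀ * q) : ℝ)) *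
        ∑ f ∈ (m₀ * q).divisors.filter (fun f => f ≠ 1), VV X f) ≤
        ∑ q ∈ QS, ∑ f ∈ Icc 2 F, if f ∣ m₀ * q then
          VV X f * (c ^ q.primeFactors.card / (Nat.totient (m₀ * q) : ℝ)) else 0 := by
      apply sum_le_sum
      intro q hq
      rw [← sum_filter, mul_sum, mul_sum]
      have hq' := hq
      rw [hQS, mem_filter, mem_Icc] at hq'
      have hpos : 0 < m₀ * q := Nat.mul_pos hm₀ hq'.1.1
      calc _ = ∑ f ∈ (m₀ * q).divisors.filter (fun f => f ≠ 1),
          VV X f * (c ^ q.primeFactors.card / (Nat.totient (m₀ * q) : ℝ)) := by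
            apply sum_congr rfl
            intro f _
            ring
        _ ≤ _ := by
            apply sum_le_sum_of_subset_of_nonneg
            · intro f hf
              rw [mem_filter, Nat.mem_divisors] at hf
              rw [mem_filter, mem_Icc]
              have hfpos := Nat.pos_of_dvd_of_pos hf.1.1 hpos
              refine ⟨⟨by omega, ?_⟩, hf.1.1⟩
              apply Nat.le_floor
              refine le_trans ?_ (hqX q hq)
              exact_mod_cast Nat.le_of_dvd hpos hf.1.1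
            · intro f _ _
              have := VV_nonneg X f
              positivity
    have e2 : ∑ q ∈ QS, ∑ f ∈ Icc 2 F, (if f ∣ m₀ * q then
          VV X f * (c ^ q.primeFactors.card / (Nat.totient (m₀ * q) : ℝ)) else 0) ≤
        ∑ f ∈ Icc 2 F, m₀ * Sc c Q * ((c ^ f.primeFactors.card / (Nat.totient f : ℝ)) * VV X f) := by
      rw [sum_comm]
      apply sum_le_sum
      intro f hf
      rw [mem_Icc] at hf
      rw [← sum_filter, ← mul_sum]
      have := inner_bound c hc m₀ hm₀ Q f (by omega)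
      calc _ ≤ VV X f * (m₀ * (c ^ f.primeFactors.card / (Nat.totient f : ℝ)) * Sc c Q) :=
            mul_le_mul_of_nonneg_left this (VV_nonneg X f)
        _ = _ := by ring
    have e3 : ∑ f ∈ Icc 2 F, (c ^ f.primeFactors.card / (Nat.totient f : ℝ)) * VV X f ≤
        X / Real.log X ^ A' := h1 X h6
    refine (e1.trans e2).trans ?_
    rw [← mul_sum]
    have e30 : 0 ≤ ∑ f ∈ Icc 2 F, (c ^ f.primeFactors.card / (Nat.totient f : ℝ)) * VV X f := by
      apply sum_nonneg
      intro f _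
      have := VV_nonneg X f
      positivity
    calc _ ≤ m₀ * (C * Real.log X ^ (2 * c)) * (X / Real.log X ^ A') := by
          gcongr
      _ ≤ X / Real.log X ^ A / 2 := by
          have g1 : Real.log X ^ (2 * c) ≤ Real.log X ^ ⌈2 * c⌉₊ := by
            rw [← Real.rpow_natCast]
            exact Real.rpow_le_rpow_of_exponent_le hlX (Nat.le_ceil _)
          have g2 : Real.log X ^ A' = Real.log X ^ A * Real.log X ^ ⌈2 * c⌉₊ * Real.log X ^ Dn *
              Real.log X := by
            rw [hA', pow_add, pow_add, pow_add, pow_one]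
          rw [g2, div_div, mul_div_assoc', div_le_div_iff₀ (by positivity) (by positivity)]
          calc m₀ * (C * Real.log X ^ (2 * c)) * X * (Real.log X ^ A * 2) =
              (2 * m₀ * C) * Real.log X ^ (2 * c) * X * Real.log X ^ A := by ring
            _ ≤ (Real.log X ^ Dn * Real.log X) * Real.log X ^ ⌈2 * c⌉₊ * X * Real.log X ^ A := by
                gcongr
            _ = _ := by ring
  -- second part
  have q2 : ∑ q ∈ QS, c ^ q.primeFactors.card * (2 * (m₀ * q : ℕ) * er X (m₀ * q)) ≤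
      X / Real.log X ^ A / 2 := by
    have e1 : ∀ q ∈ QS, c ^ q.primeFactors.card * (2 * (m₀ * q : ℕ) * er X (m₀ * q)) ≤
        4 * m₀ * Real.log X ^ 3 * (Q : ℝ) ^ 2 *
          (c ^ q.primeFactors.card / (Nat.totient q : ℝ)) := by
      intro q hq
      have hqx := hqX q hq
      rw [hQS, mem_filter, mem_Icc] at hq
      have hpos : 0 < m₀ * q := Nat.mul_pos hm₀ hq.1.1
      have hφ : (0 : ℝ) < Nat.totient q := by exact_mod_cast Nat.totient_pos.2 hq.1.1
      have g1 : ((m₀ * q).primeFactors.card : ℝ) ≤ 2 * Real.log X := by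
        refine (omega_log _ hpos.ne').trans ?_
        apply mul_le_mul_of_nonneg_left _ (by norm_num)
        apply Real.log_le_log (by exact_mod_cast hpos)
        push_cast
        refine hqx.trans ?_
        calc X ^ (1 / 2 - δ / 2) ≤ X ^ (1 : ℝ) :=
              Real.rpow_le_rpow_of_exponent_le hX1 (by linarith)
          _ = X := Real.rpow_one X
      have g2 : (q : ℝ) ≤ (Q : ℝ) ^ 2 / Nat.totient q := by
        rw [le_div_iff₀ hφ]
        have : (Nat.totient q : ℝ) ≤ q := by exact_mod_cast Nat.totient_le q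
        have h8 : (q : ℝ) ≤ Q := by exact_mod_cast hq.1.2
        calc (q : ℝ) * Nat.totient q ≤ Q * Q :=
              mul_le_mul h8 (this.trans h8) (by positivity) (by positivity)
          _ = _ := by ring
      unfold er
      push_cast
      calc c ^ q.primeFactors.card * (2 * (m₀ * q) * ((m₀ * q).primeFactors.card * Real.log X ^ 2)) ≤
          c ^ q.primeFactors.card * (2 * (m₀ * ((Q : ℝ) ^ 2 / Nat.totient q)) *
            ((2 * Real.log X) * Real.log X ^ 2)) := by gcongr
        _ = _ := by ring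
    refine (sum_le_sum e1).trans ?_
    rw [← mul_sum]
    have e2 : ∑ q ∈ QS, c ^ q.primeFactors.card / (Nat.totient q : ℝ) = Sc c Q := rfl
    rw [e2]
    have e3 : (Q : ℝ) ^ 2 ≤ X ^ (1 - 2 * δ) := by
      calc (Q : ℝ) ^ 2 ≤ (X ^ (1 / 2 - δ)) ^ 2 := by gcongr
        _ = X ^ (1 - 2 * δ) := by
          rw [← Real.rpow_natCast, ← Real.rpow_mul hX0.le]; congr 1; push_cast; ring
    calc 4 * m₀ * Real.log X ^ 3 * (Q : ℝ) ^ 2 * Sc c Q ≤
        4 * m₀ * Real.log X ^ 3 * X ^ (1 - 2 * δ) * (C * Real.log X ^ (2 * c)) := by gcongr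
      _ ≤ X / Real.log X ^ A / 2 := by
        rw [div_div, le_div_iff₀ (by positivity)]
        calc 4 * m₀ * Real.log X ^ 3 * X ^ (1 - 2 * δ) * (C * Real.log X ^ (2 * c)) *
            (Real.log X ^ A * 2) =
            (8 * m₀ * C * (Real.log X ^ 3 * Real.log X ^ (2 * c) * Real.log X ^ A)) *
              X ^ (1 - 2 * δ) := by ring
          _ = (8 * m₀ * C * Real.log X ^ (3 + 2 * c + A)) * X ^ (1 - 2 * δ) := by
            rw [Real.rpow_add hlX0, Real.rpow_add hlX0, Real.rpow_natCast]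
            norm_num
          _ ≤ X ^ (2 * δ) * X ^ (1 - 2 * δ) := by gcongr
          _ = X := by
            rw [← Real.rpow_add hX0]
            have : 2 * δ + (1 - 2 * δ) = 1 := by ring
            rw [this, Real.rpow_one]
  linarith

/-- QL-3 -/
theorem t_BVU : S_BVU :=
  BVU.main (Pool.Agent.H398R2.bvTotal (Pool.Agent.H379R2.SW.siegelWalfisz Pool.Agent.H307R2.siegel))

end Pool.Agent.NH16.QL
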