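import Pool.Agent.NH16.QL.Stm
import Pool.Agent.H362R2.QT.COL
import Pool.Agent.H362R2.QT.FAM
import Pool.Agent.H387R2.MB9

/-!
QL-13 (project of helper16): the coloured lower bound. Port of `Pool/Agent/H362R2/QT/COL.lean` by
helper89.
-/

set_option autoImplicit false
set_option maxHeartbeats 4000000

open Finset Filter Topology
open scoped ContDiff

namespace Pool.Agent.NH16.QL

open Pool.Agent.H378R2 Pool.Agent.H387R2 Pool.Agent.H387R2.MB Pool.Agent.H362R2.QT

namespace ColM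

theorem nw_nonneg (hW : S_WGT) (X : ℝ) (W a n : ℕ) : 0 ≤ nw X W a n := by
  unfold nw
  split_ifs
  · exact hW.nn _
  · exact le_rfl

/-- `(log X) ^ D * 3 X + 1 ≤ X ^ 2` for large `X` -/
theorem ev_sq (D : ℝ) : ∀ᶠ X : ℝ in atTop, Real.log X ^ D * (3 * X) + 1 ≤ X ^ 2 := by
  have h1 : (fun X : ℝ => Real.log X ^ D) =o[atTop] fun X : ℝ => X ^ (1 : ℝ) :=
    isLittleO_log_rpow_rpow_atTop D one_pos
  have h2 := h1.bound (show (0 : ℝ) < 1 / 4 by norm_num)
  filter_upwards [h2, eventually_ge_atTop 4] with X h3 h4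
  rw [Real.rpow_one, Real.norm_eq_abs, Real.norm_eq_abs, abs_of_nonneg (show (0 : ℝ) ≤ X by linarith)]
    at h3
  have h5 : Real.log X ^ D ≤ 1 / 4 * X := (le_abs_self _).trans h3
  have h6 : Real.log X ^ D * (3 * X) ≤ (1 / 4 * X) * (3 * X) :=
    mul_le_mul_of_nonneg_right h5 (by linarith)
  nlinarith

theorem rg_omega' {δ X : ℝ} (hδ : 0 < δ) (hX : 4 ≤ X) (hL : 1 ≤ LL X) {m : ℕ} (hm : 1 ≤ m)
    (hmX : (m : ℝ) ≤ X ^ 2) (h : Rg δ X m) : m.primeFactors.card ≤ ⌈400 / δ⌉₊ := by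
  have hL0 : 0 < LL X := by linarith
  have h1 : Real.exp (δ * LL X) ^ m.primeFactors.card ≤ ((∏ p ∈ m.primeFactors, p : ℕ) : ℝ) := by
    push_cast
    rw [← prod_const]
    apply Finset.prod_le_prod
    · intro p _; exact (Real.exp_pos _).le
    · intro p hp
      exact (rg_prime h (Nat.prime_of_mem_primeFactors hp) (Nat.dvd_of_mem_primeFactors hp)).le
  have h2 : ((∏ p ∈ m.primeFactors, p : ℕ) : ℝ) ≤ X ^ 2 := by
    refine le_trans ?_ hmX
    exact_mod_cast Nat.le_of_dvd hm (Nat.prod_primeFactors_dvd m)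
  have h3 := h1.trans h2
  rw [← Real.exp_nat_mul] at h3
  have h4 := Real.log_le_log (Real.exp_pos _) h3
  rw [Real.log_exp, Real.log_pow] at h4
  have h5 : (2 : ℝ) * Real.log X = 400 * LL X := by unfold LL; ring
  push_cast at h4
  rw [h5] at h4
  have h6 : (m.primeFactors.card : ℝ) ≤ 400 / δ := by
    rw [le_div_iff₀ hδ]
    have : (m.primeFactors.card * δ) * LL X ≤ 400 * LL X := by linarith
    exact le_of_mul_le_mul_right this hL0
  exact_mod_cast h6.trans (Nat.le_ceil _)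

theorem VV_rg_le' {δ X : ℝ} (hδ : 0 < δ) (hX : 4 ≤ X) (hL : 1 ≤ LL X) {m : ℕ} (hm : 1 ≤ m)
    (hmX : (m : ℝ) ≤ X ^ 2) (h : Rg δ X m) (E : Finset ℕ) (R : ℕ) (F : ℝ → ℝ)
    (hF : ∀ x, |F x| ≤ 1) : |VVm E R (LL X) F (m : ℤ)| ≤ 2 ^ ⌈400 / δ⌉₊ := by
  classical
  unfold VVm
  refine (abs_sum_le_sum_abs _ _).trans ?_
  have h1 : ∀ d ∈ adm E R, |if (d : ℤ) ∣ (m : ℤ) then
      ((ArithmeticFunction.moebius d : ℤ) : ℝ) * F (Real.log d / LL X) else 0| ≤
      if d ∣ m then 1 else 0 := by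
    intro d _
    by_cases hd : d ∣ m
    · rw [if_pos (Int.natCast_dvd_natCast.2 hd), if_pos hd, abs_mul]
      have hm : |((ArithmeticFunction.moebius d : ℤ) : ℝ)| ≤ 1 := by
        rw [← Int.cast_abs]
        exact_mod_cast ArithmeticFunction.abs_moebius_le_one
      calc |((ArithmeticFunction.moebius d : ℤ) : ℝ)| * |F (Real.log d / LL X)| ≤ 1 * 1 := by
            apply mul_le_mul hm (hF _) (abs_nonneg _) zero_le_one
        _ = 1 := one_mul 1
    · rw [if_neg (fun h => hd (Int.natCast_dvd_natCast.1 h)), if_neg hd, abs_zero]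
  refine (sum_le_sum h1).trans ?_
  rw [← sum_filter, sum_const, nsmul_eq_mul, mul_one]
  calc (((adm E R).filter (fun d => d ∣ m)).card : ℝ) ≤ 2 ^ m.primeFactors.card := by
        exact_mod_cast card_sqf_div (by omega) E R
    _ ≤ 2 ^ ⌈400 / δ⌉₊ := pow_le_pow_right₀ (by norm_num) (rg_omega' hδ hX hL hm hmX h)

end ColM

theorem t_COL (hW : S_WGT) (hTOT : S_TOT) (hONE : S_ONE) (hPAIR : S_PAIR) (hNR : S_NR) : S_COL := by
  classical
  intro m hm
  have hmR : (1 : ℝ) ≤ m := by exact_mod_cast hm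
  have hm0 : (0 : ℝ) < m := by linarith
  have h100 : 1 / (100 * (m : ℝ)) ≤ 1 / 100 := by
    apply one_div_le_one_div_of_le (by norm_num)
    linarith
  have h1000 : 0 < 1 / (100 * (m : ℝ)) := by positivity
  set η : ℝ := 1 / (100 * (m : ℝ)) with hη
  set V : ℝ := 50 * (1 - 1 / (100 * (m : ℝ))) with hV
  set M0 : ℝ := 2500 * (m : ℝ) with hM0
  set κ : ℝ := 1 / (4 * (m : ℝ)) with hκ
  have hκ0 : 0 < κ := by rw [hκ]; positivity
  have hκ1 : κ < 1 := by
    rw [hκ, div_lt_one (by positivity)]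
    linarith
  have hV0 : 0 < V := by rw [hV]; linarith
  obtain ⟨K', K0, B, f, c, A, s, b, hTK, hK0, hs, hb, hsm, hcs, hf0, hc, hA, hf1, hII0, hII, hJJ, hJJ2, hM⟩ :=
    FAM (4 * m) η M0 (1 / (4 * m)) (by omega) h1000 (by linarith) (by positivity)
      (by rw [div_le_one (by positivity)]; linarith)
  have hA1 : ∀ a ∈ A, ∑ j, c (a j) ≤ 1 := by
    intro a ha
    refine (hA a ha).trans ?_
    rw [div_le_one (by positivity)]
    linarith
  have hK'1 : 1 ≤ K' := by
    rcases Nat.eq_zero_or_pos K' with h | h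
    · rw [h, mul_zero] at hTK
      omega
    · exact h
  have hK'0 : (0 : ℝ) < K' := by exact_mod_cast hK'1
  set S : ℝ := s ^ K0 with hS
  have hS0 : 0 < S := by rw [hS]; positivity
  set J : ℝ := (1 - η) * b ^ 2 * S with hJ
  set J2 : ℝ := b ^ 4 * S / s with hJ2
  obtain ⟨ε, hε, hεJ, hnum⟩ := COLAux.num_eps hmR hs hb hK'0 hS0 hη hV hM0 hκ hJ hJ2 hM
  set L : ℝ := 4 * m * K' * ((J - ε) / 200) with hL
  set Pu : ℝ := 4 * m * (K' : ℝ) ^ 2 * ((J2 / V + ε) / 200) with hPu
  have hL0 : 0 < L := by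
    have : 0 < J - ε := by linarith
    rw [hL]; positivity
  have hJ20 : 0 < J2 := by rw [hJ2]; positivity
  have hPu0 : 0 < Pu := by rw [hPu]; positivity
  set KK : ℝ := (K0 : ℝ) + 1 with hKK
  have hKK0 : 0 < KK := by positivity
  -- lemmas used
  obtain ⟨C, hC0, z3, hnr⟩ := hNR f c A hsm hcs hf0 hc hA1 hf1 hII0.le
  set c1 : ℝ := κ * L / (2 * KK) with hc1
  have hc10 : 0 < c1 := by rw [hc1]; positivity
  set δ : ℝ := min (1 / 10) (c1 / (C + 1)) with hδ
  have hδ0 : 0 < δ := lt_min (by norm_num) (by positivity)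
  have hδ1 : δ ≤ 1 / 10 := min_le_left _ _
  have hδC : C * δ ≤ c1 := by
    have h1 : δ ≤ c1 / (C + 1) := min_le_right _ _
    calc C * δ ≤ (C + 1) * (c1 / (C + 1)) := by
          apply mul_le_mul (by linarith) h1 hδ0.le (by linarith)
      _ = c1 := by field_simp
  obtain ⟨θ1, hθ1, z1, hone⟩ := hONE f c A hsm hcs hf0 hc hA1 hf1 ε hε
  obtain ⟨θ2, hθ2, z2, hpair⟩ := hPAIR f c A V (1 / (4 * m)) hsm hcs hf0 hc hA hf1 hV0 (by positivity)
    (by rw [div_le_one (by positivity)]; linarith)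
    (by
      have e1 : 1 / (4 * (m : ℝ)) = 25 * (1 / (100 * (m : ℝ))) := by field_simp; norm_num
      rw [hV, e1]
      linarith) ε hε
  obtain ⟨z4, htot⟩ := hTOT f c A hsm hcs hf0 hc hA1 hf1 ε hε
  set θ : ℝ := min δ (min θ1 θ2) with hθ
  have hθ0 : 0 < θ := lt_min hδ0 (lt_min hθ1 hθ2)
  set Dc : ℝ := ((A.card : ℝ) * (2 ^ ⌈400 / δ⌉₊) ^ (K0 + 1)) ^ 2 + 1 with hDc
  have hD0 : 0 < Dc := by positivity
  set z : ℕ := max z1 (max z2 (max z3 z4)) with hz
  have hz1 : z1 ≤ z := le_max_left _ _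
  have hz2 : z2 ≤ z := (le_max_left _ _).trans (le_max_right _ _)
  have hz3 : z3 ≤ z := (le_max_left _ _).trans ((le_max_right _ _).trans (le_max_right _ _))
  have hz4 : z4 ≤ z := (le_max_right _ _).trans ((le_max_right _ _).trans (le_max_right _ _))
  obtain ⟨e⟩ : Nonempty (Fin (4 * m) × Fin K' ≃ Fin (K0 + 1)) :=
    ⟨finProdFinEquiv.trans (finCongr hTK)⟩
  refine ⟨K', K0, e, δ, hK'1, hδ0, hδ1, θ, hθ0, c1 / Dc, by positivity, z, ?_⟩
  intro D
  filter_upwards [hone D, hpair D, htot, hnr δ hδ0 hδ1, eventually_ge_atTop 4,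
    LL_tendsto.eventually_ge_atTop 1, ColM.ev_sq D] with X h1 h2 h3 h4 h5 h6 hXD
  intro W E a0 t hC
  have hcnd : ∀ (θ' : ℝ) (z' : ℕ), θ ≤ θ' → z' ≤ z → Cn D θ' X z' W E a0 t := by
    intro θ' z' hθ' hz'
    exact ⟨⟨hC.cs.gs.mono hz', hC.cs.pos, hC.cs.le, hC.cs.dv⟩, hC.dl, hC.cp, hC.tl,
      hC.sm.trans hθ'⟩
  have hθδ : θ ≤ δ := min_le_left _ _
  have hθθ1 : θ ≤ θ1 := (min_le_right _ _).trans (min_le_left _ _)
  have hθθ2 : θ ≤ θ2 := (min_le_right _ _).trans (min_le_right _ _)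
  have s1 := h1 W E a0 t (hcnd θ1 z1 hθθ1 hz1)
  have s2 := h2 W E a0 t (hcnd θ2 z2 hθθ2 hz2)
  have s3 := h3 D θ W E a0 t (hcnd θ z4 le_rfl hz4)
  have s5 := h4 D W E a0 t (hcnd δ z3 hθδ hz3)
  have hBE : 0 < BE E := BE_pos hC.cs.gs.pr
  have hL1 : 0 < LL X := by linarith
  have hMP : 0 ≤ MP X := hW.mnn X
  set Q := QM (K0 + 1) X W E with hQ
  have hQ0 : 0 ≤ Q := by rw [hQ]; unfold QM; positivity
  set w : ℕ → ℝ := fun n => sqw E X f A (fun j => vl (t j) n) ^ 2 with hw
  have hw0 : ∀ n, 0 ≤ w n := fun n => sq_nonneg _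
  set μ : ℕ → ℝ := fun n => nw X W a0 n * w n with hμ
  have hμ0 : ∀ n, 0 ≤ μ n := fun n => mul_nonneg (ColM.nw_nonneg hW _ _ _ _) (hw0 n)
  set I := Icc 1 ⌊3 * X⌋₊ with hI
  set P : ℕ → Fin (4 * m) → Fin K' → Prop := fun n g j => (t (e (g, j)) * n + 1).Prime with hP
  set hh : ℕ → ℕ := fun n => ((univ : Finset (Fin (4 * m))).filter (fun g => ∃ j, P n g j)).card with hhh
  set Sn : ℕ → ℝ := fun n => ∑ g, ∑ j, (if P n g j then (1 : ℝ) else 0) with hSn
  have hSn0 : ∀ n, 0 ≤ Sn n := fun n => sum_nonneg fun g _ => sum_nonneg fun j _ => by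
    split_ifs <;> norm_num
  have hSnle : ∀ n, Sn n ≤ KK := by
    intro n
    calc Sn n ≤ ∑ _g : Fin (4 * m), ∑ _j : Fin K', (1 : ℝ) :=
          sum_le_sum fun g _ => sum_le_sum fun j _ => by split_ifs <;> norm_num
      _ = ((4 * m * K' : ℕ) : ℝ) := by
          simp
      _ = KK := by rw [hTK, hKK]; push_cast; ring
  set x : ℝ := ∑ n ∈ I, μ n * Sn n with hx
  set y : ℝ := ∑ n ∈ I, μ n * (if hh n < m then Sn n else 0) with hy
  set Pp : ℝ := ∑ n ∈ I, μ n * ∑ g, ∑ j, ∑ j' ∈ univ.erase j,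
            (if P n g j then (1 : ℝ) else 0) * (if P n g j' then (1 : ℝ) else 0) with hPp
  have hcs' : y ^ 2 ≤ (∑ n ∈ I, μ n) * (((m : ℝ) - 1) * (x + Pp)) :=
    COLAux.cs_core I μ (fun n _ => hμ0 n) P hm
  have hxL : L * Q ≤ x := by
    have e1 : x = ∑ g, ∑ j, ∑ n ∈ I, μ n * (if P n g j then (1 : ℝ) else 0) := by
      rw [hx]
      simp only [hSn, mul_sum]
      rw [sum_comm]
      apply sum_congr rfl
      intro g _
      rw [sum_comm]
    have e2 : ∀ g j, (J - ε) / 200 * Q ≤ ∑ n ∈ I, μ n * (if P n g j then (1 : ℝ) else 0) := by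
      intro g j
      have h7 := s1 (e (g, j))
      have h8 : (J - ε) / 200 * Q ≤ (JJ f A (e (g, j)) - ε) / 200 * Q := by
        apply mul_le_mul_of_nonneg_right _ hQ0
        have := hJJ (e (g, j))
        linarith
      refine h8.trans (h7.trans (le_of_eq ?_))
      apply sum_congr rfl
      intro n _
      by_cases h9 : (t (e (g, j)) * n + 1).Prime
      · rw [if_pos h9, if_pos (show P n g j from h9), mul_one]
      · rw [if_neg h9, if_neg (show ¬ P n g j from h9), mul_zero, mul_zero]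
    rw [e1]
    calc L * Q = ∑ _g : Fin (4 * m), ∑ _j : Fin K', (J - ε) / 200 * Q := by
          rw [sum_const, sum_const, card_univ, card_univ, Fintype.card_fin, Fintype.card_fin,
            nsmul_eq_mul, nsmul_eq_mul, hL]
          push_cast
          ring
      _ ≤ _ := sum_le_sum fun g _ => sum_le_sum fun j _ => e2 g j
  have hPpQ : Pp ≤ Pu * Q := by
    have e1 : Pp = ∑ g, ∑ j, ∑ j' ∈ univ.erase j, ∑ n ∈ I, μ n *
        ((if P n g j then (1 : ℝ) else 0) * (if P n g j' then (1 : ℝ) else 0)) := by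
      rw [hPp]
      simp only [mul_sum]
      rw [sum_comm]
      apply sum_congr rfl
      intro g _
      rw [sum_comm]
      apply sum_congr rfl
      intro j _
      rw [sum_comm]
    have e2 : ∀ g j, ∀ j' ∈ (univ : Finset (Fin K')).erase j, ∑ n ∈ I, μ n *
        ((if P n g j then (1 : ℝ) else 0) * (if P n g j' then (1 : ℝ) else 0)) ≤
        (J2 / V + ε) / 200 * Q := by
      intro g j j' hj'
      have hne : e (g, j') ≠ e (g, j) := by
        intro h
        have := e.injective h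
        simp only [Prod.mk.injEq, true_and] at this
        exact (ne_of_mem_erase hj') this
      obtain ⟨j0, hj0⟩ := Fin.exists_succAbove_eq hne
      have h7 := s2 (e (g, j)) j0
      have h8 : (JJ2 f A (e (g, j)) j0 / V + ε) / 200 * Q ≤ (J2 / V + ε) / 200 * Q := by
        apply mul_le_mul_of_nonneg_right _ hQ0
        have h9 : JJ2 f A (e (g, j)) j0 ≤ J2 := by
          rw [hJ2, le_div_iff₀ hs]
          exact hJJ2 _ _
        have h10 : JJ2 f A (e (g, j)) j0 / V ≤ J2 / V := div_le_div_of_nonneg_right h9 hV0.le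
        linarith
      refine le_trans (le_of_eq ?_) (h7.trans h8)
      rw [hj0]
      apply sum_congr rfl
      intro n _
      by_cases h9 : (t (e (g, j)) * n + 1).Prime
      · by_cases h10 : (t (e (g, j')) * n + 1).Prime
        · rw [if_pos (show P n g j from h9), if_pos (show P n g j' from h10),
            if_pos (show (t (e (g, j)) * n + 1).Prime ∧ (t (e (g, j')) * n + 1).Prime from ⟨h9, h10⟩),
            mul_one, mul_one]
        · rw [if_neg (show ¬ P n g j' from h10),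
            if_neg (show ¬ ((t (e (g, j)) * n + 1).Prime ∧ (t (e (g, j')) * n + 1).Prime) from
              fun h => h10 h.2), mul_zero, mul_zero, mul_zero]
      · rw [if_neg (show ¬ P n g j from h9),
          if_neg (show ¬ ((t (e (g, j)) * n + 1).Prime ∧ (t (e (g, j')) * n + 1).Prime) from
            fun h => h9 h.1), zero_mul, mul_zero, mul_zero]
    have hpos : 0 ≤ (J2 / V + ε) / 200 * Q := by positivity
    rw [e1]
    calc _ ≤ ∑ _g : Fin (4 * m), ∑ j : Fin K', ∑ _j' ∈ (univ : Finset (Fin K')).erase j,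
          (J2 / V + ε) / 200 * Q :=
          sum_le_sum fun g _ => sum_le_sum fun j _ => sum_le_sum fun j' hj' => e2 g j j' hj'
      _ ≤ ∑ _g : Fin (4 * m), ∑ _j : Fin K', (K' : ℝ) * ((J2 / V + ε) / 200 * Q) := by
          apply sum_le_sum
          intro g _
          apply sum_le_sum
          intro j _
          rw [sum_const, nsmul_eq_mul]
          apply mul_le_mul_of_nonneg_right _ hpos
          have : ((univ : Finset (Fin K')).erase j).card ≤ K' := by
            refine (card_le_card (erase_subset _ _)).trans ?_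
            rw [card_univ, Fintype.card_fin]
          exact_mod_cast this
      _ = Pu * Q := by
          rw [sum_const, sum_const, card_univ, card_univ, Fintype.card_fin, Fintype.card_fin,
            nsmul_eq_mul, nsmul_eq_mul, hPu]
          push_cast
          ring
  have hPp0 : 0 ≤ Pp := by
    rw [hPp]
    apply sum_nonneg
    intro n _
    apply mul_nonneg (hμ0 n)
    exact sum_nonneg fun g _ => sum_nonneg fun j _ => sum_nonneg fun j' _ => by
      split_ifs <;> norm_num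
  have hy0 : 0 ≤ y := by
    rw [hy]
    apply sum_nonneg
    intro n _
    apply mul_nonneg (hμ0 n)
    split_ifs
    · exact hSn0 n
    · exact le_rfl
  have hAu : ∑ n ∈ I, μ n ≤ (S * s + ε) * Q := by
    refine s3.trans ?_
    apply mul_le_mul_of_nonneg_right _ hQ0
    have : s ^ (K0 + 1) = S * s := by rw [hS, pow_succ]
    rw [this] at hII
    linarith
  have hkey : κ * L * Q ≤ x - y :=
    COLAux.alg_core (m := (m : ℝ)) hmR hQ0 hL0 (by positivity) hPu0.le hκ0 hκ1 hxL hy0 hAu hPp0 hPpQ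
      hcs' hnum
  -- the sum over the good n
  set Sg : ℝ := ∑ n ∈ I, nw X W a0 n * (if m ≤ hh n then w n else 0) with hSg
  have hxy : x - y ≤ KK * Sg := by
    rw [hx, hy, ← sum_sub_distrib, hSg, mul_sum]
    apply sum_le_sum
    intro n _
    by_cases h7 : hh n < m
    · rw [if_pos h7, if_neg (not_le.2 h7)]
      simp
    · rw [if_neg h7, if_pos (not_lt.1 h7), mul_zero, sub_zero]
      calc μ n * Sn n ≤ μ n * KK := mul_le_mul_of_nonneg_left (hSnle n) (hμ0 n)
        _ = KK * (nw X W a0 n * w n) := by rw [hμ]; ring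
  have hSg1 : 2 * c1 * Q ≤ Sg := by
    have h7 : KK * (2 * c1 * Q) ≤ KK * Sg := by
      refine le_trans (le_of_eq ?_) (hkey.trans hxy)
      rw [hc1]
      field_simp
    exact le_of_mul_le_mul_left h7 hKK0
  -- remove the non rough part
  have s12 : Sg ≤ ∑ n ∈ I, nw X W a0 n *
        (if m ≤ hh n ∧ (∀ j, Rg δ X (t j * n + 1)) then w n else 0) +
      ∑ n ∈ I, ∑ j : Fin (K0 + 1), ∑ p ∈ PS δ X,
        nw X W a0 n * (if (p : ℤ) ∣ vl (t j) n then w n else 0) := by
    rw [hSg, ← sum_add_distrib]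
    apply sum_le_sum
    intro n _
    have hnu := ColM.nw_nonneg hW X W a0 n
    have hnn : 0 ≤ ∑ j : Fin (K0 + 1), ∑ p ∈ PS δ X,
        nw X W a0 n * (if (p : ℤ) ∣ vl (t j) n then w n else 0) := by
      apply sum_nonneg; intro j _
      apply sum_nonneg; intro p _
      apply mul_nonneg hnu
      split_ifs
      · exact hw0 n
      · exact le_rfl
    by_cases h10 : m ≤ hh n
    · by_cases h11 : ∀ j, Rg δ X (t j * n + 1)
      · rw [if_pos h10, if_pos ⟨h10, h11⟩]
        linarith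
      · rw [if_pos h10, if_neg (fun h => h11 h.2), mul_zero, zero_add]
        unfold Rg at h11
        push Not at h11
        obtain ⟨j, p, hp, hpd⟩ := h11
        have e1 : nw X W a0 n * w n =
            nw X W a0 n * (if (p : ℤ) ∣ vl (t j) n then w n else 0) := by
          rw [if_pos]
          have e : ((t j * n + 1 : ℕ) : ℤ) = vl (t j) n := by unfold vl; push_cast; ring
          rw [← e]
          exact Int.natCast_dvd_natCast.2 hpd
        rw [e1]
        have hterm : ∀ (j : Fin (K0 + 1)) (p : ℕ),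
            0 ≤ nw X W a0 n * (if (p : ℤ) ∣ vl (t j) n then w n else 0) := by
          intro j p
          apply mul_nonneg hnu
          split_ifs
          · exact hw0 n
          · exact le_rfl
        refine le_trans (single_le_sum
          (f := fun p : ℕ => nw X W a0 n * (if (p : ℤ) ∣ vl (t j) n then w n else 0))
          (fun p _ => hterm j p) hp) ?_
        exact single_le_sum (f := fun j => ∑ p ∈ PS δ X,
          nw X W a0 n * (if (p : ℤ) ∣ vl (t j) n then w n else 0))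
          (fun j _ => sum_nonneg fun p _ => hterm j p) (mem_univ j)
    · rw [if_neg h10, if_neg (fun h => h10 h.1), mul_zero, zero_add]
      exact hnn
  have s5' : ∑ n ∈ I, ∑ j : Fin (K0 + 1), ∑ p ∈ PS δ X,
        nw X W a0 n * (if (p : ℤ) ∣ vl (t j) n then w n else 0) ≤ C * δ * Q := s5
  have s13 : C * δ * Q ≤ c1 * Q := mul_le_mul_of_nonneg_right hδC hQ0
  have s14 : c1 * Q ≤ ∑ n ∈ I, nw X W a0 n *
        (if m ≤ hh n ∧ (∀ j, Rg δ X (t j * n + 1)) then w n else 0) := by linarith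
  rw [div_mul_eq_mul_div, div_le_iff₀ hD0, sum_mul]
  refine s14.trans ?_
  apply sum_le_sum
  intro n hn
  rw [hI, mem_Icc] at hn
  have hn3 : (n : ℝ) ≤ 3 * X := (Nat.le_floor_iff (by linarith)).1 hn.2
  have hnu := ColM.nw_nonneg hW X W a0 n
  rw [mul_assoc]
  apply mul_le_mul_of_nonneg_left _ hnu
  by_cases hc' : m ≤ hh n ∧ (∀ j, Rg δ X (t j * n + 1))
  · rw [if_pos hc', if_pos hc', one_mul]
    have hsq : Real.sqrt X ≤ X := by
      rw [Real.sqrt_le_left (by linarith)]
      nlinarith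
    have hVb : ∀ (j : Fin (K0 + 1)) (l : Fin B),
        |VVm E (RR X) (LL X) (f l) (vl (t j) n)| ≤ 2 ^ ⌈400 / δ⌉₊ := by
      intro j l
      have e : vl (t j) n = ((t j * n + 1 : ℕ) : ℤ) := by unfold vl; push_cast; ring
      rw [e]
      apply ColM.VV_rg_le' hδ0 h5 h6 (by omega) _ (hc'.2 j) E _ _ (hf1 l)
      push_cast
      have h20 := hC.tl j
      have h21 : (t j : ℝ) * n ≤ Real.log X ^ D * (3 * X) :=
        mul_le_mul h20 hn3 (Nat.cast_nonneg _) ((Nat.cast_nonneg _).trans h20)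
      linarith
    have habs : |sqw E X f A (fun j => vl (t j) n)| ≤
        (A.card : ℝ) * (2 ^ ⌈400 / δ⌉₊) ^ (K0 + 1) := by
      unfold sqw
      refine (abs_sum_le_sum_abs _ _).trans ?_
      rw [← nsmul_eq_mul]
      apply sum_le_card_nsmul
      intro a _
      rw [abs_prod]
      calc ∏ j : Fin (K0 + 1), |VVm E (RR X) (LL X) (f (a j)) (vl (t j) n)| ≤
          ∏ _j : Fin (K0 + 1), (2:ℝ) ^ ⌈400 / δ⌉₊ :=
            Finset.prod_le_prod (fun j _ => abs_nonneg _) (fun j _ => hVb j (a j))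
        _ = _ := by rw [prod_const, card_univ, Fintype.card_fin]
    have hsqw : sqw E X f A (fun j => vl (t j) n) ^ 2 ≤
        ((A.card : ℝ) * (2 ^ ⌈400 / δ⌉₊) ^ (K0 + 1)) ^ 2 := by
      rw [← sq_abs]
      exact pow_le_pow_left₀ (abs_nonneg _) habs 2
    rw [hDc]
    have e3 : w n = sqw E X f A (fun j => vl (t j) n) ^ 2 := rfl
    linarith
  · rw [if_neg hc', if_neg hc', zero_mul]

end Pool.Agent.NH16.QL
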