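import Pool.Agent.NH16.QL.Stm
import Pool.Agent.H387R2.MB14

/-!
QL-16: truncation of the singular product and classes for one form (port of `H362R2/QT/CTS`)
-/

set_option autoImplicit false

open Finset Filter Topology

namespace Pool.Agent.NH16.QL

namespace CTSx

open Pool.Agent.H378R2 Pool.Agent.H387R2 Pool.Agent.H387R2.MB Pool.Agent.H387R2.Uni Pool.Agent.H362R2.QT Pool.Agent.H386R2.HL
open Pool.Agent.W218.MU

lemma gD_eq (W : ℕ) (T : Finset ℕ) : gD W T = g W (T.map em) := by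
  unfold gD g
  congr 1
  apply filter_congr
  intro b _
  constructor
  · intro h L hL
    rw [Finset.mem_map] at hL
    obtain ⟨r, hr, rfl⟩ := hL
    exact h r hr
  · intro h r hr
    exact h (em r) (mem_map_of_mem em hr)

lemma loc_ge {T : Finset (ℕ × ℕ)} (hT : Prim T) {p : ℕ} (hp : p.Prime) (hr : T.card ≤ p) :
    1 - (T.card : ℝ) ^ 2 * ((p : ℝ) ^ 2)⁻¹ ≤ loc T p := by
  have h1 := one_sub_pos hp
  have hp0 : (0 : ℝ) < p := by exact_mod_cast hp.pos
  have h2 := abs_generic T.card hp hr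
  rw [abs_le] at h2
  have h3 : (1 - (T.card : ℝ) / p) / (1 - 1 / (p : ℝ)) ^ T.card ≤ loc T p := by
    unfold loc
    apply div_le_div_of_nonneg_right _ (by positivity)
    have h4 : (w T p : ℝ) ≤ T.card := by exact_mod_cast w_le hT hp
    have := div_le_div_of_nonneg_right h4 hp0.le
    linarith
  rw [one_div] at h2
  linarith [h2.1]

/-- sharp lower bound of the singular product by the truncated one -/
theorem SL_ge {T : Finset (ℕ × ℕ)} (hT : Prim T) (y : ℕ) (hy : 1 ≤ y) (hTy : T.card ^ 2 ≤ y) :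
    (1 - (T.card : ℝ) ^ 2 / y) * ∏ p ∈ (y + 1).primesBelow, loc T p ≤ SL T := by
  classical
  have hprod := SL_hasProd hT
  rw [HasProd] at hprod
  set F0 : Finset Nat.Primes := ((y + 1).primesBelow).attach.image (mkP y) with hF0
  have hmem : ∀ p : Nat.Primes, p ∈ F0 ↔ (p : ℕ) ∈ (y + 1).primesBelow := by
    intro p
    rw [hF0, mem_image]
    constructor
    · rintro ⟨a, _, rfl⟩
      exact a.2
    · intro h
      exact ⟨⟨p, h⟩, mem_attach _ _, rfl⟩
  have hF0' : ∏ p ∈ F0, loc T p = ∏ p ∈ (y + 1).primesBelow, loc T p := by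
    rw [hF0, prod_image]
    · rw [← prod_attach ((y + 1).primesBelow)]
      rfl
    · intro a _ b _ hab
      have h9 : (a : ℕ) = b := congrArg (fun p : Nat.Primes => (p : ℕ)) hab
      exact Subtype.ext h9
  refine ge_of_tendsto hprod ?_
  filter_upwards [eventually_ge_atTop F0] with F hF
  have hF' : F0 ⊆ F := hF
  rw [← prod_sdiff hF']
  have h1 : 1 - (T.card : ℝ) ^ 2 / y ≤ ∏ p ∈ F \ F0, loc T p := by
    have hbig : ∀ p ∈ F \ F0, y < (p : ℕ) := by
      intro p hp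
      rw [Finset.mem_sdiff, hmem, Nat.mem_primesBelow] at hp
      by_contra h
      exact hp.2 ⟨by omega, p.2⟩
    have hr : ∀ p ∈ F \ F0, T.card ≤ (p : ℕ) := by
      intro p hp
      have := hbig p hp
      have : T.card ≤ T.card ^ 2 := Nat.le_self_pow (by norm_num) _
      omega
    have hle : ∀ p ∈ F \ F0, (T.card : ℝ) ^ 2 * (((p : ℕ) : ℝ) ^ 2)⁻¹ ≤ 1 := by
      intro p hp
      have h3 : (T.card : ℝ) ≤ ((p : ℕ) : ℝ) := by exact_mod_cast hr p hp
      have h4 : (0:ℝ) < ((p : ℕ) : ℝ) := by exact_mod_cast p.2.pos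
      rw [← div_eq_mul_inv, div_le_one (by positivity)]
      exact pow_le_pow_left₀ (Nat.cast_nonneg _) h3 2
    have hsum : ∑ p ∈ F \ F0, (T.card : ℝ) ^ 2 * (((p : ℕ) : ℝ) ^ 2)⁻¹ ≤ (T.card : ℝ) ^ 2 / y := by
      rw [← mul_sum]
      have h2 : ∑ p ∈ F \ F0, (((p : ℕ) : ℝ) ^ 2)⁻¹ ≤ 1 / y := by
        have h3 := sum_inv_sq_gt hy ((F \ F0).image toN) (by
          intro p hp
          rw [mem_image] at hp
          obtain ⟨p', hp', rfl⟩ := hp
          exact hbig p' hp')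
        rw [sum_image (fun a _ b _ hab => toN_inj hab)] at h3
        exact h3
      calc (T.card : ℝ) ^ 2 * ∑ p ∈ F \ F0, (((p : ℕ) : ℝ) ^ 2)⁻¹ ≤ (T.card : ℝ) ^ 2 * (1 / y) := by gcongr
        _ = (T.card : ℝ) ^ 2 / y := by rw [mul_one_div]
    have h2 := MB.one_sub_sum_le (F \ F0) (fun p => (T.card : ℝ) ^ 2 * (((p : ℕ) : ℝ) ^ 2)⁻¹)
      (fun p _ => by positivity) hle
    have h3 : ∏ p ∈ F \ F0, (1 - (T.card : ℝ) ^ 2 * (((p : ℕ) : ℝ) ^ 2)⁻¹) ≤ ∏ p ∈ F \ F0, loc T p := by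
      apply Finset.prod_le_prod
      · intro p hp
        rw [sub_nonneg]
        exact hle p hp
      · intro p hp
        exact loc_ge hT p.2 (hr p hp)
    linarith
  rw [hF0']
  exact mul_le_mul_of_nonneg_right h1
    (prod_nonneg fun p hp => loc_nonneg T (Nat.prime_of_mem_primesBelow hp))

lemma one_div_rho (y : ℕ) : 1 / rho y = (Uni.WW y : ℝ) / (Uni.WW y).totient := by
  unfold rho
  rw [one_div_div]

lemma le_floor_max {N r : ℕ} {C : ℝ} (hL1 : 1 ≤ Real.log N) (h : r ≤ ⌊Real.log N ^ C⌋₊) :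
    r ≤ ⌊Real.log N ^ (max C 0)⌋₊ :=
  h.trans (Nat.floor_le_floor (Real.rpow_le_rpow_of_exponent_le hL1 (le_max_left _ _)))

end CTSx

open Pool.Agent.H378R2 Pool.Agent.H387R2 Pool.Agent.H387R2.MB Pool.Agent.H387R2.Uni Pool.Agent.H362R2.QT Pool.Agent.H386R2.HL
open Pool.Agent.W218.MU CTSx

theorem t_CTS : S_CTS := by
  intro k ε C hε
  have hlog : 0 < Real.log (1 + ε) := Real.log_pos (by linarith)
  set n : ℕ := k + 1 with hn
  have hn0 : (0:ℝ) < n := by rw [hn]; positivity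
  set δ : ℝ := min (1 / 2) (Real.log (1 + ε) / n) with hδdef
  have hδ : 0 < δ := lt_min (by norm_num) (by positivity)
  have hδ1 : δ ≤ 1 / 2 := min_le_left _ _
  have hδn : (1 + δ) ^ n ≤ 1 + ε := by
    have h1 : 1 + δ ≤ Real.exp δ := by linarith [Real.add_one_le_exp δ]
    have h2 : δ * n ≤ Real.log (1 + ε) := by
      have := min_le_right (1 / 2) (Real.log (1 + ε) / n)
      rw [← hδdef, le_div_iff₀ hn0] at this
      exact this
    calc (1 + δ) ^ n ≤ (Real.exp δ) ^ n := pow_le_pow_left₀ (by linarith) h1 n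
      _ = Real.exp (n * δ) := by rw [Real.exp_nat_mul]
      _ ≤ Real.exp (Real.log (1 + ε)) := Real.exp_le_exp.2 (by linarith)
      _ = 1 + ε := Real.exp_log (by linarith)
  set m : ℕ := (k + 1) + (k + 1) * (k + 1) with hm
  have tN : Tendsto (fun N : ℕ => (N : ℝ)) atTop atTop := tendsto_natCast_atTop_atTop
  have tL : Tendsto (fun N : ℕ => Real.log (N : ℝ)) atTop atTop := Real.tendsto_log_atTop.comp tN
  have ty : Tendsto (fun N : ℕ => ⌊Real.log (Real.log (N : ℝ))⌋₊) atTop atTop :=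
    tendsto_nat_floor_atTop.comp (Real.tendsto_log_atTop.comp tL)
  filter_upwards [Uni.par_eventually k (max C 0 * (2 * m : ℕ)) hδ hδ1 0, tL.eventually_ge_atTop 1,
    ty.eventually (eventually_ge_atTop (max (max 1 ((k + 1) ^ 2)) ⌈((k : ℝ) + 1) ^ 2 / ε⌉₊))]
    with N hP hL1 hy
  intro T hTc hT1 hTM
  set y := ⌊Real.log (Real.log (N : ℝ))⌋₊ with hydef
  have hy1 : 1 ≤ y := ((le_max_left _ _).trans (le_max_left _ _)).trans hy
  have hy2 : (k + 1) ^ 2 ≤ y := ((le_max_right _ _).trans (le_max_left _ _)).trans hy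
  have hy3 : ((k : ℝ) + 1) ^ 2 / ε ≤ y := by
    have h1 : ⌈((k : ℝ) + 1) ^ 2 / ε⌉₊ ≤ y := (le_max_right _ _).trans hy
    exact (Nat.le_ceil _).trans (by exact_mod_cast h1)
  have hy0 : (0:ℝ) < y := by exact_mod_cast hy1
  have hpT : Prim (T.map em) := prim_map hT1
  have hcard : (T.map em).card = k + 1 := by rw [card_map, hTc]
  rw [one_div_rho, ← SL_map, gD_eq]
  have htr := trunc_eq (T.map em) y
  rw [hcard] at htr
  rw [← htr]
  have hnn : 0 ≤ ∏ p ∈ (y + 1).primesBelow, loc (T.map em) p :=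
    prod_nonneg fun p hp => loc_nonneg _ (Nat.prime_of_mem_primesBelow hp)
  constructor
  · have h1 := SL_ge hpT y hy1 (by rw [hcard]; exact hy2)
    rw [hcard] at h1
    refine le_trans (mul_le_mul_of_nonneg_right ?_ hnn) h1
    have : (((k + 1 : ℕ) : ℝ)) ^ 2 / y ≤ ε := by
      rw [div_le_iff₀ hy0]
      rw [div_le_iff₀ hε] at hy3
      push_cast
      linarith
    linarith
  · have h1 := SL_le hpT y
    rw [hcard] at h1
    refine h1.trans ?_
    rw [mul_comm]
    apply mul_le_mul_of_nonneg_right _ hnn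
    have h2 : tt y (disc (T.map em)) ≤ 1 + δ := by
      apply hP.htt _ (Nat.one_le_iff_ne_zero.2 (disc_ne hpT))
      have hL0 : 0 < Real.log (N:ℝ) := by linarith
      set M : ℕ := ⌊Real.log (N:ℝ) ^ (max C 0)⌋₊ with hM
      have hLC1 : 1 ≤ Real.log (N:ℝ) ^ (max C 0) := Real.one_le_rpow hL1 (le_max_right _ _)
      have hM1 : 1 ≤ M := Nat.le_floor (by simpa using hLC1)
      have hMr : (M : ℝ) ≤ Real.log (N:ℝ) ^ (max C 0) := Nat.floor_le (by positivity)
      have h3 := disc_le (T := T.map em) hM1 (by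
        intro L hL
        rw [Finset.mem_map] at hL
        obtain ⟨r, hr, rfl⟩ := hL
        exact ⟨le_floor_max hL1 (hTM r hr), hM1⟩)
      rw [hcard] at h3
      apply Nat.le_floor
      have h4 : ((disc (T.map em) : ℕ) : ℝ) ≤ ((M ^ 2) ^ m : ℕ) := by exact_mod_cast h3
      refine h4.trans ?_
      push_cast
      rw [← pow_mul]
      calc (M : ℝ) ^ (2 * m) ≤ (Real.log (N:ℝ) ^ (max C 0)) ^ (2 * m) :=
            pow_le_pow_left₀ (Nat.cast_nonneg _) hMr _
        _ = Real.log (N:ℝ) ^ (max C 0 * (2 * m : ℕ)) := by rw [Real.rpow_mul_natCast hL0.le]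
        _ = _ := by push_cast; rfl
    calc tt y (disc (T.map em)) ^ (k + 1) ≤ (1 + δ) ^ (k + 1) :=
          pow_le_pow_left₀ (zero_le_one.trans (one_le_tt _ _)) h2 _
      _ ≤ 1 + ε := hδn

theorem t_MEAN : S_MEAN := by
  intro C
  have tN : Tendsto (fun N : ℕ => (N : ℝ)) atTop atTop := tendsto_natCast_atTop_atTop
  have tL : Tendsto (fun N : ℕ => Real.log (N : ℝ)) atTop atTop := Real.tendsto_log_atTop.comp tN
  filter_upwards [Uni.par_eventually 0 (max C 0) (δ := 1 / 2) (by norm_num) le_rfl 0,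
    tL.eventually_ge_atTop 1] with N hP hL1
  intro r hr1 hr2
  set y := ⌊Real.log (Real.log (N : ℝ))⌋₊ with hydef
  have h1 : tt y r ≤ 1 + 1 / 2 := hP.htt _ hr1 (le_floor_max hL1 hr2)
  have h2 := g_one (L := (r, 1)) hr1 (Nat.coprime_one_right r) y h1
  have h3 : gD (Uni.WW y) {r} = g (Uni.WW y) {(r, 1)} := by
    rw [gD_eq]
    rfl
  rw [h3]
  have hW0 : (0:ℝ) < Uni.WW y := by exact_mod_cast Uni.WW_pos y
  have h4 : rho y * (Uni.WW y : ℝ) = (Nat.totient (Uni.WW y) : ℝ) := by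
    unfold rho
    field_simp
  have h5 : (2 / 3) * (rho y * ((r : ℝ) / Nat.totient r)) * (Uni.WW y : ℝ) =
      (2 / 3) * ((Nat.totient (Uni.WW y) : ℝ) * ra r) := by
    rw [← h4]
    unfold ra
    ring
  rw [h5]
  linarith

end Pool.Agent.NH16.QL
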