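import Mathlib
import Pool.Agent.H362R2.QT.Stubs
import Pool.Agent.W218.MU.Dil

/-!
Project QL (helper16): a quarter of the tuples at every scale, for the forms `r * n + 1` on the window `[x, 2 x)`.
Port of the project QT of helper362 (`Pool/Agent/H362R2/QT`, `Pool/Agent/H387R2/MB*`).
Statements of the modules, as propositions.
-/

set_option autoImplicit false

open Finset Filter Topology
open scoped ContDiff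

namespace Pool.Agent.NH16.QL

open Pool.Agent.H378R2 Pool.Agent.H387R2 Pool.Agent.H387R2.MB Pool.Agent.H362R2.QT

/-- tent weight in logarithmic scale, supported on `[1, e ^ (1 / 2)]` -/
noncomputable def Ph (u : ℝ) : ℝ := Phi (u ^ 2) / 2

/-- total mass -/
noncomputable def MP (X : ℝ) : ℝ := ∑ n ∈ Icc 1 ⌊3 * X⌋₊, Ph (n / X)

/-- total von Mangoldt mass -/
noncomputable def LP (X : ℝ) : ℝ := ∑ n ∈ Icc 1 ⌊3 * X⌋₊, Ph (n / X) * ArithmeticFunction.vonMangoldt n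

/-- discrepancy of the weighted von Mangoldt function in the class `b` mod `Q` -/
noncomputable def EP (X : ℝ) (Q b : ℕ) : ℝ :=
  ∑ n ∈ (Icc 1 ⌊3 * X⌋₊).filter (fun n => n ≡ b [MOD Q]), Ph (n / X) * ArithmeticFunction.vonMangoldt n -
    LP X * (1 / (Nat.totient Q : ℝ))

/-- the weight restricted to a class -/
noncomputable def nw (X : ℝ) (W a n : ℕ) : ℝ := if n ≡ a [MOD W] then Ph (n / X) else 0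

/-- the value of the form `r n + 1` -/
def vl (r n : ℕ) : ℤ := (r : ℤ) * n + 1

/-- main quantity -/
noncomputable def QM (K : ℕ) (X : ℝ) (W : ℕ) (E : Finset ℕ) : ℝ :=
  (MP X * (1 / (W : ℝ))) * (1 / (LL X * BE E) ^ K)

/-- normalised main quantity -/
noncomputable def UM (J : ℕ) (X : ℝ) (y : ℕ) : ℝ :=
  (MP X * (1 / (Uni.WW y : ℝ))) * (1 / (LL X * rho y) ^ J)

/-- the forms `t_j n + 1` are independent at the primes outside `E` -/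
structure DL (E : Finset ℕ) {K : ℕ} (t : Fin K → ℕ) : Prop where
  pos : ∀ j, 1 ≤ t j
  du : ∀ p : ℕ, p.Prime → p ∉ E → ∀ j, ¬ p ∣ t j
  dt : DT E t

/-- standing conditions -/
structure Cn (D θ X : ℝ) (z W : ℕ) (E : Finset ℕ) (a0 : ℕ) {K : ℕ} (t : Fin K → ℕ) : Prop where
  cs : CS X z W E
  dl : DL E t
  cp : ∀ j, (t j * a0 + 1).Coprime W
  tl : ∀ j, (t j : ℝ) ≤ Real.log X ^ D
  sm : ∑ p ∈ E.filter (fun p => ¬ p ∣ W), (1 : ℝ) / p ≤ θ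

/-- QL-1 -/
structure S_WGT : Prop where
  nn : ∀ u, 0 ≤ Ph u
  half : ∀ u, Ph u ≤ 1 / 2
  lip : ∀ u v : ℝ, 0 ≤ u → 0 ≤ v → |Ph u - Ph v| ≤ |u - v|
  low : ∀ u : ℝ, 0 ≤ u → u ≤ 1 → Ph u = 0
  high : ∀ u : ℝ, Real.exp (1 / 2) ≤ u → Ph u = 0
  cls : ∀ X : ℝ, 4 ≤ X → ∀ Q b : ℕ, 0 < Q → (Q : ℝ) ≤ X →
    |∑ n ∈ (Icc 1 ⌊3 * X⌋₊).filter (fun n => n ≡ b [MOD Q]), Ph (n / X) - MP X * (1 / Q)| ≤ 5
  mnn : ∀ X : ℝ, 0 ≤ MP X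
  mle : ∀ X : ℝ, 4 ≤ X → MP X ≤ 2 * X
  mge : ∀ᶠ X : ℝ in atTop, X / 50 ≤ MP X
  sc : ∀ X : ℝ, 4 ≤ X → ∀ s : ℕ, 1 ≤ s → |MP (s * X) - s * MP X| ≤ 5 * s
  qge : ∀ K : ℕ, ∀ᶠ X : ℝ in atTop, ∀ (W : ℕ) (E : Finset ℕ), 0 < W →
    (W : ℝ) ≤ Real.log X ^ 3 → (∀ p ∈ E, p.Prime) →
    X / (50 * Real.log X ^ (3 + K)) ≤ QM K X W E
  ex : ∀ (K : ℕ) (c δ : ℝ), 0 < δ → ∀ᶠ X : ℝ in atTop, ∀ (W : ℕ) (E : Finset ℕ), 0 < W →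
    (W : ℝ) ≤ Real.log X ^ 3 → (∀ p ∈ E, p.Prime) →
    c * Real.exp (3 * LL X) ≤ δ * QM K X W E

/-- QL-2: the prime number theorem for the weight `Ph` -/
def S_PNT : Prop := ∀ ε : ℝ, 0 < ε → ∀ᶠ X : ℝ in atTop, |LP X - MP X| ≤ ε * X

/-- QL-3: `BVAP` uniformly in the fixed factor `m₀` of the modulus, `m₀ ≤ (log X) ^ D` -/
def S_BVU : Prop := ∀ c : ℝ, 1 ≤ c → ∀ δ : ℝ, 0 < δ → ∀ (A : ℕ) (D : ℝ), ∀ᶠ X : ℝ in atTop,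
    ∀ m₀ : ℕ, 1 ≤ m₀ → (m₀ : ℝ) ≤ Real.log X ^ D → ∀ r : ℕ → ℕ,
    ∑ q ∈ (Icc 1 ⌊X ^ (1 / 2 - δ)⌋₊).filter (fun q => Squarefree q ∧ (r q).Coprime (m₀ * q)),
      c ^ q.primeFactors.card * |DAP X (m₀ * q) (r q)| ≤ X / (Real.log X) ^ A

/-- QL-4: Bombieri-Vinogradov for the moduli `W q`, `W` arbitrary and small -/
def S_BV : Prop := ∀ θ : ℝ, 0 < θ → θ < 1 / 2 → ∀ (K0 A : ℕ) (D : ℝ), ∀ᶠ X : ℝ in atTop, ∀ W : ℕ, 1 ≤ W →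
    (W : ℝ) ≤ Real.log X ^ D → ∀ Bc : ℕ → ℕ, (∀ q, 1 ≤ q → (Bc q).Coprime (W * q)) →
    ∑ q ∈ (Icc 1 ⌊X ^ θ⌋₊).filter (fun q => Squarefree q ∧ q.Coprime W),
      (q.divisors.card : ℝ) ^ (2 * K0) * |EP X (W * q) (Bc q)| ≤ X / Real.log X ^ A

/-- QL-5: first sum, product form -/
def S_S1PR : Prop := ∀ {K : ℕ} (F G : Fin K → ℝ → ℝ) (cF cG : Fin K → ℝ) (Cf : ℝ), 0 ≤ Cf →
    (∀ j x, |F j x| ≤ Cf) → (∀ j x, |G j x| ≤ Cf) →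
    (∀ j x, cF j < x → F j x = 0) → (∀ j x, cG j < x → G j x = 0) →
    ∑ j, cF j + ∑ j, cG j ≤ 2 → ∀ X : ℝ, 4 ≤ X → 1 ≤ LL X → ∀ (z W : ℕ) (E : Finset ℕ), CW X z W E →
    ∀ (a0 : ℕ) (t : Fin K → ℕ), DL E t →
    |∑ n ∈ Icc 1 ⌊3 * X⌋₊, nw X W a0 n *
        ∏ j, (VVm E (RR X) (LL X) (F j) (vl (t j) n) * VVm E (RR X) (LL X) (G j) (vl (t j) n)) -
      (MP X * (1 / W)) * sieveSum K F G (LL X) (fun _ => E) (fun p _ => 1 / (p : ℝ)) (RR X)| ≤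
    5 * Cf ^ (2 * K) * Real.exp (2 * LL X)

/-- QL-5: first sum, upper bound -/
def S_S1UP : Prop := ∀ {K B : ℕ} (f : Fin B → ℝ → ℝ) (c : Fin B → ℝ) (A : Finset (Fin K → Fin B)),
    (∀ l, ContDiff ℝ ∞ (f l)) → (∀ l, HasCompactSupport (f l)) → (∀ l x, c l < x → f l x = 0) →
    (∀ l, 0 ≤ c l ∧ c l ≤ 1 / 2) → (∀ a ∈ A, ∑ j, c (a j) ≤ 1) → (∀ l x, |f l x| ≤ 1) →
    ∀ ε1 : ℝ, 0 < ε1 → ∃ z : ℕ, ∀ᶠ X : ℝ in atTop, ∀ (W : ℕ) (E : Finset ℕ) (a0 : ℕ) (t : Fin K → ℕ),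
      CW X z W E → DL E t →
      ∑ n ∈ Icc 1 ⌊3 * X⌋₊, nw X W a0 n * sqw E X f A (fun j => vl (t j) n) ^ 2 ≤
        QM K X W E * (II f A + ε1) + (A.card : ℝ) ^ 2 * (5 * Real.exp (2 * LL X))

/-- QL-5: total mass -/
def S_TOT : Prop := ∀ {K B : ℕ} (f : Fin B → ℝ → ℝ) (c : Fin B → ℝ) (A : Finset (Fin K → Fin B)),
    (∀ l, ContDiff ℝ ∞ (f l)) → (∀ l, HasCompactSupport (f l)) → (∀ l x, c l < x → f l x = 0) →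
    (∀ l, 0 ≤ c l ∧ c l ≤ 1 / 2) → (∀ a ∈ A, ∑ j, c (a j) ≤ 1) → (∀ l x, |f l x| ≤ 1) →
    ∀ ε : ℝ, 0 < ε → ∃ z : ℕ, ∀ᶠ X : ℝ in atTop, ∀ (D θ : ℝ) (W : ℕ) (E : Finset ℕ) (a0 : ℕ) (t : Fin K → ℕ),
      Cn D θ X z W E a0 t →
      ∑ n ∈ Icc 1 ⌊3 * X⌋₊, nw X W a0 n * sqw E X f A (fun j => vl (t j) n) ^ 2 ≤ (II f A + ε) * QM K X W E

/-- QL-6: sums over a class of primes times truncated divisor sums, with coefficients (`sum2` of M7e) -/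
def S_SUM2 : Prop := ∀ {J : ℕ} (X : ℝ) (W b : ℕ), 0 < W → b.Coprime W → ∀ (F G : Fin J → ℝ → ℝ)
    (L Cf : ℝ), 0 < L → 0 ≤ Cf → ∀ (cF cG : Fin J → ℝ),
    (∀ j x, |F j x| ≤ Cf) → (∀ j x, |G j x| ≤ Cf) →
    (∀ j x, cF j < x → F j x = 0) → (∀ j x, cG j < x → G j x = 0) →
    ∀ (E : Fin J → Finset ℕ) (R : ℕ) (g : Fin J → ℕ) (h : Fin J → ℤ),
    (∀ j, ∀ p : ℕ, p.Prime → p ∉ E j → ¬ p ∣ W) → (∀ j, ∀ p : ℕ, p.Prime → p ∉ E j → ¬ p ∣ g j) →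
    (∀ j, ∀ p : ℕ, p.Prime → p ∉ E j → ¬ (p : ℤ) ∣ h j) →
    (∀ i j, i ≠ j → ∀ p : ℕ, p.Prime → p ∉ E i → p ∉ E j → ∀ n : ℕ,
      ¬ ((p : ℤ) ∣ g i * n + h i ∧ (p : ℤ) ∣ g j * n + h j)) →
    ∀ B : ℕ → ℕ, (∀ q, 1 ≤ q → ∀ b' : ℕ, b'.Coprime (W * q) → |EP X (W * q) b'| ≤ |EP X (W * q) (B q)|) →
    |∑ n ∈ Icc 1 ⌊3 * X⌋₊, (if n ≡ b [MOD W] then Ph (n / X) * ArithmeticFunction.vonMangoldt n else 0) *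
        ∏ j, (VVm (E j) R L (F j) (g j * n + h j) * VVm (E j) R L (G j) (g j * n + h j)) -
      (LP X * (1 / W.totient)) * sieveSum J F G L E (fun p _ => 1 / ((p : ℝ) - 1)) R| ≤
    Cf ^ (2 * J) * ∑ q ∈ (Icc 1 ⌊Real.exp (L * (∑ j, cF j + ∑ j, cG j))⌋₊).filter
      (fun q => Squarefree q ∧ q.Coprime W), (q.divisors.card : ℝ) ^ (2 * J) * |EP X (W * q) (B q)|

/-- QL-7: change of variables `m = s n + 1` -/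
def S_CV : Prop := ∀ X : ℝ, 4 ≤ X → ∀ s W a0 : ℕ, 1 ≤ s → 1 ≤ W → ∀ (P : ℕ → ℝ) (M : ℝ), (∀ n, |P n| ≤ M) →
    |∑ n ∈ Icc 1 ⌊3 * X⌋₊, nw X W a0 n * th (s * n + 1) * P (s * n + 1) -
      ∑ m ∈ Icc 1 ⌊3 * ((s : ℝ) * X)⌋₊, (if m ≡ s * a0 + 1 [MOD (s * W)] then
        Ph (m / ((s : ℝ) * X)) * ArithmeticFunction.vonMangoldt m else 0) * P m| ≤
    M * (4 * Real.log (4 * ((s : ℝ) * X)) + 4 * Real.sqrt ((s : ℝ) * X) * Real.log (4 * ((s : ℝ) * X)))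

/-- QL-7: truncated divisor sums ignore factors composed of excluded primes -/
def S_VM : Prop := ∀ (E : Finset ℕ) (R : ℕ) (L : ℝ) (F : ℝ → ℝ) (c : ℕ), 1 ≤ c →
    (∀ p : ℕ, p.Prime → p ∉ E → ¬ p ∣ c) → ∀ x : ℤ, VVm E R L F ((c : ℤ) * x) = VVm E R L F x

/-- QL-7: local densities -/
def S_TT : Prop := ∀ (E : Finset ℕ) (W : ℕ) (θ : ℝ), (∀ p ∈ E, p.Prime) → 0 < W →
    (∀ p : ℕ, p.Prime → p ∉ E → ¬ p ∣ W) → ∑ p ∈ E.filter (fun p => ¬ p ∣ W), (1 : ℝ) / p ≤ θ →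
    ∀ s : ℕ, 1 ≤ s → (∀ p : ℕ, p.Prime → p ∉ E → ¬ p ∣ s) →
      ((s * W : ℕ) : ℝ) * BE E ≤ ((s * W).totient : ℝ) ∧
      (1 - θ) * ((s * W).totient : ℝ) ≤ ((s * W : ℕ) : ℝ) * BE E

/-- QL-8: the second sum, asymptotically -/
def S_S2 : Prop := ∀ {K0 : ℕ} (F G : Fin K0 → ℝ → ℝ) (cF cG : Fin K0 → ℝ) (S : ℝ),
    (∀ j, ContDiff ℝ ∞ (F j)) → (∀ j, ContDiff ℝ ∞ (G j)) →
    (∀ j, HasCompactSupport (F j)) → (∀ j, HasCompactSupport (G j)) →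
    (∀ j x, |F j x| ≤ 1) → (∀ j x, |G j x| ≤ 1) →
    (∀ j x, cF j < x → F j x = 0) → (∀ j x, cG j < x → G j x = 0) →
    ∑ j, cF j + ∑ j, cG j ≤ 2 * S → 0 ≤ S → S < 50 →
    ∀ ε : ℝ, 0 < ε → ∃ θ : ℝ, 0 < θ ∧ ∃ z : ℕ, ∀ D : ℝ, ∀ᶠ X : ℝ in atTop,
    ∀ (R W : ℕ) (E : Finset ℕ) (a0 : ℕ) (t : Fin (K0 + 1) → ℕ),
      (∀ j x, Real.log R / LL X < x → F j x = 0 ∧ G j x = 0) →
      Cn D θ X z W E a0 t → ∀ i,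
      |∑ n ∈ Icc 1 ⌊3 * X⌋₊, nw X W a0 n * th (t i * n + 1) * ∏ j : Fin K0,
          (VVm E R (LL X) (F j) (vl (t (i.succAbove j)) n) * VVm E R (LL X) (G j) (vl (t (i.succAbove j)) n)) -
        LL X * QM (K0 + 1) X W E * ∏ j, DD (F j) (G j)| ≤ ε * (LL X * QM (K0 + 1) X W E)

open Classical in
/-- QL-9: first moment -/
def S_ONE : Prop := ∀ {K0 B : ℕ} (f : Fin B → ℝ → ℝ) (c : Fin B → ℝ) (A : Finset (Fin (K0 + 1) → Fin B)),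
    (∀ l, ContDiff ℝ ∞ (f l)) → (∀ l, HasCompactSupport (f l)) → (∀ l x, c l < x → f l x = 0) →
    (∀ l, 0 ≤ c l ∧ c l ≤ 1 / 2) → (∀ a ∈ A, ∑ j, c (a j) ≤ 1) → (∀ l x, |f l x| ≤ 1) →
    ∀ ε : ℝ, 0 < ε → ∃ θ : ℝ, 0 < θ ∧ ∃ z : ℕ, ∀ D : ℝ, ∀ᶠ X : ℝ in atTop,
    ∀ (W : ℕ) (E : Finset ℕ) (a0 : ℕ) (t : Fin (K0 + 1) → ℕ), Cn D θ X z W E a0 t → ∀ i,
      (JJ f A i - ε) / 200 * QM (K0 + 1) X W E ≤ ∑ n ∈ Icc 1 ⌊3 * X⌋₊, nw X W a0 n *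
        (if (t i * n + 1).Prime then sqw E X f A (fun j => vl (t j) n) ^ 2 else 0)

open Classical in
/-- QL-10: pairs of primes -/
def S_PAIR : Prop := ∀ {K0 B : ℕ} (f : Fin B → ℝ → ℝ) (c : Fin B → ℝ) (A : Finset (Fin (K0 + 1) → Fin B)) (V ρ : ℝ),
    (∀ l, ContDiff ℝ ∞ (f l)) → (∀ l, HasCompactSupport (f l)) → (∀ l x, c l < x → f l x = 0) →
    (∀ l, 0 ≤ c l ∧ c l ≤ 1 / 2) → (∀ a ∈ A, ∑ j, c (a j) ≤ ρ) → (∀ l x, |f l x| ≤ 1) →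
    0 < V → 0 ≤ ρ → ρ ≤ 1 → V + ρ < 50 →
    ∀ ε : ℝ, 0 < ε → ∃ θ : ℝ, 0 < θ ∧ ∃ z : ℕ, ∀ D : ℝ, ∀ᶠ X : ℝ in atTop,
    ∀ (W : ℕ) (E : Finset ℕ) (a0 : ℕ) (t : Fin (K0 + 1) → ℕ), Cn D θ X z W E a0 t →
      ∀ (i : Fin (K0 + 1)) (j0 : Fin K0),
      ∑ n ∈ Icc 1 ⌊3 * X⌋₊, nw X W a0 n *
        (if (t i * n + 1).Prime ∧ (t (i.succAbove j0) * n + 1).Prime then
          sqw E X f A (fun j => vl (t j) n) ^ 2 else 0) ≤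
      (JJ2 f A i j0 / V + ε) / 200 * QM (K0 + 1) X W E

/-- QL-11: contribution of the `n` with a small prime factor -/
def S_NR : Prop := ∀ {K B : ℕ} (f : Fin B → ℝ → ℝ) (c : Fin B → ℝ) (A : Finset (Fin K → Fin B)),
    (∀ l, ContDiff ℝ ∞ (f l)) → (∀ l, HasCompactSupport (f l)) → (∀ l x, c l < x → f l x = 0) →
    (∀ l, 0 ≤ c l ∧ c l ≤ 1 / 2) → (∀ a ∈ A, ∑ j, c (a j) ≤ 1) → (∀ l x, |f l x| ≤ 1) → 0 ≤ II f A →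
    ∃ C : ℝ, 0 ≤ C ∧ ∃ z : ℕ, ∀ δ : ℝ, 0 < δ → δ ≤ 1 / 10 → ∀ᶠ X : ℝ in atTop,
      ∀ (D : ℝ) (W : ℕ) (E : Finset ℕ) (a0 : ℕ) (t : Fin K → ℕ), Cn D δ X z W E a0 t →
      ∑ n ∈ Icc 1 ⌊3 * X⌋₊, ∑ j : Fin K, ∑ p ∈ PS δ X,
        nw X W a0 n * (if (p : ℤ) ∣ vl (t j) n then sqw E X f A (fun j => vl (t j) n) ^ 2 else 0) ≤
        C * δ * QM K X W E

open Classical in
/-- QL-12: few `n` with all `t_j n + 1` free of small prime factors -/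
def S_RU : Prop := ∀ (J : ℕ) (δ : ℝ), 0 < δ → ∃ C : ℝ, 0 < C ∧ ∃ z : ℕ, ∀ᶠ X : ℝ in atTop,
    ∀ (W : ℕ) (E : Finset ℕ) (a0 : ℕ) (t : Fin J → ℕ), CS X z W E → DL E t →
      ∑ n ∈ Icc 1 ⌊3 * X⌋₊, nw X W a0 n * (if ∀ j, Rg δ X (t j * n + 1) then 1 else 0) ≤ C * QM J X W E

open Classical in
/-- QL-13: the coloured lower bound -/
def S_COL : Prop := ∀ m : ℕ, 1 ≤ m → ∃ (K' K0 : ℕ) (e : Fin (4 * m) × Fin K' ≃ Fin (K0 + 1)) (δ : ℝ),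
    1 ≤ K' ∧ 0 < δ ∧ δ ≤ 1 / 10 ∧ ∃ θ : ℝ, 0 < θ ∧ ∃ c0 : ℝ, 0 < c0 ∧ ∃ z : ℕ, ∀ D : ℝ, ∀ᶠ X : ℝ in atTop,
    ∀ (W : ℕ) (E : Finset ℕ) (a0 : ℕ) (t : Fin (K0 + 1) → ℕ), Cn D θ X z W E a0 t →
      c0 * QM (K0 + 1) X W E ≤ ∑ n ∈ Icc 1 ⌊3 * X⌋₊, nw X W a0 n *
        (if (m ≤ ((univ : Finset (Fin (4 * m))).filter (fun g => ∃ j, (t (e (g, j)) * n + 1).Prime)).card) ∧
          (∀ j, Rg δ X (t j * n + 1)) then 1 else 0)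

open Classical in
/-- the coloured lower bound for sets of multipliers -/
def LowM (m K' : ℕ) (δ c0 : ℝ) (N M y : ℕ) : Prop :=
  ∀ (b : ℕ) (R : Fin (4 * m) × Fin K' → ℕ), Function.Injective R → (∀ x, 1 ≤ R x) → (∀ x, R x ≤ M) →
    (∀ x, Nat.Coprime (Uni.WW y) (R x * b + 1)) →
    c0 * UM (4 * m * K') ((N : ℝ) / 4) y ≤ ∑ n ∈ Icc 1 ⌊3 * ((N : ℝ) / 4)⌋₊, nw ((N : ℝ) / 4) (Uni.WW y) b n *
      (if (m ≤ ((univ : Finset (Fin (4 * m))).filter (fun g => ∃ j, (R (g, j) * n + 1).Prime)).card) ∧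
        (∀ x, Rg δ ((N : ℝ) / 4) (R x * n + 1)) then 1 else 0)

open Classical in
/-- the upper bound for sets of multipliers -/
def UppM (J : ℕ) (δ C1 : ℝ) (N M y : ℕ) : Prop :=
  ∀ (b : ℕ) (R : Finset ℕ), R.card = J → (∀ a ∈ R, 1 ≤ a) → (∀ a ∈ R, a ≤ M) →
    ∑ n ∈ Icc 1 ⌊3 * ((N : ℝ) / 4)⌋₊, nw ((N : ℝ) / 4) (Uni.WW y) b n *
      (if ∀ a ∈ R, Rg δ ((N : ℝ) / 4) (a * n + 1) then 1 else 0) ≤ C1 * UM J ((N : ℝ) / 4) y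

/-- QL-14 -/
def S_LOW : Prop := ∀ m : ℕ, 1 ≤ m → ∃ K' : ℕ, 1 ≤ K' ∧ ∃ δ : ℝ, 0 < δ ∧ δ ≤ 1 / 10 ∧ ∃ c0 : ℝ, 0 < c0 ∧ ∀ C : ℝ,
    ∀ᶠ N : ℕ in atTop, LowM m K' δ c0 N ⌊Real.log N ^ C⌋₊ ⌊Real.log (Real.log N)⌋₊

/-- QL-14 -/
def S_UPP : Prop := ∀ (J : ℕ) (δ : ℝ), 0 < δ → ∃ C1 : ℝ, 0 < C1 ∧ ∀ C : ℝ,
    ∀ᶠ N : ℕ in atTop, UppM J δ C1 N ⌊Real.log N ^ C⌋₊ ⌊Real.log (Real.log N)⌋₊

open Classical in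
/-- the sets of multipliers with many prime values in the class `b` -/
def GoodM (κ : ℝ) (k N y b : ℕ) (T : Finset ℕ) : Prop :=
  κ * UM (k + 1) ((N : ℝ) / 4) y ≤ ∑ n ∈ Icc 1 ⌊3 * ((N : ℝ) / 4)⌋₊, nw ((N : ℝ) / 4) (Uni.WW y) b n *
    (if ∀ t ∈ T, (t * n + 1).Prime then 1 else 0)

open Classical in
/-- QL-15: second moment and combinatorics in one class -/
def S_SM : Prop := ∀ (k : ℕ) (ε lam : ℝ), 1 ≤ k → 0 < ε → 0 < lam → ∃ κ : ℝ, 0 < κ ∧ ∀ C : ℝ,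
    ∀ᶠ N : ℕ in atTop, ∀ (b : ℕ) (S : Finset ℕ), (∀ a ∈ S, 1 ≤ a) → (∀ a ∈ S, a ≤ ⌊Real.log N ^ C⌋₊) →
      (∀ a ∈ S, Nat.Coprime (Uni.WW ⌊Real.log (Real.log N)⌋₊) (a * b + 1)) →
      lam * rho ⌊Real.log (Real.log N)⌋₊ * Real.log N ≤ S.card →
      ((1 / 4 : ℝ) ^ k - ε) * (S.card.choose (k + 1)) ≤
        ((S.powersetCard (k + 1)).filter (fun T => GoodM κ k N ⌊Real.log (Real.log N)⌋₊ b T)).card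

/-- classes `b` mod `W` in which all `r b + 1`, `r ∈ T`, are coprime to `W` -/
def gD (W : ℕ) (T : Finset ℕ) : ℕ := ((range W).filter (fun b => ∀ r ∈ T, Nat.Coprime W (r * b + 1))).card

/-- QL-16: the singular product is asymptotic to its truncation, uniformly -/
def S_CTS : Prop := ∀ (k : ℕ) (ε C : ℝ), 0 < ε → ∀ᶠ N : ℕ in atTop, ∀ T : Finset ℕ, T.card = k + 1 →
    (∀ t ∈ T, 1 ≤ t) → (∀ t ∈ T, t ≤ ⌊Real.log N ^ C⌋₊) →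
    (1 - ε) * ((1 / rho ⌊Real.log (Real.log N)⌋₊) ^ (k + 1) *
      (gD (Uni.WW ⌊Real.log (Real.log N)⌋₊) T / Uni.WW ⌊Real.log (Real.log N)⌋₊)) ≤ Pool.Agent.W218.MU.SD T ∧
    Pool.Agent.W218.MU.SD T ≤ (1 + ε) * ((1 / rho ⌊Real.log (Real.log N)⌋₊) ^ (k + 1) *
      (gD (Uni.WW ⌊Real.log (Real.log N)⌋₊) T / Uni.WW ⌊Real.log (Real.log N)⌋₊))

/-- QL-16: the classes for one form -/
def S_MEAN : Prop := ∀ C : ℝ, ∀ᶠ N : ℕ in atTop, ∀ r : ℕ, 1 ≤ r → r ≤ ⌊Real.log N ^ C⌋₊ →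
    (2 / 3) * (rho ⌊Real.log (Real.log N)⌋₊ * ((r : ℝ) / Nat.totient r)) * Uni.WW ⌊Real.log (Real.log N)⌋₊ ≤
      (gD (Uni.WW ⌊Real.log (Real.log N)⌋₊) {r} : ℝ)

open Classical in
/-- the weighted count of the `n` with all `t n + 1` prime -/
noncomputable def STM (N : ℕ) (T : Finset ℕ) : ℝ :=
  ∑ n ∈ Icc 1 ⌊3 * ((N : ℝ) / 4)⌋₊, Ph (n / ((N : ℝ) / 4)) * (if ∀ t ∈ T, (t * n + 1).Prime then 1 else 0)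

open Classical in
/-- QL-17: sum over the classes -/
def S_FINN : Prop := ∀ (k : ℕ) (ε lam : ℝ), 1 ≤ k → 0 < ε → 0 < lam → ∃ κ : ℝ, 0 < κ ∧ ∀ C : ℝ,
    ∀ᶠ N : ℕ in atTop, ∀ A : Finset ℕ, (∀ a ∈ A, 1 ≤ a) → (∀ a ∈ A, (a : ℝ) ≤ Real.log N ^ C) →
      lam * Real.log N ≤ ∑ a ∈ A, (a : ℝ) / Nat.totient a →
      ((1 / 4 : ℝ) ^ k - ε) * ∑ T ∈ A.powersetCard (k + 1), Pool.Agent.W218.MU.SD T ≤
        ∑ T ∈ (A.powersetCard (k + 1)).filter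
          (fun T => κ * Pool.Agent.W218.MU.SD T * (N / Real.log N ^ (k + 1)) ≤ STM N T), Pool.Agent.W218.MU.SD T

open Classical in
/-- QL-18: the final theorem -/
def S_FIN : Prop := ∀ (k : ℕ) (ε lam : ℝ), 1 ≤ k → 0 < ε → 0 < lam → ∃ κ : ℝ, 0 < κ ∧ ∀ C : ℝ,
    ∃ x₀ : ℕ, ∀ x : ℕ, x₀ ≤ x → ∀ A : Finset ℕ, (∀ a ∈ A, 1 ≤ a ∧ (a : ℝ) ≤ Real.log x ^ C) →
      lam * Real.log x ≤ ∑ a ∈ A, (a : ℝ) / Nat.totient a →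
      ((1 / 4 : ℝ) ^ k - ε) * ∑ T ∈ A.powersetCard (k + 1), Pool.Agent.W218.MU.SD T ≤
        ∑ T ∈ (A.powersetCard (k + 1)).filter
          (fun T => κ * Pool.Agent.W218.MU.SD T * (x / Real.log x ^ (k + 1)) ≤ Pool.Agent.W218.MU.ND x T),
          Pool.Agent.W218.MU.SD T

end Pool.Agent.NH16.QL
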