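import Mathlib
import Pool.Agent.NH16.QL.Stm

/-!
Project QL, QL-7: the change of variables `m = s n + 1`, truncated divisor sums ignore excluded factors,
local densities.
-/

set_option autoImplicit false

open Finset Filter Topology
open scoped ContDiff

namespace Pool.Agent.NH16.QL

open Pool.Agent.H378R2 Pool.Agent.H387R2 Pool.Agent.H387R2.MB Pool.Agent.H362R2.QT

namespace CVm

theorem nw_zero (hw : S_WGT) (X : ℝ) (W a : ℕ) : nw X W a 0 = 0 := by
  unfold nw
  rw [Nat.cast_zero, zero_div, hw.low 0 le_rfl zero_le_one, ite_self]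

/-- shifting by one and passing from `Λ` to `log` on primes -/
theorem shift_bound (hw : S_WGT) (X : ℝ) (hX : 4 ≤ X) (W a0 : ℕ) (P : ℕ → ℝ) (M : ℝ)
    (hM : ∀ n, |P n| ≤ M) :
    |∑ n ∈ Icc 1 ⌊3 * X⌋₊, nw X W a0 n * th (n + 1) * P (n + 1) -
      ∑ n ∈ Icc 1 ⌊3 * X⌋₊, (if n ≡ a0 + 1 [MOD W] then
        Ph (n / X) * ArithmeticFunction.vonMangoldt n else 0) * P n| ≤
    M * (4 * Real.log (4 * X) + 4 * Real.sqrt X * Real.log (4 * X)) := by
  classical
  set N := ⌊3 * X⌋₊ with hN
  have hM0 : 0 ≤ M := (abs_nonneg _).trans (hM 0)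
  have hNle : (N : ℝ) ≤ 3 * X := Nat.floor_le (by linarith)
  have e1 : ∑ n ∈ Icc 1 N, nw X W a0 n * th (n + 1) * P (n + 1) =
      ∑ n ∈ Icc 1 (N + 1), nw X W a0 (n - 1) * th n * P n := by
    have h1 : ∑ n ∈ Icc 1 (N + 1), nw X W a0 (n - 1) * th n * P n =
        ∑ n ∈ Icc (1 + 1) (N + 1), nw X W a0 (n - 1) * th n * P n := by
      symm
      apply Finset.sum_subset
      · intro n hn
        rw [Finset.mem_Icc] at hn ⊢
        omega
      · intro n hn hn'
        rw [Finset.mem_Icc] at hn hn'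
        have h2 : n - 1 = 0 := by omega
        rw [h2, nw_zero hw, zero_mul, zero_mul]
    rw [h1, ← Finset.image_add_right_Icc, Finset.sum_image (fun a _ b _ h => Nat.add_right_cancel h)]
    refine Finset.sum_congr rfl fun n _ => ?_
    rw [Nat.add_sub_cancel]
  have e2 : ∑ n ∈ Icc 1 N, (if n ≡ a0 + 1 [MOD W] then
        Ph (n / X) * ArithmeticFunction.vonMangoldt n else 0) * P n =
      ∑ n ∈ Icc 1 (N + 1), (if n ≡ a0 + 1 [MOD W] then
        Ph (n / X) * ArithmeticFunction.vonMangoldt n else 0) * P n := by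
    apply Finset.sum_subset
    · intro n hn
      rw [Finset.mem_Icc] at hn ⊢
      omega
    · intro n hn hn'
      rw [Finset.mem_Icc] at hn hn'
      have h2 : N < n := by omega
      have h3 : 3 * X < n := Nat.lt_of_floor_lt h2
      have h4 : Ph (n / X) = 0 := by
        apply hw.high
        rw [le_div_iff₀ (by linarith)]
        have h5 := exp_one_lt_three'
        have h6 : Real.exp (1 / 2) ≤ Real.exp 1 := Real.exp_le_exp.2 (by norm_num)
        nlinarith
      rw [h4, zero_mul, ite_self, zero_mul]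
  rw [e1, e2, ← Finset.sum_sub_distrib]
  refine (Finset.abs_sum_le_sum_abs _ _).trans ?_
  have hlog4 : 0 ≤ Real.log (4 * X) := Real.log_nonneg (by linarith)
  have key : ∀ n ∈ Icc 1 (N + 1), |nw X W a0 (n - 1) * th n * P n -
      (if n ≡ a0 + 1 [MOD W] then Ph (n / X) * ArithmeticFunction.vonMangoldt n else 0) * P n| ≤
      M * ((1 / X) * Real.log (4 * X) + (if ¬ n.Prime then ArithmeticFunction.vonMangoldt n else 0)) := by
    intro n hn
    rw [Finset.mem_Icc] at hn
    rw [← sub_mul, abs_mul, mul_comm]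
    apply mul_le_mul (hM n) _ (abs_nonneg _) hM0
    have hrhs : 0 ≤ (1 / X) * Real.log (4 * X) := by positivity
    have hvnn : 0 ≤ (if ¬ n.Prime then ArithmeticFunction.vonMangoldt n else 0) := by
      split_ifs
      · exact le_rfl
      · exact ArithmeticFunction.vonMangoldt_nonneg
    have hnt : 1 ≤ n := hn.1
    have hiff : (n - 1 ≡ a0 [MOD W]) ↔ (n ≡ a0 + 1 [MOD W]) := by
      constructor
      · intro h
        have := Nat.ModEq.add_right 1 h
        rwa [Nat.sub_add_cancel hnt] at this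
      · intro h
        apply Nat.ModEq.add_right_cancel' 1
        rwa [Nat.sub_add_cancel hnt]
    unfold nw
    by_cases hcl : n ≡ a0 + 1 [MOD W]
    · rw [if_pos (hiff.2 hcl), if_pos hcl]
      by_cases hp : n.Prime
      · have e3 : th n = Real.log n := by unfold th; rw [if_pos hp]
        rw [e3, ArithmeticFunction.vonMangoldt_apply_prime hp, ← sub_mul, abs_mul, if_neg (not_not.2 hp), add_zero]
        have h5 : |Ph (((n - 1 : ℕ) : ℝ) / X) - Ph (n / X)| ≤ 1 / X := by
          refine (hw.lip _ _ (by positivity) (by positivity)).trans ?_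
          rw [← sub_div, abs_div, abs_of_pos (by linarith : (0 : ℝ) < X)]
          apply div_le_div_of_nonneg_right _ (by linarith)
          rw [Nat.cast_sub hnt]
          rw [show (n : ℝ) - (1 : ℕ) - n = -1 by push_cast; ring, abs_neg, abs_one]
        have h6 : |Real.log (n : ℝ)| ≤ Real.log (4 * X) := by
          rw [abs_of_nonneg (Real.log_natCast_nonneg n)]
          apply Real.log_le_log (by exact_mod_cast hp.pos)
          have : (n : ℝ) ≤ ((N + 1 : ℕ) : ℝ) := by exact_mod_cast hn.2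
          push_cast at this
          linarith
        exact mul_le_mul h5 h6 (abs_nonneg _) (by positivity)
      · have e3 : th n = 0 := by unfold th; rw [if_neg hp]
        rw [e3, mul_zero, zero_sub, abs_neg, if_pos hp, abs_mul,
          abs_of_nonneg ArithmeticFunction.vonMangoldt_nonneg]
        have h5 : |Ph (n / X)| ≤ 1 := by
          rw [abs_of_nonneg (hw.nn _)]
          have := hw.half (n / X)
          linarith
        have h6 : 0 ≤ ArithmeticFunction.vonMangoldt n := ArithmeticFunction.vonMangoldt_nonneg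
        nlinarith
    · rw [if_neg (fun h => hcl (hiff.1 h)), if_neg hcl, zero_mul, sub_zero, abs_zero]
      linarith
  refine (Finset.sum_le_sum key).trans ?_
  rw [← Finset.mul_sum, Finset.sum_add_distrib]
  apply mul_le_mul_of_nonneg_left _ hM0
  apply add_le_add
  · rw [Finset.sum_const, Nat.card_Icc, Nat.add_sub_cancel, nsmul_eq_mul]
    push_cast
    have h7 : (N : ℝ) + 1 ≤ 4 * X := by linarith
    calc ((N : ℝ) + 1) * (1 / X * Real.log (4 * X)) ≤ (4 * X) * (1 / X * Real.log (4 * X)) := by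
          apply mul_le_mul_of_nonneg_right h7 (by positivity)
      _ = 4 * Real.log (4 * X) := by
          field_simp
  · rw [← Finset.sum_filter]
    have h8 := sum_nonprime_le (4 * X) (by linarith)
    have h9 : Real.sqrt (4 * X) = 2 * Real.sqrt X := by
      rw [Real.sqrt_mul (by norm_num), show (4 : ℝ) = 2 ^ 2 by norm_num, Real.sqrt_sq (by norm_num)]
    rw [h9] at h8
    refine le_trans ?_ (h8.trans (le_of_eq (by ring)))
    apply Finset.sum_le_sum_of_subset_of_nonneg
    · intro n hn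
      rw [Finset.mem_filter, Finset.mem_Icc] at hn ⊢
      refine ⟨⟨hn.1.1, Nat.le_floor ?_⟩, hn.2⟩
      have : (n : ℝ) ≤ ((N + 1 : ℕ) : ℝ) := by exact_mod_cast hn.1.2
      push_cast at this
      linarith
    · intro n _ _
      exact ArithmeticFunction.vonMangoldt_nonneg

/-- the reindexing `m = s n` -/
theorem reindex (X : ℝ) (hX : 4 ≤ X) (s W a0 : ℕ) (hs : 1 ≤ s) (G : ℕ → ℝ) :
    ∑ n ∈ Icc 1 ⌊3 * X⌋₊, nw X W a0 n * G (s * n) =
      ∑ m ∈ Icc 1 ⌊3 * ((s : ℝ) * X)⌋₊, nw ((s : ℝ) * X) (s * W) (s * a0) m * G m := by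
  classical
  have hs0 : (0 : ℝ) < (s : ℝ) := by exact_mod_cast hs
  have hX0 : 0 ≤ X := by linarith
  have e1 : ∀ n, nw X W a0 n = nw ((s : ℝ) * X) (s * W) (s * a0) (s * n) := by
    intro n
    unfold nw
    have h1 : (s * n ≡ s * a0 [MOD s * W]) ↔ (n ≡ a0 [MOD W]) :=
      ⟨fun h => Nat.ModEq.mul_left_cancel' (by omega) h, fun h => Nat.ModEq.mul_left' s h⟩
    have h2 : ((s * n : ℕ) : ℝ) / ((s : ℝ) * X) = n / X := by
      push_cast
      exact mul_div_mul_left _ _ hs0.ne'
    rw [h2]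
    by_cases h : n ≡ a0 [MOD W]
    · rw [if_pos h, if_pos (h1.2 h)]
    · rw [if_neg h, if_neg (fun h' => h (h1.1 h'))]
  have e2 : ∑ n ∈ Icc 1 ⌊3 * X⌋₊, nw X W a0 n * G (s * n) =
      ∑ m ∈ (Icc 1 ⌊3 * X⌋₊).image (fun n => s * n),
        nw ((s : ℝ) * X) (s * W) (s * a0) m * G m := by
    rw [Finset.sum_image (fun a _ b _ h => Nat.eq_of_mul_eq_mul_left (by omega) h)]
    exact Finset.sum_congr rfl fun n _ => by rw [e1 n]
  rw [e2]
  apply Finset.sum_subset
  · intro m hm
    rw [mem_image] at hm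
    obtain ⟨n, hn, rfl⟩ := hm
    rw [mem_Icc] at hn ⊢
    refine ⟨Nat.mul_pos hs hn.1, Nat.le_floor ?_⟩
    have h3 : (n : ℝ) ≤ 3 * X := (Nat.le_floor_iff (by linarith)).1 hn.2
    push_cast
    nlinarith
  · intro m hm hm'
    rw [mem_Icc] at hm
    have h4 : ¬ (m ≡ s * a0 [MOD s * W]) := by
      intro h
      apply hm'
      have hd : s ∣ m := (Nat.ModEq.dvd_iff h (Dvd.intro W rfl)).2 (Dvd.intro a0 rfl)
      obtain ⟨n, rfl⟩ := hd
      rw [mem_image]
      refine ⟨n, ?_, rfl⟩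
      rw [mem_Icc]
      refine ⟨Nat.pos_of_ne_zero (fun h0 => by subst h0; simp at hm), Nat.le_floor ?_⟩
      have h5 : (((s * n : ℕ)) : ℝ) ≤ 3 * ((s : ℝ) * X) :=
        (Nat.le_floor_iff (by positivity)).1 hm.2
      push_cast at h5
      have h6 : (s : ℝ) * n ≤ s * (3 * X) := by linarith
      exact le_of_mul_le_mul_left h6 hs0
    unfold nw
    rw [if_neg h4, zero_mul]

end CVm

/-- (QL-7) the change of variables -/
theorem t_CV (hw : S_WGT) : S_CV := by
  intro X hX s W a0 hs hW P M hM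
  have hs1 : (1 : ℝ) ≤ (s : ℝ) := by exact_mod_cast hs
  have hX' : 4 ≤ (s : ℝ) * X := by nlinarith
  have h1 := CVm.shift_bound hw ((s : ℝ) * X) hX' (s * W) (s * a0) P M hM
  have h2 := CVm.reindex X hX s W a0 hs (fun m => th (m + 1) * P (m + 1))
  have h3 : ∑ n ∈ Icc 1 ⌊3 * X⌋₊, nw X W a0 n * th (s * n + 1) * P (s * n + 1) =
      ∑ n ∈ Icc 1 ⌊3 * ((s : ℝ) * X)⌋₊, nw ((s : ℝ) * X) (s * W) (s * a0) n * th (n + 1) * P (n + 1) := by
    simp only [mul_assoc] at h2 ⊢
    exact h2
  rw [h3]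
  exact h1

/-- (QL-7) truncated divisor sums ignore factors composed of excluded primes -/
theorem t_VM : S_VM := by
  intro E R L F c hc hcE x
  unfold VVm
  refine Finset.sum_congr rfl fun d hd => ?_
  rw [adm, mem_filter] at hd
  have hcop : d.Coprime c := by
    refine Nat.Coprime.symm (Nat.Coprime.symm (Nat.coprime_of_dvd ?_))
    intro p hp hpd hpc
    have hpE : p ∉ E := fun h => hd.2.2 p h hp hpd
    exact hcE p hp hpE hpc
  have hic : IsCoprime (d : ℤ) (c : ℤ) := Nat.isCoprime_iff_coprime.2 hcop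
  have hiff : ((d : ℤ) ∣ (c : ℤ) * x) ↔ ((d : ℤ) ∣ x) :=
    ⟨fun h => hic.dvd_of_dvd_mul_left h, fun h => Dvd.dvd.mul_left h _⟩
  by_cases h : (d : ℤ) ∣ x
  · rw [if_pos h, if_pos (hiff.2 h)]
  · rw [if_neg h, if_neg (fun h' => h (hiff.1 h'))]

/-- (QL-7) local densities -/
theorem t_TT : S_TT := by
  classical
  intro E W θ hE hW hWE hθ s hs hsE
  set n := s * W with hn
  have hn0 : 0 < n := Nat.mul_pos hs hW
  have hsub : n.primeFactors ⊆ E := by
    intro p hp
    by_contra hpE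
    have hpp := Nat.prime_of_mem_primeFactors hp
    have hpd := Nat.dvd_of_mem_primeFactors hp
    rcases (hpp.dvd_mul).1 hpd with h | h
    · exact hsE p hpp hpE h
    · exact hWE p hpp hpE h
  have h1 : (n.totient : ℝ) = (n : ℝ) * ∏ p ∈ n.primeFactors, (1 - 1 / (p : ℝ)) := by
    have h := Nat.totient_eq_mul_prod_factors n
    have h' : ((n.totient : ℚ) : ℝ) = (((n : ℚ) * ∏ p ∈ n.primeFactors, (1 - (p : ℚ)⁻¹) : ℚ) : ℝ) := by
      rw [h]
    push_cast at h'
    rw [h']
    simp only [one_div]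
  have h2 : BE E = (∏ p ∈ n.primeFactors, (1 - 1 / (p : ℝ))) * ∏ p ∈ E \ n.primeFactors, (1 - 1 / (p : ℝ)) := by
    unfold BE
    rw [mul_comm, Finset.prod_sdiff hsub]
  have hle1 : ∀ p ∈ E \ n.primeFactors, 1 / (p : ℝ) ≤ 1 := by
    intro p hp
    have hpp := hE p (Finset.mem_sdiff.1 hp).1
    have : (1 : ℝ) ≤ p := by exact_mod_cast hpp.one_lt.le
    rw [div_le_one (by linarith)]; exact this
  have h3 : ∏ p ∈ E \ n.primeFactors, (1 - 1 / (p : ℝ)) ≤ 1 := by
    apply Finset.prod_le_one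
    · intro p hp
      have := hle1 p hp
      linarith
    · intro p hp
      have : (0 : ℝ) ≤ 1 / (p : ℝ) := by positivity
      linarith
  have h4 : 1 - θ ≤ ∏ p ∈ E \ n.primeFactors, (1 - 1 / (p : ℝ)) := by
    refine le_trans ?_ (one_sub_sum_le _ (fun p : ℕ => 1 / (p:ℝ)) (fun p _ => by positivity) hle1)
    have h5 : ∑ p ∈ E \ n.primeFactors, (1 : ℝ) / p ≤ ∑ p ∈ E.filter (fun p => ¬ p ∣ W), (1 : ℝ) / p := by
      apply Finset.sum_le_sum_of_subset_of_nonneg
      · intro p hp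
        rw [Finset.mem_sdiff] at hp
        rw [mem_filter]
        refine ⟨hp.1, fun hpW => hp.2 ?_⟩
        rw [Nat.mem_primeFactors]
        exact ⟨hE p hp.1, Dvd.dvd.mul_left hpW s, hn0.ne'⟩
      · intro p _ _
        positivity
    linarith
  have hφ : (0 : ℝ) ≤ (n.totient : ℝ) := Nat.cast_nonneg _
  have h6 : (n : ℝ) * BE E = (n.totient : ℝ) * ∏ p ∈ E \ n.primeFactors, (1 - 1 / (p : ℝ)) := by
    rw [h2, h1]; ring
  rw [h6]
  constructor
  · calc (n.totient : ℝ) * ∏ p ∈ E \ n.primeFactors, (1 - 1 / (p : ℝ)) ≤ (n.totient : ℝ) * 1 :=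
        mul_le_mul_of_nonneg_left h3 hφ
      _ = _ := mul_one _
  · rw [mul_comm]
    exact mul_le_mul_of_nonneg_left h4 hφ

end Pool.Agent.NH16.QL
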