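import Pool.Agent.NH16.QL.Stm

set_option autoImplicit false

open Finset Filter Topology
open scoped ContDiff

namespace Pool.Agent.NH16.QL

open Pool.Agent.H378R2 Pool.Agent.H387R2 Pool.Agent.H387R2.MB Pool.Agent.H362R2.QT

namespace FIN

open Classical in
lemma stm_le (hW : S_WGT) (x : ℕ) (hx : 1 ≤ x) (T : Finset ℕ) :
    STM (4 * x) T ≤ (Pool.Agent.W218.MU.ND x T : ℝ) := by
  have hx0 : (0 : ℝ) < x := by exact_mod_cast hx
  have h4 : ((4 * x : ℕ) : ℝ) / 4 = x := by push_cast; ring
  unfold STM Pool.Agent.W218.MU.ND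
  rw [h4, card_eq_sum_ones, Nat.cast_sum]
  have h1 : ∀ n ∈ Icc 1 ⌊3 * (x : ℝ)⌋₊, Ph (n / (x : ℝ)) * (if ∀ t ∈ T, (t * n + 1).Prime then (1 : ℝ) else 0) ≤
      if n ∈ (Ico x (2 * x)).filter (fun q => ∀ r ∈ T, (q * r + 1).Prime) then (1 : ℝ) else 0 := by
    intro n _
    by_cases hp : ∀ t ∈ T, (t * n + 1).Prime
    · by_cases hn : n ∈ Ico x (2 * x)
      · rw [if_pos hp, if_pos (mem_filter.2 ⟨hn, fun r hr => by rw [mul_comm]; exact hp r hr⟩), mul_one]
        have := hW.half ((n : ℝ) / x)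
        linarith
      · have h0 : Ph (n / (x : ℝ)) = 0 := by
          rw [mem_Ico, not_and_or, not_le, not_lt] at hn
          rcases hn with hn | hn
          · apply hW.low _ (by positivity)
            rw [div_le_one hx0]
            exact_mod_cast hn.le
          · apply hW.high
            have h2 : Real.exp (1 / 2) ≤ 2 := by
              have h3 : Real.exp (1 / 2) ^ 2 = Real.exp 1 := by
                rw [← Real.exp_nat_mul]
                norm_num
              have h5 := Real.exp_one_lt_d9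
              have h6 := Real.exp_pos (1 / 2 : ℝ)
              nlinarith
            refine h2.trans ?_
            rw [le_div_iff₀ hx0]
            exact_mod_cast hn
        rw [h0, zero_mul]
        split_ifs <;> norm_num
    · rw [if_neg hp, mul_zero]
      split_ifs <;> norm_num
  refine (sum_le_sum h1).trans ?_
  rw [← sum_filter]
  have h2 : (Icc 1 ⌊3 * (x : ℝ)⌋₊).filter
      (fun n => n ∈ (Ico x (2 * x)).filter (fun q => ∀ r ∈ T, (q * r + 1).Prime)) ⊆
      (Ico x (2 * x)).filter (fun q => ∀ r ∈ T, (q * r + 1).Prime) := by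
    intro n hn
    exact (mem_filter.1 hn).2
  have h3 := sum_le_sum_of_subset_of_nonneg (f := fun _ : ℕ => (1 : ℝ)) h2 (fun _ _ _ => zero_le_one)
  simpa using h3

end FIN

open Classical in
theorem t_FIN (hW : S_WGT) (h : S_FINN) : S_FIN := by
  intro k ε lam hk hε hlam
  obtain ⟨κ', hκ', h1⟩ := h k ε (lam / 2) hk hε (by positivity)
  refine ⟨κ' / 2 ^ (k + 1), by positivity, fun C => ?_⟩
  obtain ⟨N0, hN0⟩ := eventually_atTop.1 (h1 (max C 0))
  refine ⟨max N0 4, fun x hx A hA hlog => ?_⟩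
  have hx0 : N0 ≤ x := (le_max_left _ _).trans hx
  have hx4 : 4 ≤ x := (le_max_right _ _).trans hx
  have hxr : (4 : ℝ) ≤ x := by exact_mod_cast hx4
  have hl4 : Real.log 4 ≤ Real.log x := Real.log_le_log (by norm_num) hxr
  have hl40 : 0 ≤ Real.log 4 := Real.log_nonneg (by norm_num)
  have hl1 : 1 ≤ Real.log x := by
    rw [Real.le_log_iff_exp_le (by linarith)]
    have := Real.exp_one_lt_d9
    linarith
  have hlx : Real.log ((4 * x : ℕ) : ℝ) = Real.log 4 + Real.log x := by
    push_cast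
    rw [Real.log_mul (by norm_num) (by linarith)]
  have hlx2 : Real.log ((4 * x : ℕ) : ℝ) ≤ 2 * Real.log x := by linarith
  have hlx1 : Real.log x ≤ Real.log ((4 * x : ℕ) : ℝ) := by linarith
  have key := hN0 (4 * x) (by omega) A (fun a ha => (hA a ha).1) (fun a ha => by
      refine (hA a ha).2.trans ?_
      calc Real.log x ^ C ≤ Real.log x ^ (max C 0) :=
            Real.rpow_le_rpow_of_exponent_le hl1 (le_max_left _ _)
        _ ≤ Real.log ((4 * x : ℕ) : ℝ) ^ (max C 0) :=
            Real.rpow_le_rpow (by linarith) hlx1 (le_max_right _ _))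
    (by
      refine le_trans ?_ hlog
      have : lam / 2 * Real.log ((4 * x : ℕ) : ℝ) ≤ lam / 2 * (2 * Real.log x) :=
        mul_le_mul_of_nonneg_left hlx2 (by positivity)
      linarith)
  refine key.trans ?_
  have hSD : ∀ T ∈ A.powersetCard (k + 1), 0 ≤ Pool.Agent.W218.MU.SD T := by
    intro T hT
    rw [← Pool.Agent.W218.MU.SL_map]
    apply Pool.Agent.W218.MU.SL_nonneg
    apply Pool.Agent.W218.MU.prim_map
    intro r hr
    exact (hA r ((mem_powersetCard.1 hT).1 hr)).1
  apply sum_le_sum_of_subset_of_nonneg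
  · intro T hT
    rw [mem_filter] at hT ⊢
    refine ⟨hT.1, ?_⟩
    have h2 := FIN.stm_le hW x (by omega) T
    refine le_trans ?_ (hT.2.trans h2)
    have h3 := hSD T hT.1
    have hlxpos : 0 < Real.log ((4 * x : ℕ) : ℝ) := by linarith
    have h4 : (1 / 2 ^ (k + 1) : ℝ) * ((x : ℝ) / Real.log x ^ (k + 1)) ≤
        ((4 * x : ℕ) : ℝ) / Real.log ((4 * x : ℕ) : ℝ) ^ (k + 1) := by
      rw [div_mul_div_comm, one_mul, ← mul_pow]
      apply div_le_div₀
      · positivity
      · push_cast
        linarith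
      · positivity
      · exact pow_le_pow_left₀ hlxpos.le hlx2 _
    calc κ' / 2 ^ (k + 1) * Pool.Agent.W218.MU.SD T * ((x : ℝ) / Real.log x ^ (k + 1))
        = κ' * Pool.Agent.W218.MU.SD T * ((1 / 2 ^ (k + 1) : ℝ) * ((x : ℝ) / Real.log x ^ (k + 1))) := by
          ring
      _ ≤ κ' * Pool.Agent.W218.MU.SD T *
          (((4 * x : ℕ) : ℝ) / Real.log ((4 * x : ℕ) : ℝ) ^ (k + 1)) :=
          mul_le_mul_of_nonneg_left h4 (by positivity)
  · intro T hT _
    exact hSD T (mem_filter.1 hT).1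

end Pool.Agent.NH16.QL
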