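import Pool.Agent.NH16.QL.Stm
import Pool.Agent.H362R2.QT.FIN

/-!
QL-17 (project of helper16): the sum over the classes. Port of `Pool/Agent/H362R2/QT/FIN.lean` by
helper89.
-/

set_option autoImplicit false

open Finset Filter Topology

namespace Pool.Agent.NH16.QL

open Pool.Agent.H378R2 Pool.Agent.H387R2 Pool.Agent.H387R2.MB Pool.Agent.H362R2.QT

namespace FinnM

/-- the multipliers in the class `b` -/
def Am (W : ℕ) (A : Finset ℕ) (b : ℕ) : Finset ℕ := A.filter (fun a => Nat.Coprime W (a * b + 1))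

open Classical in
/-- the classes in which the tuple `T` is good -/
noncomputable def nM (κ : ℝ) (k N y : ℕ) (T : Finset ℕ) : ℕ :=
  ((range (Uni.WW y)).filter
    (fun b => (∀ t ∈ T, Nat.Coprime (Uni.WW y) (t * b + 1)) ∧ GoodM κ k N y b T)).card

lemma nM_le (κ : ℝ) (k N y : ℕ) (T : Finset ℕ) : nM κ k N y T ≤ gD (Uni.WW y) T := by
  classical
  unfold nM gD
  apply card_le_card
  intro b hb
  rw [mem_filter] at hb ⊢
  exact ⟨hb.1, hb.2.1⟩

open Classical in
lemma sum_nM (κ : ℝ) (k N y : ℕ) (A : Finset ℕ) :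
    ∑ b ∈ range (Uni.WW y),
      (((Am (Uni.WW y) A b).powersetCard (k + 1)).filter (fun T => GoodM κ k N y b T)).card =
      ∑ T ∈ A.powersetCard (k + 1), nM κ k N y T := by
  have h1 : ∀ b ∈ range (Uni.WW y),
      (((Am (Uni.WW y) A b).powersetCard (k + 1)).filter (fun T => GoodM κ k N y b T)).card =
      ∑ T ∈ A.powersetCard (k + 1),
        if (∀ t ∈ T, Nat.Coprime (Uni.WW y) (t * b + 1)) ∧ GoodM κ k N y b T then 1 else 0 := by
    intro b _
    rw [← card_filter]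
    congr 1
    ext T
    unfold Am
    simp only [mem_filter, mem_powersetCard, subset_iff]
    constructor
    · rintro ⟨⟨h1, h2⟩, h3⟩
      exact ⟨⟨fun a ha => (h1 ha).1, h2⟩, fun a ha => (h1 ha).2, h3⟩
    · rintro ⟨⟨h1, h2⟩, h3, h4⟩
      exact ⟨⟨fun a ha => ⟨h1 ha, h3 a ha⟩, h2⟩, h4⟩
  rw [sum_congr rfl h1, sum_comm]
  apply sum_congr rfl
  intro T _
  unfold nM
  rw [card_filter]

lemma nw_nonneg (hW : S_WGT) (X : ℝ) (W a n : ℕ) : 0 ≤ nw X W a n := by
  unfold nw
  split_ifs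
  · exact hW.nn _
  · exact le_rfl

lemma STM_ge (hW : S_WGT) (κ : ℝ) (k N y : ℕ) (T : Finset ℕ) :
    (nM κ k N y T : ℝ) * (κ * UM (k + 1) ((N : ℝ) / 4) y) ≤ STM N T := by
  classical
  have h1 : ∑ b ∈ range (Uni.WW y), ∑ n ∈ Icc 1 ⌊3 * ((N : ℝ) / 4)⌋₊,
      nw ((N : ℝ) / 4) (Uni.WW y) b n * (if ∀ t ∈ T, (t * n + 1).Prime then 1 else 0) =
      STM N T := by
    unfold STM
    rw [sum_comm]
    apply sum_congr rfl
    intro n _
    rw [← sum_mul]
    have h2 : ∑ b ∈ range (Uni.WW y), nw ((N:ℝ) / 4) (Uni.WW y) b n =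
      nw ((N:ℝ) / 4) (Uni.WW y) (n % Uni.WW y) n := by
      apply sum_eq_single
      · intro b hb hne
        unfold nw
        rw [if_neg]
        intro h
        apply hne
        rw [Nat.ModEq, Nat.mod_eq_of_lt (mem_range.1 hb)] at h
        exact h.symm
      · intro h
        exact absurd (mem_range.2 (Nat.mod_lt _ (Uni.WW_pos y))) h
    rw [h2]
    unfold nw
    rw [if_pos (Nat.mod_modEq n _).symm]
  rw [← h1]
  unfold nM
  rw [← nsmul_eq_mul]
  refine le_trans ?_ (sum_le_sum_of_subset_of_nonneg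
    (filter_subset (fun b => (∀ t ∈ T, Nat.Coprime (Uni.WW y) (t * b + 1)) ∧ GoodM κ k N y b T) _)
    (fun b _ _ => sum_nonneg fun n _ => mul_nonneg (nw_nonneg hW _ _ _ _)
      (by split_ifs <;> norm_num)))
  apply card_nsmul_le_sum
  intro b hb
  rw [mem_filter] at hb
  have := hb.2.2
  unfold GoodM at this
  refine this.trans (le_of_eq (sum_congr rfl fun n _ => ?_))
  congr

/-- the sum over one form -/
lemma sum_card_Am (W : ℕ) (A : Finset ℕ) :
    ∑ b ∈ range W, (Am W A b).card = ∑ a ∈ A, gD W {a} := by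
  unfold Am gD
  simp only [card_filter]
  rw [sum_comm]
  refine sum_congr rfl fun a _ => sum_congr rfl fun b _ => ?_
  simp

end FinnM

open FinnM in
theorem t_FINN (hW : S_WGT) (hSM : S_SM) (hCTS : S_CTS) (hM : S_MEAN) : S_FINN := by
  classical
  intro k ε lam hk hε hlam
  set e1 : ℝ := min ε ((1 / 4 : ℝ) ^ k) with he1
  have he10 : 0 < e1 := lt_min hε (by positivity)
  have he1ε : e1 ≤ ε := min_le_left _ _
  have he14 : e1 ≤ (1 / 4 : ℝ) ^ k := min_le_right _ _
  have h41 : (1 / 4 : ℝ) ^ k ≤ 1 := pow_le_one₀ (by norm_num) (by norm_num)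
  set η : ℝ := e1 / 16 with hη
  have hη0 : 0 < η := by positivity
  set lam2 : ℝ := η * (2 / 3 * lam) with hlam2
  have hlam20 : 0 < lam2 := by positivity
  obtain ⟨κ1, hκ1, hsm⟩ := hSM k (e1 / 4) lam2 hk (by positivity) hlam20
  refine ⟨e1 / 8 * κ1 / 2, by positivity, fun C => ?_⟩
  have tN : Tendsto (fun N : ℕ => (N : ℝ)) atTop atTop := tendsto_natCast_atTop_atTop
  have tL : Tendsto (fun N : ℕ => Real.log (N : ℝ)) atTop atTop := Real.tendsto_log_atTop.comp tN
  have tX : Tendsto (fun N : ℕ => (N : ℝ) / 4) atTop atTop := tN.atTop_div_const (by norm_num)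
  filter_upwards [hsm C, hCTS k (e1 / 8) C (by positivity), hM C,
    (LL_tendsto.comp tX).eventually_ge_atTop 1, tL.eventually_ge_atTop 1,
    tX.eventually_ge_atTop (40 + (k + 1)), r0_ev (2 / 3 * lam) (2 * k) (by positivity),
    tX.eventually hW.mge]
    with N h1 h2 h3 h6 hL1' h7 h8 hMl'
  intro A hA1 hAM' hcard
  have hAM : ∀ a ∈ A, a ≤ ⌊Real.log N ^ C⌋₊ := fun a ha => Nat.le_floor (hAM' a ha)
  set M := ⌊Real.log N ^ C⌋₊ with hM
  set X := (N:ℝ) / 4 with hX
  set y := ⌊Real.log (Real.log (N:ℝ))⌋₊ with hy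
  set W := Uni.WW y with hW'
  set L := Real.log (N:ℝ) with hL
  have hL1 : 1 ≤ L := hL1'
  have hL0 : 0 < L := by linarith
  have hLL1 : 1 ≤ LL X := h6
  have hLL0 : 0 < LL X := by linarith
  have hρ := rho_pos y
  have hρ1 := rho_le_one y
  have hWpos : 0 < W := Uni.WW_pos y
  have hW0 : (0:ℝ) < W := by exact_mod_cast hWpos
  have hk0 : (0:ℝ) ≤ k := Nat.cast_nonneg k
  have hX40 : 40 ≤ X := by linarith
  have hX0 : 0 < X := by linarith
  have hNX : (N:ℝ) = 4 * X := by rw [hX]; ring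
  have hLLL2 : 200 * LL X ≤ L := by
    unfold LL
    rw [show 200 * (Real.log X / 200) = Real.log X by ring, hL]
    apply Real.log_le_log hX0
    linarith
  set V : ℝ := N / L ^ (k + 1) with hV
  have hV0 : 0 ≤ V := by positivity
  have hMl : X / 50 ≤ MP X := hMl'
  have hMP0 : 0 ≤ MP X := hW.mnn X
  have hUe : ∀ g : ℝ, g * UM (k + 1) X y =
      ((1 / rho y) ^ (k + 1) * (g / W)) * (MP X / LL X ^ (k + 1)) := by
    intro g
    unfold UM
    rw [← hW', mul_pow, one_div_pow]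
    field_simp
  have hr1 : V ≤ MP X / LL X ^ (k + 1) := by
    have h9 : (200:ℝ) ^ (k + 1) / 200 * V ≤ MP X / LL X ^ (k + 1) := by
      rw [hV, hNX]
      have : (200:ℝ) ^ (k + 1) / 200 * (4 * X / L ^ (k + 1)) = (X / 50) / (L / 200) ^ (k + 1) := by
        rw [div_pow]; field_simp; ring
      rw [this]
      apply div_le_div₀ hMP0 hMl (by positivity)
      apply pow_le_pow_left₀ hLL0.le
      linarith
    refine le_trans ?_ h9
    have h10 : (1:ℝ) ≤ 200 ^ (k + 1) / 200 := by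
      rw [le_div_iff₀ (by norm_num)]
      calc (1:ℝ) * 200 ≤ 200 ^ 1 := by norm_num
        _ ≤ 200 ^ (k + 1) := pow_le_pow_right₀ (by norm_num) (by omega)
    exact le_mul_of_one_le_left hV0 h10
  -- the mean over the classes
  set μ : ℝ := 2 / 3 * lam * rho y * L with hμ
  have hμ0 : 0 ≤ μ := by positivity
  have s2 : μ * ((range W).card : ℝ) ≤ ∑ b ∈ range W, ((Am W A b).card : ℝ) := by
    have g2 : ∑ b ∈ range W, ((Am W A b).card : ℝ) = ∑ a ∈ A, (gD W {a} : ℝ) := by
      exact_mod_cast sum_card_Am W A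
    have g3 : ∑ a ∈ A, (2 / 3) * (rho y * ((a : ℝ) / Nat.totient a)) * W ≤
        ∑ a ∈ A, (gD W {a} : ℝ) := by
      refine sum_le_sum fun a ha => ?_
      exact h3 a (hA1 a ha) (hAM a ha)
    rw [g2, card_range]
    refine le_trans ?_ g3
    have g4 : ∑ a ∈ A, (2 / 3) * (rho y * ((a : ℝ) / Nat.totient a)) * W =
        (2 / 3 * rho y * W) * ∑ a ∈ A, (a : ℝ) / Nat.totient a := by
      rw [mul_sum]
      exact sum_congr rfl fun a _ => by ring
    rw [g4]
    calc μ * (W : ℝ) = (2 / 3 * rho y * W) * (lam * L) := by rw [hμ]; ring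
      _ ≤ _ := mul_le_mul_of_nonneg_left hcard (by positivity)
  have s3 := smallpart (I := range W) (fun b => (Am W A b).card) k (μ := μ) (η := η) h8 hμ0 s2
    hη0 (by linarith)
  have s4 : ∑ T ∈ A.powersetCard (k + 1), (gD W T : ℝ) =
      ∑ b ∈ range W, (((Am W A b).card.choose (k + 1) : ℕ) : ℝ) := by
    have g2 := Uni.sum_choose (range W) A (k + 1) (fun b a => Nat.Coprime W (a * b + 1))
    unfold gD Am
    exact_mod_cast g2.symm
  -- sum over classes of the good tuples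
  have s5 : ((1 / 4 : ℝ) ^ k - e1 / 4) * ∑ b ∈ (range W).filter
      (fun b => η * μ ≤ ((Am W A b).card : ℝ)),
      (((Am W A b).card.choose (k + 1) : ℕ) : ℝ) ≤ ∑ T ∈ A.powersetCard (k + 1), (nM κ1 k N y T : ℝ) := by
    have g1 : ∑ T ∈ A.powersetCard (k + 1), (nM κ1 k N y T : ℝ) =
        ∑ b ∈ range W,
          ((((Am W A b).powersetCard (k + 1)).filter (fun T => GoodM κ1 k N y b T)).card : ℝ) := by
      have := sum_nM κ1 k N y A
      rw [← hW'] at this
      exact_mod_cast this.symm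
    rw [g1, mul_sum]
    calc _ ≤ ∑ b ∈ (range W).filter (fun b => η * μ ≤ ((Am W A b).card : ℝ)),
        ((((Am W A b).powersetCard (k + 1)).filter (fun T => GoodM κ1 k N y b T)).card : ℝ) := by
          apply sum_le_sum
          intro b hb
          rw [mem_filter] at hb
          have hAb : ∀ a ∈ Am W A b, 1 ≤ a ∧ a ≤ M ∧ Nat.Coprime W (a * b + 1) := by
            intro a ha
            unfold Am at ha
            rw [mem_filter] at ha
            exact ⟨hA1 a ha.1, hAM a ha.1, ha.2⟩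
          refine h1 b (Am W A b) (fun a ha => (hAb a ha).1) (fun a ha => (hAb a ha).2.1)
            (fun a ha => (hAb a ha).2.2) ?_
          refine le_trans (le_of_eq ?_) hb.2
          rw [hlam2, hμ]; ring
      _ ≤ _ := by
          apply sum_le_sum_of_subset_of_nonneg (filter_subset _ _)
          intro b _ _
          exact Nat.cast_nonneg _
  have s6 : ((1 / 4 : ℝ) ^ k - 3 * (e1 / 8)) * ∑ T ∈ A.powersetCard (k + 1), (gD W T : ℝ) ≤
      ∑ T ∈ A.powersetCard (k + 1), (nM κ1 k N y T : ℝ) := by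
    refine le_trans ?_ s5
    have g1 := mul_le_mul_of_nonneg_left s3 (show 0 ≤ (1 / 4 : ℝ) ^ k - e1 / 4 by linarith)
    refine le_trans ?_ g1
    rw [s4, ← mul_assoc]
    apply mul_le_mul_of_nonneg_right _ (sum_nonneg fun b _ => Nat.cast_nonneg _)
    rw [hη]
    nlinarith
  -- conversion
  have hcts : ∀ T ∈ A.powersetCard (k + 1),
      (1 - e1 / 8) * (((1 / rho y) ^ (k + 1) / W) * (gD W T : ℝ)) ≤ Pool.Agent.W218.MU.SD T ∧
      Pool.Agent.W218.MU.SD T ≤ (1 + e1 / 8) * (((1 / rho y) ^ (k + 1) / W) * (gD W T : ℝ)) := by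
    intro T hT
    rw [mem_powersetCard] at hT
    have g1 := h2 T hT.2 (fun t ht => hA1 t (hT.1 ht)) (fun t ht => hAM t (hT.1 ht))
    have g2 : (1 / rho y) ^ (k + 1) * ((gD W T : ℝ) / W) =
      ((1 / rho y) ^ (k + 1) / W) * (gD W T : ℝ) := by ring
    rw [g2] at g1
    exact g1
  have s7 := conv2 (A.powersetCard (k + 1)) (fun T => (gD W T : ℝ))
    (fun T => (nM κ1 k N y T : ℝ)) (fun T => Pool.Agent.W218.MU.SD T)
    ((1 / rho y) ^ (k + 1) / W) ((1 / 4 : ℝ) ^ k - 3 * (e1 / 8)) (e1 / 8) (by positivity)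
    (by positivity) (by linarith)
    (by linarith) (by linarith) (fun T _ => Nat.cast_nonneg _)
    (fun T _ => by exact_mod_cast nM_le κ1 k N y T) (fun T hT => (hcts T hT).1)
    (fun T hT => (hcts T hT).2) s6
  have hSD : ∀ T ∈ A.powersetCard (k + 1), 0 ≤ Pool.Agent.W218.MU.SD T := by
    intro T hT
    rw [mem_powersetCard] at hT
    rw [← Pool.Agent.W218.MU.SL_map]
    exact Pool.Agent.W218.MU.SL_nonneg
      (Pool.Agent.W218.MU.prim_map fun r hr => hA1 r (hT.1 hr))
  have s8 : ((1 / 4 : ℝ) ^ k - ε) * ∑ T ∈ A.powersetCard (k + 1), Pool.Agent.W218.MU.SD T ≤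
      ((1 / 4 : ℝ) ^ k - 3 * (e1 / 8) - 3 * (e1 / 8)) *
        ∑ T ∈ A.powersetCard (k + 1), Pool.Agent.W218.MU.SD T :=
    mul_le_mul_of_nonneg_right (by linarith) (sum_nonneg hSD)
  refine s8.trans (s7.trans ?_)
  apply sum_le_sum_of_subset_of_nonneg
  · intro T hT
    rw [mem_filter] at hT ⊢
    refine ⟨hT.1, ?_⟩
    refine le_trans ?_ (STM_ge hW κ1 k N y T)
    have g1 : e1 / 8 * (gD W T : ℝ) ≤ (nM κ1 k N y T : ℝ) := hT.2
    have g2 : 0 ≤ κ1 * UM (k + 1) X y := by
      apply mul_nonneg hκ1.le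
      unfold UM
      positivity
    refine le_trans ?_ (mul_le_mul_of_nonneg_right g1 g2)
    have g3 : e1 / 8 * (gD W T : ℝ) * (κ1 * UM (k + 1) X y) =
      e1 / 8 * κ1 * ((gD W T : ℝ) * UM (k + 1) X y) := by ring
    rw [g3, hUe]
    set zz := (1 / rho y) ^ (k + 1) * ((gD W T : ℝ) / W) with hzz
    have hzz0 : 0 ≤ zz := by positivity
    have g4 : Pool.Agent.W218.MU.SD T ≤ 2 * zz := by
      refine (hcts T hT.1).2.trans ?_
      have : ((1 / rho y) ^ (k + 1) / W) * (gD W T : ℝ) = zz := by rw [hzz]; ring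
      rw [this]
      exact mul_le_mul_of_nonneg_right (by linarith) hzz0
    calc e1 / 8 * κ1 / 2 * Pool.Agent.W218.MU.SD T * (N / L ^ (k + 1)) ≤
        e1 / 8 * κ1 / 2 * (2 * zz) * V := by
          rw [hV]
          gcongr
      _ = e1 / 8 * κ1 * (zz * V) := by ring
      _ ≤ e1 / 8 * κ1 * (zz * (MP X / LL X ^ (k + 1))) := by gcongr
  · intro T hT _
    exact hSD T (Finset.mem_filter.mp hT).1

end Pool.Agent.NH16.QL
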