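import Pool.Agent.NH16.QL.Stm

/-! QL-14: from the conditions to sets of multipliers (port of `LOW` of QT and `upp_eventually` of MB11). -/

set_option autoImplicit false

open Finset Filter Topology
open scoped ContDiff

namespace Pool.Agent.NH16.QL

open Pool.Agent.H378R2 Pool.Agent.H387R2 Pool.Agent.H387R2.MB Pool.Agent.H362R2.QT

namespace LOW

lemma UM_le_QM (hW : S_WGT) {J : ℕ} {X : ℝ} (hL : 0 < LL X) {y : ℕ} {E : Finset ℕ} (hE : 0 < BE E)
    (h : BE E ≤ rho y) : UM J X y ≤ QM J X (Uni.WW y) E := by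
  unfold UM QM
  have h1 := hW.mnn X
  have h2 := rho_pos y
  apply mul_le_mul_of_nonneg_left _ (by positivity)
  apply one_div_le_one_div_of_le (by positivity)
  apply pow_le_pow_left₀ (by positivity)
  exact mul_le_mul_of_nonneg_left h hL.le

lemma QM_le_UM (hW : S_WGT) {J : ℕ} {X : ℝ} (hL : 0 < LL X) {y : ℕ} {E : Finset ℕ}
    (h : rho y / 2 ≤ BE E) : QM J X (Uni.WW y) E ≤ 2 ^ J * UM J X y := by
  unfold UM QM
  have h1 := hW.mnn X
  have h2 := rho_pos y
  have h3 : 1 / (LL X * BE E) ^ J ≤ 2 ^ J * (1 / (LL X * rho y) ^ J) := by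
    have e : 2 ^ J * (1 / (LL X * rho y) ^ J) = 1 / (LL X * (rho y / 2)) ^ J := by
      have e2 : (LL X * (rho y / 2)) ^ J = (LL X * rho y) ^ J / 2 ^ J := by
        rw [← div_pow]; congr 1; ring
      rw [e2, one_div_div, mul_one_div]
    rw [e]
    apply one_div_le_one_div_of_le (by positivity)
    apply pow_le_pow_left₀ (by positivity)
    exact mul_le_mul_of_nonneg_left h hL.le
  calc _ ≤ (MP X * (1 / (Uni.WW y : ℝ))) * (2 ^ J * (1 / (LL X * rho y) ^ J)) :=
        mul_le_mul_of_nonneg_left h3 (by positivity)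
    _ = _ := by ring

/-- the multipliers are independent at the primes outside the excluded set of `insert 0 R` -/
lemma DL_ER {y : ℕ} {R : Finset ℕ} {J : ℕ} (t : Fin J → ℕ) (ht : ∀ j, t j ∈ R)
    (hinj : Function.Injective t) (hpos : ∀ j, 1 ≤ t j) : DL (ER y (insert 0 R)) t := by
  refine ⟨hpos, ?_, DT_ER t (fun j => mem_insert_of_mem (ht j)) hinj⟩
  intro p hp hpE j hd
  apply hpE
  unfold ER
  rw [mem_union, mem_biUnion]
  right
  have hj := hpos j
  refine ⟨(t j, 0), ?_, ?_⟩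
  · rw [mem_offDiag]
    refine ⟨mem_insert_of_mem (ht j), mem_insert_self _ _, ?_⟩
    change t j ≠ 0
    omega
  · rw [Nat.mem_primeFactors]
    have e : (((t j : ℕ) : ℤ) - ((0 : ℕ) : ℤ)).natAbs = t j := by simp
    change p.Prime ∧ p ∣ (((t j : ℕ) : ℤ) - ((0 : ℕ) : ℤ)).natAbs ∧
      (((t j : ℕ) : ℤ) - ((0 : ℕ) : ℤ)).natAbs ≠ 0
    rw [e]
    exact ⟨hp, hd, by omega⟩

/-- the multipliers are small -/
lemma tl_eventually (C : ℝ) : ∀ᶠ N : ℕ in atTop,
    ((⌊Real.log N ^ C⌋₊ : ℕ) : ℝ) ≤ Real.log ((N : ℝ) / 4) ^ (|C| + 1) := by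
  have tN : Tendsto (fun N : ℕ => (N : ℝ)) atTop atTop := tendsto_natCast_atTop_atTop
  have tL : Tendsto (fun N : ℕ => Real.log (N : ℝ)) atTop atTop := Real.tendsto_log_atTop.comp tN
  filter_upwards [tL.eventually_ge_atTop 4, tL.eventually_ge_atTop ((2 : ℝ) ^ (|C| + 1)),
    eventually_gt_atTop 0] with N h1 h2 h3
  have hN0 : (0 : ℝ) < N := by exact_mod_cast h3
  set l := Real.log (N : ℝ) with hl
  have hl0 : 0 < l := by linarith
  have hlog4 : Real.log 4 ≤ 2 := by
    have : Real.log 4 = 2 * Real.log 2 := by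
      rw [show (4 : ℝ) = 2 ^ 2 by norm_num, Real.log_pow]; norm_num
    have := Real.log_two_lt_d9
    linarith
  have hlX : Real.log ((N:ℝ) / 4) = l - Real.log 4 := Real.log_div hN0.ne' (by norm_num)
  have hlX2 : l / 2 ≤ Real.log ((N:ℝ) / 4) := by rw [hlX]; linarith
  have h4 : ((⌊l ^ C⌋₊ : ℕ) : ℝ) ≤ l ^ C := Nat.floor_le (Real.rpow_nonneg hl0.le _)
  have h5 : l ^ C ≤ l ^ |C| := Real.rpow_le_rpow_of_exponent_le (by linarith) (le_abs_self C)
  have h6 : l ^ |C| ≤ (l / 2) ^ (|C| + 1) := by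
    rw [Real.div_rpow hl0.le (by norm_num), le_div_iff₀ (by positivity), Real.rpow_add hl0,
      Real.rpow_one]
    exact mul_le_mul_of_nonneg_left h2 (by positivity)
  have h7 : (l / 2) ^ (|C| + 1) ≤ Real.log ((N:ℝ) / 4) ^ (|C| + 1) :=
    Real.rpow_le_rpow (by positivity) hlX2 (by positivity)
  linarith

end LOW

open LOW in
/-- QL-14 -/
theorem t_LOW (hW : S_WGT) (h : S_COL) : S_LOW := by
  classical
  intro m hm
  obtain ⟨K', K0, e, δ, hK', hδ, hδ', θ, hθ, c0, hc0, z, h⟩ := h m hm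
  refine ⟨K', hK', δ, hδ, hδ', c0, hc0, fun C => ?_⟩
  have hcard : 4 * m * K' = K0 + 1 := by
    have := Fintype.card_congr e
    simpa [Fintype.card_prod, Fintype.card_fin] using this
  have tN : Tendsto (fun N : ℕ => (N : ℝ)) atTop atTop := tendsto_natCast_atTop_atTop
  have tX : Tendsto (fun N : ℕ => (N : ℝ) / 4) atTop atTop := tN.atTop_div_const (by norm_num)
  filter_upwards [tX.eventually (h (|C| + 1)), ec_eventually (K0 + 1 + 1) z C hθ, tl_eventually C,
    (LL_tendsto.comp tX).eventually_ge_atTop 1] with N h1 h2 h3 h4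
  set X := (N:ℝ) / 4 with hX
  set y := ⌊Real.log (Real.log (N:ℝ))⌋₊ with hy
  have hL0 : 0 < LL X := by
    have : 1 ≤ LL X := h4
    linarith
  intro b R hR hR1 hRM hRc
  have hSc : (univ.image R).card = K0 + 1 := by
    rw [card_image_of_injective _ hR, card_univ, Fintype.card_congr e, Fintype.card_fin]
  have hSc' : (insert 0 (univ.image R)).card ≤ K0 + 1 + 1 :=
    (card_insert_le _ _).trans (by rw [hSc])
  have hSM : ∀ a ∈ insert 0 (univ.image R), a ≤ ⌊Real.log (N:ℝ) ^ C⌋₊ := by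
    intro a ha
    rw [mem_insert] at ha
    rcases ha with rfl | ha
    · exact Nat.zero_le _
    · obtain ⟨x, -, rfl⟩ := mem_image.1 ha
      exact hRM x
  obtain ⟨hCS, hs, hB1, hB2⟩ := h2 (insert 0 (univ.image R)) hSc' hSM
  set t : Fin (K0 + 1) → ℕ := fun j => R (e.symm j) with ht
  have htR : ∀ j, t j ∈ univ.image R := fun j => mem_image_of_mem _ (mem_univ _)
  have hBE : 0 < BE (ER y (insert 0 (univ.image R))) := BE_pos hCS.gs.pr
  have hcnd : Cn (|C| + 1) θ X z (Uni.WW y) (ER y (insert 0 (univ.image R))) b t :=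
    { cs := hCS
      dl := DL_ER t htR (hR.comp e.symm.injective) (fun j => hR1 _)
      cp := fun j => (hRc _).symm
      tl := fun j => by
        refine le_trans ?_ h3
        exact_mod_cast hRM _
      sm := hs }
  have k1 := h1 (Uni.WW y) (ER y (insert 0 (univ.image R))) b t hcnd
  have k2 := mul_le_mul_of_nonneg_left (UM_le_QM hW (J := K0 + 1) hL0 hBE hB1) hc0.le
  rw [hcard]
  refine (k2.trans k1).trans (le_of_eq ?_)
  apply sum_congr rfl
  intro n _
  congr 1
  have e3 : (∀ j, Rg δ X (t j * n + 1)) ↔ ∀ x, Rg δ X (R x * n + 1) := by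
    constructor
    · intro h x
      have := h (e x)
      simpa [ht] using this
    · intro h j
      exact h _
  simp only [e3]
  simp only [ht, Equiv.symm_apply_apply]
  rfl

open LOW in
/-- QL-14 -/
theorem t_UPP (hW : S_WGT) (h : S_RU) : S_UPP := by
  classical
  intro J δ hδ
  obtain ⟨C1, hC1, z, h⟩ := h J δ hδ
  refine ⟨C1 * 2 ^ J, by positivity, fun C => ?_⟩
  have tN : Tendsto (fun N : ℕ => (N : ℝ)) atTop atTop := tendsto_natCast_atTop_atTop
  have tX : Tendsto (fun N : ℕ => (N : ℝ) / 4) atTop atTop := tN.atTop_div_const (by norm_num)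
  filter_upwards [tX.eventually h, ec_eventually (J + 1) z C hδ,
    (LL_tendsto.comp tX).eventually_ge_atTop 1] with N h1 h2 h4
  set X := (N:ℝ) / 4 with hX
  set y := ⌊Real.log (Real.log (N:ℝ))⌋₊ with hy
  have hL0 : 0 < LL X := by
    have : 1 ≤ LL X := h4
    linarith
  intro b R hRK hR1 hRM
  have hSM : ∀ a ∈ insert 0 R, a ≤ ⌊Real.log (N:ℝ) ^ C⌋₊ := by
    intro a ha
    rw [mem_insert] at ha
    rcases ha with rfl | ha
    · exact Nat.zero_le _
    · exact hRM a ha
  obtain ⟨hCS, hs, hB1, hB2⟩ := h2 (insert 0 R) ((card_insert_le _ _).trans (by rw [hRK])) hSM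
  set t : Fin J → ℕ := fun j => R.orderEmbOfFin hRK j with ht
  have htR : ∀ j, t j ∈ R := fun j => orderEmbOfFin_mem R hRK j
  have k1 := h1 (Uni.WW y) (ER y (insert 0 R)) b t hCS
    (DL_ER t htR (R.orderEmbOfFin hRK).injective (fun j => hR1 _ (htR j)))
  have k2 := mul_le_mul_of_nonneg_left (QM_le_UM hW (J := J) hL0 hB2) hC1.le
  have e0 : ∑ n ∈ Icc 1 ⌊3 * X⌋₊, nw X (Uni.WW y) b n *
      (if ∀ a ∈ R, Rg δ X (a * n + 1) then 1 else 0) =
      ∑ n ∈ Icc 1 ⌊3 * X⌋₊, nw X (Uni.WW y) b n * (if ∀ j, Rg δ X (t j * n + 1) then 1 else 0) := by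
    apply sum_congr rfl
    intro n _
    congr 1
    have e2 := all_en hRK (fun a => Rg δ X (a * n + 1))
    simp only [← e2]
    rfl
  rw [e0]
  refine (k1.trans k2).trans (le_of_eq ?_)
  ring

end Pool.Agent.NH16.QL
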