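import Pool.Agent.NH16.QL.Stm
import Pool.Agent.H387R2.MB5

/-!
Project QL (helper16), part QL-11: the contribution of the `n` with a small prime factor. Port of
`stepA` and `nonrough` (`Pool/Agent/H387R2/MB4.lean`, `MB5.lean`). Written by helper28.
-/

set_option autoImplicit false

open Finset Filter Topology
open scoped ContDiff

namespace Pool.Agent.NH16.QL

open Pool.Agent.H378R2 Pool.Agent.H387R2 Pool.Agent.H387R2.MB Pool.Agent.H362R2.QT

namespace NR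

lemma nw_nonneg (hW : S_WGT) (X : ℝ) (W a n : ℕ) : 0 ≤ nw X W a n := by
  unfold nw
  split_ifs
  · exact hW.nn _
  · exact le_rfl

/-- the class `n ≡ a0 (W)`, `p ∣ t n + 1` -/
lemma class_d {W a0 p t : ℕ} (hp : p.Prime) (hpW : ¬ p ∣ W) (hpt : ¬ p ∣ t) :
    ∃ b : ℕ, ∀ n : ℕ, (n ≡ a0 [MOD W] ∧ (p : ℤ) ∣ vl t n) ↔ n ≡ b [MOD (W * p)] := by
  have hcop : Nat.Coprime W p := ((Nat.Prime.coprime_iff_not_dvd hp).2 hpW).symm
  have : Fact p.Prime := ⟨hp⟩
  obtain ⟨b, hb1, hb2⟩ := Nat.chineseRemainder hcop a0 ((-((t : ZMod p)⁻¹) : ZMod p).val)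
  refine ⟨b, fun n => ?_⟩
  have ht0 : (t : ZMod p) ≠ 0 := by
    rw [Ne, ZMod.natCast_eq_zero_iff]
    exact hpt
  have key : (p : ℤ) ∣ vl t n ↔ n ≡ (-((t : ZMod p)⁻¹) : ZMod p).val [MOD p] := by
    rw [← ZMod.natCast_eq_natCast_iff, ZMod.natCast_zmod_val, ← ZMod.intCast_zmod_eq_zero_iff_dvd]
    unfold vl
    push_cast
    constructor
    · intro h
      have h1 : (t : ZMod p) * n = -1 := by linear_combination h
      calc (n : ZMod p) = (t : ZMod p)⁻¹ * ((t : ZMod p) * n) := by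
            rw [← mul_assoc, inv_mul_cancel₀ ht0, one_mul]
        _ = _ := by rw [h1]; ring
    · intro h
      rw [h, mul_neg, mul_inv_cancel₀ ht0, neg_add_cancel]
  rw [key, ← Nat.modEq_and_modEq_iff_modEq_mul hcop]
  constructor
  · rintro ⟨h1, h2⟩
    exact ⟨h1.trans hb1.symm, h2.trans hb2.symm⟩
  · rintro ⟨h1, h2⟩
    exact ⟨h1.trans hb1, h2.trans hb2⟩

lemma nw_p {X : ℝ} {W a0 p t b : ℕ}
    (hb : ∀ n : ℕ, (n ≡ a0 [MOD W] ∧ (p : ℤ) ∣ vl t n) ↔ n ≡ b [MOD (W * p)])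
    (n : ℕ) (w : ℝ) : nw X W a0 n * (if (p : ℤ) ∣ vl t n then w else 0) =
      nw X (W * p) b n * w := by
  unfold nw
  by_cases h : n ≡ b [MOD (W * p)]
  · have := (hb n).2 h
    rw [if_pos h, if_pos this.1, if_pos this.2]
  · rw [if_neg h]
    by_cases h1 : n ≡ a0 [MOD W]
    · have h2 : ¬ (p : ℤ) ∣ vl t n := fun h2 => h ((hb n).1 ⟨h1, h2⟩)
      rw [if_neg h2]; ring
    · rw [if_neg h1]; ring

lemma DL_insert {E : Finset ℕ} {K : ℕ} {t : Fin K → ℕ} (h : DL E t) (p : ℕ) :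
    DL (insert p E) t :=
  ⟨h.pos, fun r hr hrE => h.du r hr (fun h' => hrE (mem_insert_of_mem h')),
    fun i j hij r hr hrE => h.dt i j hij r hr (fun h' => hrE (mem_insert_of_mem h'))⟩

/-- contribution of a prime `p ∉ E` -/
theorem stepA (hWG : S_WGT) (hS1 : S_S1PR) {K : ℕ} (g : Fin K → ℝ → ℝ) (c : Fin K → ℝ)
    (hsm : ∀ l, ContDiff ℝ ∞ (g l)) (hcs : ∀ l, HasCompactSupport (g l)) (hf0 : ∀ l x, c l < x → g l x = 0)
    (hc : ∀ l, 0 ≤ c l ∧ c l ≤ 1 / 2) (hA : ∑ j, c j ≤ 1) (hf1 : ∀ l x, |g l x| ≤ 1) (j0 : Fin K) :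
    ∃ C : ℝ, 0 ≤ C ∧ ∀ X : ℝ, 4 ≤ X → 2 ≤ LL X → ∀ (W : ℕ) (E : Finset ℕ) (a0 p : ℕ) (t : Fin K → ℕ),
      0 < W → (∀ r : ℕ, r.Prime → r ∉ E → ¬ r ∣ W) → p.Prime → p ∉ E → GE X (32 * K + 2) (insert p E) →
      ((W * p : ℕ) : ℝ) ≤ Real.exp (Real.log X / 700) → DL E t →
      ∑ n ∈ Icc 1 ⌊3 * X⌋₊, nw X W a0 n * (if (p : ℤ) ∣ vl (t j0) n then
        ∏ j, (VVm E (RR X) (LL X) (g j) (vl (t j) n) * VVm E (RR X) (LL X) (g j) (vl (t j) n)) else 0) ≤
      (MP X * (1 / (W : ℝ))) * (1 / (LL X * BE E) ^ K) * (2 ^ K * C * ((Real.log p / LL X) ^ 2 / p)) +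
        5 * 2 ^ (2 * K) * Real.exp (2 * LL X) := by
  classical
  obtain ⟨C, hC0, hC⟩ := shift_sieve_bound K g g hsm hsm hcs hcs j0
  refine ⟨C, hC0, ?_⟩
  intro X hX4 hL2 W E a0 p t hW hdv hp hpE hGE hWp hDT
  have hL0 : 0 < LL X := by linarith
  have hp0 : (0:ℝ) < p := by exact_mod_cast hp.pos
  have hW0 : (0:ℝ) < W := by exact_mod_cast hW
  set u := Real.log p / LL X with hu
  have hu0 : 0 ≤ u := div_nonneg (Real.log_natCast_nonneg p) hL0.le
  obtain ⟨b, hb⟩ := class_d (a0 := a0) (t := t j0) hp (hdv p hp hpE) (hDT.du p hp hpE j0)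
  have hvan : ∀ (l : Fin K) (x : ℝ), Real.log (RR X) / LL X < x → g l x = 0 := by
    intro l x hx
    have := supp_aux hL2 hx
    exact hf0 l x (lt_of_le_of_lt (hc l).2 this)
  set G := shf g j0 u with hG
  have hG2 : ∀ j x, |G j x| ≤ 2 := by
    intro j x
    rw [hG]
    unfold shf
    split_ifs
    · have h1 := hf1 j x
      have h2 := hf1 j (x + u)
      have := abs_sub (g j x) (g j (x + u))
      linarith
    · have h1 := hf1 j x
      linarith
  have hG0 : ∀ j x, c j < x → G j x = 0 := by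
    intro j x hx
    rw [hG]
    unfold shf
    split_ifs
    · rw [hf0 j x hx, hf0 j (x + u) (by linarith), sub_zero]
    · exact hf0 j x hx
  have hCW : CW X (32 * K + 2) (W * p) (insert p E) := by
    refine ⟨hGE, Nat.mul_pos hW hp.pos, hWp, fun r hr hrE hrd => ?_⟩
    rcases (Nat.Prime.dvd_mul hr).1 hrd with h | h
    · exact hdv r hr (fun h' => hrE (mem_insert_of_mem h')) h
    · have : r = p := (Nat.prime_dvd_prime_iff_eq hr hp).1 h
      exact hrE (this ▸ mem_insert_self _ _)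
  have hDT' : DL (insert p E) t := DL_insert hDT p
  have k1 := hS1 G G c c 2 (by norm_num) hG2 hG2 hG0 hG0 (by linarith) X hX4 (by linarith) _ _ _ hCW b t hDT'
  have k2 := hC u hu0 (LL X) (fun _ => insert p E) (fun q _ => 1 / (q : ℝ)) (RR X) hL2
    (fun j x hx => ⟨hvan j x hx, hvan j x hx⟩) (fun _ => hGE.pr) (fun _ => hGE.sm) (fun _ => hGE.s1)
    (fun _ => hGE.s2) (fun _ q _ _ => w_one q)
  have e1 : ∏ j : Fin K, (LL X * ∏ p ∈ insert p E, (1 - 1 / (p : ℝ))) = (LL X * BE (insert p E)) ^ K :=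
    prod_LBE K X (insert p E)
  rw [e1] at k2
  set SS := sieveSum K G G (LL X) (fun _ => insert p E) (fun q _ => 1 / (q : ℝ)) (RR X) with hSS
  have hBE : 0 < BE E := BE_pos fun r hr => hGE.pr r (mem_insert_of_mem hr)
  have hBE' : 0 < BE (insert p E) := BE_pos hGE.pr
  have hBE2 : BE E / 2 ≤ BE (insert p E) := by
    rw [BE_insert hpE]
    have h1 : (1:ℝ) / p ≤ 1 / 2 := one_div_le_one_div_of_le (by norm_num) (by exact_mod_cast hp.two_le)
    nlinarith
  have k3 : SS ≤ 1 / (LL X * BE E) ^ K * (2 ^ K * (C * u ^ 2)) := by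
    have h1 : (LL X * BE (insert p E)) ^ K * SS ≤ C * u ^ 2 := (le_abs_self _).trans k2
    have h2 : (LL X * BE E / 2) ^ K ≤ (LL X * BE (insert p E)) ^ K := by
      apply pow_le_pow_left₀ (by positivity)
      calc LL X * BE E / 2 = LL X * (BE E / 2) := by ring
        _ ≤ _ := mul_le_mul_of_nonneg_left hBE2 hL0.le
    have h3 : SS ≤ C * u ^ 2 / (LL X * BE (insert p E)) ^ K := by
      rw [le_div_iff₀ (by positivity)]
      linarith
    refine h3.trans ?_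
    calc C * u ^ 2 / (LL X * BE (insert p E)) ^ K ≤ C * u ^ 2 / (LL X * BE E / 2) ^ K := by
          apply div_le_div_of_nonneg_left (by positivity) (by positivity) h2
      _ = _ := by
          have e5 : (LL X * BE E / 2) ^ K = (LL X * BE E) ^ K / 2 ^ K := div_pow _ _ _
          rw [e5]
          have : (LL X * BE E) ^ K ≠ 0 := by positivity
          field_simp
  have hM := hWG.mnn X
  have e2 : ∀ n ∈ Icc 1 ⌊3 * X⌋₊, nw X W a0 n * (if (p : ℤ) ∣ vl (t j0) n then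
        ∏ j, (VVm E (RR X) (LL X) (g j) (vl (t j) n) * VVm E (RR X) (LL X) (g j) (vl (t j) n)) else 0) =
      nw X (W * p) b n * ∏ j, (VVm (insert p E) (RR X) (LL X) (G j) (vl (t j) n) *
        VVm (insert p E) (RR X) (LL X) (G j) (vl (t j) n)) := by
    intro n _
    rw [← nw_p hb n]
    congr 1
    by_cases hd : (p : ℤ) ∣ vl (t j0) n
    · rw [if_pos hd, if_pos hd]
      apply prod_congr rfl
      intro j _
      have : VVm E (RR X) (LL X) (g j) (vl (t j) n) = VVm (insert p E) (RR X) (LL X) (G j) (vl (t j) n) := by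
        by_cases hj : j = j0
        · subst hj
          rw [VV_shift E (RR X) (LL X) hL0 (g j) p hp hpE (hvan j) _ hd]
          congr 1
          funext x
          rw [hG]
          unfold shf
          rw [if_pos rfl]
        · have hnd : ¬ (p : ℤ) ∣ vl (t j) n := by
            intro h
            have h6 := dvd_sub h hd
            have h7 : vl (t j) n - vl (t j0) n = ((t j : ℤ) - t j0) * n := by unfold vl; ring
            rw [h7] at h6
            rcases (Nat.prime_iff_prime_int.1 hp).dvd_or_dvd h6 with h8 | h8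
            · exact hDT.dt j j0 hj p hp hpE h8
            · have h9 : (p : ℤ) ∣ 1 := by
                have h10 := dvd_sub hd (h8.mul_left (t j0 : ℤ))
                have h11 : vl (t j0) n - (t j0 : ℤ) * n = 1 := by unfold vl; ring
                rwa [h11] at h10
              exact hp.one_lt.ne' (Nat.dvd_one.1 (by exact_mod_cast h9))
          rw [VV_same E (RR X) (LL X) (g j) p hp _ hnd]
          congr 1
          funext x
          rw [hG]
          unfold shf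
          rw [if_neg hj]
      rw [this]
    · rw [if_neg hd, if_neg hd]
  rw [sum_congr rfl e2]
  have k4 := (abs_le.1 k1).2
  have k5 : MP X * (1 / ((W * p : ℕ) : ℝ)) * SS ≤
      (MP X * (1 / (W : ℝ))) * (1 / (LL X * BE E) ^ K) * (2 ^ K * C * (u ^ 2 / p)) := by
    calc MP X * (1 / ((W * p : ℕ) : ℝ)) * SS ≤ MP X * (1 / ((W * p : ℕ) : ℝ)) *
          (1 / (LL X * BE E) ^ K * (2 ^ K * (C * u ^ 2))) := mul_le_mul_of_nonneg_left k3 (by positivity)
      _ = _ := by push_cast; field_simp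
  linarith

/-- contribution of the `n` with a small prime factor -/
theorem main (hWG : S_WGT) (h1PR : S_S1PR) (h1UP : S_S1UP) : S_NR := by
  intro K B f c A hsm hcs hf0 hc hA hf1 hII
  classical
  have hA' : ∀ (a : Fin K → Fin B) (j0 : Fin K), ∃ C : ℝ, 0 ≤ C ∧ (a ∈ A → ∀ X : ℝ, 4 ≤ X → 2 ≤ LL X →
      ∀ (W : ℕ) (E : Finset ℕ) (a0 p : ℕ) (t : Fin K → ℕ),
      0 < W → (∀ r : ℕ, r.Prime → r ∉ E → ¬ r ∣ W) → p.Prime → p ∉ E → GE X (32 * K + 2) (insert p E) →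
      ((W * p : ℕ) : ℝ) ≤ Real.exp (Real.log X / 700) → DL E t →
      ∑ n ∈ Icc 1 ⌊3 * X⌋₊, nw X W a0 n * (if (p : ℤ) ∣ vl (t j0) n then
        ∏ j, (VVm E (RR X) (LL X) (f (a j)) (vl (t j) n) * VVm E (RR X) (LL X) (f (a j)) (vl (t j) n)) else 0) ≤
      (MP X * (1 / (W : ℝ))) * (1 / (LL X * BE E) ^ K) * (2 ^ K * C * ((Real.log p / LL X) ^ 2 / p)) +
        5 * 2 ^ (2 * K) * Real.exp (2 * LL X)) := by
    intro a j0
    by_cases ha : a ∈ A
    · obtain ⟨C, hC0, hC⟩ := stepA hWG h1PR (fun j => f (a j)) (fun j => c (a j)) (fun _ => hsm _) (fun _ => hcs _)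
        (fun _ x hx => hf0 _ x hx) (fun _ => hc _) (hA a ha) (fun _ x => hf1 _ x) j0
      exact ⟨C, hC0, fun _ => hC⟩
    · exact ⟨0, le_rfl, fun h => absurd h ha⟩
  choose Ca hCa0 hCa using hA'
  obtain ⟨z1, hS1⟩ := h1UP f c A hsm hcs hf0 hc hA hf1 1 one_pos
  set Csum : ℝ := ∑ j : Fin K, ∑ a ∈ A, (A.card : ℝ) * (2 ^ K * Ca a j) with hCsum
  have hCsum0 : 0 ≤ Csum := sum_nonneg fun j _ => sum_nonneg fun a _ => by
    have := hCa0 a j; positivity
  set Cerr : ℝ := K * ((A.card : ℝ) ^ 2 * 5) + K * ((A.card : ℝ) ^ 2 * (5 * 2 ^ (2 * K))) with hCerr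
  refine ⟨K * (II f A + 1) + 2 * Csum + 1, by positivity, max z1 (32 * K + 2), ?_⟩
  intro δ hδ hδ1
  have hr : Tendsto (fun X : ℝ => (LL X) ^ (1 / 4 : ℝ)) atTop atTop :=
    (tendsto_rpow_atTop (by norm_num)).comp LL_tendsto
  have hll : Tendsto (fun X : ℝ => Real.log (LL X)) atTop atTop := Real.tendsto_log_atTop.comp LL_tendsto
  have hWp : ∀ᶠ X : ℝ in atTop, Real.log X ^ 3 * Real.exp (1 / 10 * LL X) ≤ Real.exp (Real.log X / 700) := by
    have h1 : ∀ᶠ t : ℝ in atTop, 1 * t ^ 3 ≤ Real.exp ((1 / 1400) * t) :=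
      ev_pow_exp 3 (1 / 1400) 1 (by norm_num)
    filter_upwards [Real.tendsto_log_atTop.eventually h1, Real.tendsto_log_atTop.eventually_ge_atTop 0] with X h2 h3
    rw [one_mul] at h2
    calc Real.log X ^ 3 * Real.exp (1 / 10 * LL X) ≤ Real.exp ((1 / 1400) * Real.log X) * Real.exp (1 / 10 * LL X) := by
          gcongr
      _ = Real.exp ((1 / 1400) * Real.log X + 1 / 10 * LL X) := by rw [Real.exp_add]
      _ ≤ Real.exp (Real.log X / 700) := by
          apply Real.exp_le_exp.2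
          unfold LL
          linarith
  filter_upwards [hS1, sum_u2 hδ, hWG.ex K Cerr δ hδ, hWp, eventually_ge_atTop 4,
    LL_tendsto.eventually_ge_atTop 2, hr.eventually_ge_atTop 2, hll.eventually_ge_atTop 64,
    Real.tendsto_log_atTop.eventually_ge_atTop 1] with X h1 h2 h3 h4 h5 h6 h7 h8 h9
  intro Dc W E a0 t hCn
  have hCS := hCn.cs
  have hDT := hCn.dl
  have hcop := hCn.cp
  have hE1 := hCn.sm
  unfold QM
  have hL0 : 0 < LL X := by linarith
  have hW0 : (0:ℝ) < W := by exact_mod_cast hCS.pos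
  have hM0 : 0 ≤ MP X := hWG.mnn X
  have hBE : 0 < BE E := BE_pos hCS.gs.pr
  set Q : ℝ := (MP X * (1 / (W : ℝ))) * (1 / (LL X * BE E) ^ K) with hQ
  have hQ0 : 0 ≤ Q := by positivity
  have hpexp : ∀ p ∈ PS δ X, (p : ℝ) ≤ Real.exp (1 / 10 * LL X) := by
    intro p hp
    refine (mem_PS.1 hp).2.trans (Real.exp_le_exp.2 ?_)
    nlinarith
  have hWpX : ∀ p ∈ PS δ X, ((W * p : ℕ) : ℝ) ≤ Real.exp (Real.log X / 700) := by
    intro p hp
    push_cast
    calc (W : ℝ) * p ≤ Real.log X ^ 3 * Real.exp (1 / 10 * LL X) := by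
          apply mul_le_mul hCS.le (hpexp p hp) (Nat.cast_nonneg _) (by positivity)
      _ ≤ _ := h4
  -- primes dividing W
  have hdivW : ∀ j : Fin K, ∀ p ∈ PS δ X, p ∣ W →
      ∑ n ∈ Icc 1 ⌊3 * X⌋₊, nw X W a0 n *
        (if (p : ℤ) ∣ vl (t j) n then sqw E X f A (fun j => vl (t j) n) ^ 2 else 0) = 0 := by
    intro j p hp hpW
    apply sum_eq_zero
    intro n _
    unfold nw
    by_cases hn : n ≡ a0 [MOD W]
    · have hnd : ¬ (p : ℤ) ∣ vl (t j) n := by
        intro h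
        have h' : p ∣ t j * n + 1 := by
          have e : ((t j * n + 1 : ℕ) : ℤ) = vl (t j) n := by unfold vl; push_cast; ring
          rw [← e] at h
          exact Int.natCast_dvd_natCast.1 h
        have h2 : t j * n + 1 ≡ t j * a0 + 1 [MOD p] :=
          (Nat.ModEq.add_right 1 (Nat.ModEq.mul_left (t j) hn)).of_dvd hpW
        have h3 : p ∣ t j * a0 + 1 := (Nat.modEq_zero_iff_dvd.1 (h2.symm.trans (Nat.modEq_zero_iff_dvd.2 h')))
        have h4 := Nat.dvd_gcd h3 hpW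
        rw [(hcop j)] at h4
        exact (mem_PS.1 hp).1.one_lt.ne' (Nat.dvd_one.1 h4)
      rw [if_neg hnd, mul_zero]
    · rw [if_neg hn, zero_mul]
  -- primes in E not dividing W
  have hinE : ∀ j : Fin K, ∀ p ∈ PS δ X, p ∈ E → ¬ p ∣ W →
      ∑ n ∈ Icc 1 ⌊3 * X⌋₊, nw X W a0 n *
        (if (p : ℤ) ∣ vl (t j) n then sqw E X f A (fun j => vl (t j) n) ^ 2 else 0) ≤
        Q * (II f A + 1) * (1 / p) + (A.card : ℝ) ^ 2 * 5 * Real.exp (2 * LL X) := by
    intro j p hp hpE hpW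
    have hpp := (mem_PS.1 hp).1
    have hp0 : (0:ℝ) < p := by exact_mod_cast hpp.pos
    by_cases hpt : p ∣ t j
    · have hz : ∑ n ∈ Icc 1 ⌊3 * X⌋₊, nw X W a0 n *
          (if (p : ℤ) ∣ vl (t j) n then sqw E X f A (fun j => vl (t j) n) ^ 2 else 0) = 0 := by
        apply sum_eq_zero
        intro n _
        have hnd : ¬ (p : ℤ) ∣ vl (t j) n := by
          intro h
          have h9 : (p : ℤ) ∣ 1 := by
            have h10 := dvd_sub h ((Int.natCast_dvd_natCast.2 hpt).mul_right (n : ℤ))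
            have h11 : vl (t j) n - (t j : ℤ) * n = 1 := by unfold vl; ring
            rwa [h11] at h10
          exact hpp.one_lt.ne' (Nat.dvd_one.1 (by exact_mod_cast h9))
        rw [if_neg hnd, mul_zero]
      rw [hz]
      positivity
    obtain ⟨b, hb⟩ := class_d (a0 := a0) (t := t j) hpp hpW hpt
    have hCW : CW X z1 (W * p) E := by
      refine ⟨(hCS.gs.toGE (by linarith)).mono (le_max_left _ _), Nat.mul_pos hCS.pos hpp.pos, hWpX p hp,
        fun r hr hrE hrd => ?_⟩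
      rcases (Nat.Prime.dvd_mul hr).1 hrd with h | h
      · exact hCS.dv r hr hrE h
      · have : r = p := (Nat.prime_dvd_prime_iff_eq hr hpp).1 h
        exact hrE (this ▸ hpE)
    have k1 := h1 (W * p) E b t hCW hDT
    rw [sum_congr rfl (fun n _ => nw_p hb n (sqw E X f A (fun j => vl (t j) n) ^ 2))]
    refine k1.trans (le_of_eq ?_)
    unfold QM
    rw [hQ]
    push_cast
    field_simp
  -- primes not in E
  have hnE : ∀ j : Fin K, ∀ p ∈ PS δ X, p ∉ E →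
      ∑ n ∈ Icc 1 ⌊3 * X⌋₊, nw X W a0 n *
        (if (p : ℤ) ∣ vl (t j) n then sqw E X f A (fun j => vl (t j) n) ^ 2 else 0) ≤
        Q * (∑ a ∈ A, (A.card : ℝ) * (2 ^ K * Ca a j)) * ((Real.log p / LL X) ^ 2 / p) +
          (A.card : ℝ) ^ 2 * (5 * 2 ^ (2 * K)) * Real.exp (2 * LL X) := by
    intro j p hp hpE
    have hpp := (mem_PS.1 hp).1
    have hGE : GE X (32 * K + 2) (insert p E) := (hCS.gs.insert h7 h8 hpp hpE).mono (le_max_right _ _)
    have b1 : ∑ n ∈ Icc 1 ⌊3 * X⌋₊, nw X W a0 n *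
        (if (p : ℤ) ∣ vl (t j) n then sqw E X f A (fun j => vl (t j) n) ^ 2 else 0) ≤
        ∑ a ∈ A, (A.card : ℝ) * ∑ n ∈ Icc 1 ⌊3 * X⌋₊, nw X W a0 n * (if (p : ℤ) ∣ vl (t j) n then
          ∏ j, (VVm E (RR X) (LL X) (f (a j)) (vl (t j) n) * VVm E (RR X) (LL X) (f (a j)) (vl (t j) n)) else 0) := by
      simp_rw [mul_sum]
      rw [sum_comm]
      apply sum_le_sum
      intro n _
      have hnu := nw_nonneg hWG X W a0 n
      split_ifs with hd
      · have := sqw_sq_le_sum E X f A (fun j => vl (t j) n)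
        calc nw X W a0 n * sqw E X f A (fun j => vl (t j) n) ^ 2 ≤ nw X W a0 n * (A.card *
            ∑ a ∈ A, ∏ j, (VVm E (RR X) (LL X) (f (a j)) (vl (t j) n) *
              VVm E (RR X) (LL X) (f (a j)) (vl (t j) n))) := mul_le_mul_of_nonneg_left this hnu
          _ = _ := by
              rw [mul_sum, mul_sum]
              apply sum_congr rfl
              intro a _
              ring
      · simp
    refine b1.trans ?_
    have b2 : ∀ a ∈ A, (A.card : ℝ) * ∑ n ∈ Icc 1 ⌊3 * X⌋₊, nw X W a0 n * (if (p : ℤ) ∣ vl (t j) n then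
          ∏ j, (VVm E (RR X) (LL X) (f (a j)) (vl (t j) n) * VVm E (RR X) (LL X) (f (a j)) (vl (t j) n)) else 0) ≤
        (A.card : ℝ) * (Q * (2 ^ K * Ca a j * ((Real.log p / LL X) ^ 2 / p)) + 5 * 2 ^ (2 * K) * Real.exp (2 * LL X)) := by
      intro a ha
      apply mul_le_mul_of_nonneg_left _ (Nat.cast_nonneg _)
      exact hCa a j ha X h5 h6 W E a0 p t hCS.pos hCS.dv hpp hpE hGE (hWpX p hp) hDT
    refine (sum_le_sum b2).trans (le_of_eq ?_)
    have b3 : ∀ a ∈ A, (A.card : ℝ) * (Q * (2 ^ K * Ca a j * ((Real.log p / LL X) ^ 2 / p)) + 5 * 2 ^ (2 * K) * Real.exp (2 * LL X)) =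
        Q * ((Real.log p / LL X) ^ 2 / p) * ((A.card : ℝ) * (2 ^ K * Ca a j)) +
          (A.card : ℝ) * (5 * 2 ^ (2 * K) * Real.exp (2 * LL X)) := by
      intro a _; ring
    rw [sum_congr rfl b3, sum_add_distrib, ← mul_sum, sum_const, nsmul_eq_mul]
    ring
  -- exchange
  have hex : ∑ n ∈ Icc 1 ⌊3 * X⌋₊, ∑ j : Fin K, ∑ p ∈ PS δ X,
        nw X W a0 n * (if (p : ℤ) ∣ vl (t j) n then sqw E X f A (fun j => vl (t j) n) ^ 2 else 0) =
      ∑ j : Fin K, ∑ p ∈ PS δ X, ∑ n ∈ Icc 1 ⌊3 * X⌋₊,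
        nw X W a0 n * (if (p : ℤ) ∣ vl (t j) n then sqw E X f A (fun j => vl (t j) n) ^ 2 else 0) := by
    rw [sum_comm]
    apply sum_congr rfl
    intro j _
    rw [sum_comm]
  rw [hex]
  have hone : ∀ j : Fin K, ∀ p ∈ PS δ X, ∑ n ∈ Icc 1 ⌊3 * X⌋₊,
        nw X W a0 n * (if (p : ℤ) ∣ vl (t j) n then sqw E X f A (fun j => vl (t j) n) ^ 2 else 0) ≤
      Q * (II f A + 1) * (if p ∈ E ∧ ¬ p ∣ W then (1 / (p : ℝ)) else 0) +
      Q * (∑ a ∈ A, (A.card : ℝ) * (2 ^ K * Ca a j)) * ((Real.log p / LL X) ^ 2 / p) +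
      ((A.card : ℝ) ^ 2 * 5 + (A.card : ℝ) ^ 2 * (5 * 2 ^ (2 * K))) * Real.exp (2 * LL X) := by
    intro j p hp
    have hp0 : (0:ℝ) < p := by exact_mod_cast (mem_PS.1 hp).1.pos
    have c1 : 0 ≤ Q * (∑ a ∈ A, (A.card : ℝ) * (2 ^ K * Ca a j)) * ((Real.log p / LL X) ^ 2 / p) := by
      have : 0 ≤ ∑ a ∈ A, (A.card : ℝ) * (2 ^ K * Ca a j) := sum_nonneg fun a _ => by
        have := hCa0 a j; positivity
      positivity
    have c2 : 0 ≤ (A.card : ℝ) ^ 2 * 5 * Real.exp (2 * LL X) := by positivity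
    have c3 : 0 ≤ (A.card : ℝ) ^ 2 * (5 * 2 ^ (2 * K)) * Real.exp (2 * LL X) := by positivity
    have c4 : 0 ≤ Q * (II f A + 1) := by positivity
    by_cases hpW : p ∣ W
    · rw [hdivW j p hp hpW, if_neg (fun h => h.2 hpW), mul_zero, zero_add]
      rw [add_mul]
      linarith
    · by_cases hpE : p ∈ E
      · have := hinE j p hp hpE hpW
        rw [if_pos ⟨hpE, hpW⟩, add_mul]
        linarith
      · have := hnE j p hp hpE
        rw [if_neg (fun h => hpE h.1), mul_zero, zero_add, add_mul]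
        linarith
  refine (sum_le_sum fun j _ => sum_le_sum fun p hp => hone j p hp).trans ?_
  have hsplit : ∀ j : Fin K, ∑ p ∈ PS δ X, (Q * (II f A + 1) * (if p ∈ E ∧ ¬ p ∣ W then (1 / (p : ℝ)) else 0) +
      Q * (∑ a ∈ A, (A.card : ℝ) * (2 ^ K * Ca a j)) * ((Real.log p / LL X) ^ 2 / p) +
      ((A.card : ℝ) ^ 2 * 5 + (A.card : ℝ) ^ 2 * (5 * 2 ^ (2 * K))) * Real.exp (2 * LL X)) =
      Q * (II f A + 1) * ∑ p ∈ PS δ X, (if p ∈ E ∧ ¬ p ∣ W then (1 / (p : ℝ)) else 0) +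
      Q * (∑ a ∈ A, (A.card : ℝ) * (2 ^ K * Ca a j)) * ∑ p ∈ PS δ X, (Real.log p / LL X) ^ 2 / p +
      ((PS δ X).card : ℝ) * (((A.card : ℝ) ^ 2 * 5 + (A.card : ℝ) ^ 2 * (5 * 2 ^ (2 * K))) * Real.exp (2 * LL X)) := by
    intro j
    rw [sum_add_distrib, sum_add_distrib, ← mul_sum, ← mul_sum, sum_const, nsmul_eq_mul]
  rw [sum_congr rfl (fun j _ => hsplit j), sum_add_distrib, sum_add_distrib]
  have hsE : ∑ p ∈ PS δ X, (if p ∈ E ∧ ¬ p ∣ W then (1 / (p : ℝ)) else 0) ≤ δ := by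
    refine le_trans ?_ hE1
    rw [← sum_filter]
    apply sum_le_sum_of_subset_of_nonneg
    · intro p hp
      rw [mem_filter] at hp ⊢
      exact hp.2
    · intro p _ _; positivity
  have hcard := card_PS δ X
  have hexpδ : Real.exp (δ * LL X) ≤ Real.exp (LL X) := Real.exp_le_exp.2 (by nlinarith)
  have d1 : ∑ _j : Fin K, Q * (II f A + 1) * ∑ p ∈ PS δ X, (if p ∈ E ∧ ¬ p ∣ W then (1 / (p : ℝ)) else 0) ≤
      K * (II f A + 1) * δ * Q := by
    rw [sum_const, nsmul_eq_mul, card_univ, Fintype.card_fin]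
    have : Q * (II f A + 1) * ∑ p ∈ PS δ X, (if p ∈ E ∧ ¬ p ∣ W then (1 / (p : ℝ)) else 0) ≤ Q * (II f A + 1) * δ :=
      mul_le_mul_of_nonneg_left hsE (by positivity)
    calc (K : ℝ) * (Q * (II f A + 1) * ∑ p ∈ PS δ X, (if p ∈ E ∧ ¬ p ∣ W then (1 / (p : ℝ)) else 0)) ≤
        K * (Q * (II f A + 1) * δ) := mul_le_mul_of_nonneg_left this (Nat.cast_nonneg _)
      _ = _ := by ring
  have d2 : ∑ j : Fin K, Q * (∑ a ∈ A, (A.card : ℝ) * (2 ^ K * Ca a j)) * ∑ p ∈ PS δ X, (Real.log p / LL X) ^ 2 / p ≤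
      2 * Csum * δ * Q := by
    have e1 : ∀ j : Fin K, Q * (∑ a ∈ A, (A.card : ℝ) * (2 ^ K * Ca a j)) * ∑ p ∈ PS δ X, (Real.log p / LL X) ^ 2 / p ≤
        Q * (2 * δ) * (∑ a ∈ A, (A.card : ℝ) * (2 ^ K * Ca a j)) := by
      intro j
      have h0 : 0 ≤ ∑ a ∈ A, (A.card : ℝ) * (2 ^ K * Ca a j) := sum_nonneg fun a _ => by
        have := hCa0 a j; positivity
      have h10 : ∑ p ∈ PS δ X, (Real.log p / LL X) ^ 2 / p ≤ 2 * δ := by
        refine h2.trans ?_
        nlinarith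
      calc Q * (∑ a ∈ A, (A.card : ℝ) * (2 ^ K * Ca a j)) * ∑ p ∈ PS δ X, (Real.log p / LL X) ^ 2 / p ≤
          Q * (∑ a ∈ A, (A.card : ℝ) * (2 ^ K * Ca a j)) * (2 * δ) := mul_le_mul_of_nonneg_left h10 (by positivity)
        _ = _ := by ring
    refine (sum_le_sum fun j _ => e1 j).trans (le_of_eq ?_)
    rw [← mul_sum, hCsum]
    ring
  have d3 : ∑ _j : Fin K, ((PS δ X).card : ℝ) * (((A.card : ℝ) ^ 2 * 5 + (A.card : ℝ) ^ 2 * (5 * 2 ^ (2 * K))) * Real.exp (2 * LL X)) ≤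
      δ * Q := by
    rw [sum_const, nsmul_eq_mul, card_univ, Fintype.card_fin]
    refine le_trans ?_ (h3 W E hCS.pos hCS.le hCS.gs.pr)
    have e5 : Real.exp (3 * LL X) = Real.exp (LL X) * Real.exp (2 * LL X) := by rw [← Real.exp_add]; ring_nf
    have e6 : ((PS δ X).card : ℝ) ≤ Real.exp (LL X) := hcard.trans hexpδ
    calc (K : ℝ) * (((PS δ X).card : ℝ) * (((A.card : ℝ) ^ 2 * 5 + (A.card : ℝ) ^ 2 * (5 * 2 ^ (2 * K))) * Real.exp (2 * LL X))) ≤
        K * (Real.exp (LL X) * (((A.card : ℝ) ^ 2 * 5 + (A.card : ℝ) ^ 2 * (5 * 2 ^ (2 * K))) * Real.exp (2 * LL X))) := by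
          gcongr
      _ = Cerr * Real.exp (3 * LL X) := by rw [hCerr, e5]; ring
  linarith

end NR

/-- QL-11 -/
theorem t_NR (hW : S_WGT) (h1 : S_S1PR) (h2 : S_S1UP) : S_NR := NR.main hW h1 h2

end Pool.Agent.NH16.QL
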