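import Pool.Agent.NH16.QL.Stm
import Pool.Agent.H362R2.QT.ONE

/-!
# Module ONE of project QL: first moment
-/

set_option autoImplicit false

open Finset Filter Topology
open scoped ContDiff

namespace Pool.Agent.NH16.QL

open Pool.Agent.H378R2 Pool.Agent.H387R2 Pool.Agent.H387R2.MB Pool.Agent.H362R2.QT

namespace ONE

lemma Cn_mono {D θ θ' X : ℝ} {z z' W : ℕ} {E : Finset ℕ} {a0 : ℕ} {K : ℕ} {t : Fin K → ℕ}
    (h : Cn D θ' X z' W E a0 t) (hθ : θ' ≤ θ) (hz : z ≤ z') : Cn D θ X z W E a0 t :=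
  ⟨⟨h.cs.gs.mono hz, h.cs.pos, h.cs.le, h.cs.dv⟩, h.dl, h.cp, h.tl, h.sm.trans hθ⟩

lemma exists_pos_le {ι : Type} [Finite ι] (θ : ι → ℝ) (h : ∀ x, 0 < θ x) :
    ∃ θ0 : ℝ, 0 < θ0 ∧ ∀ x, θ0 ≤ θ x := by
  rcases isEmpty_or_nonempty ι with h0 | h0
  · exact ⟨1, one_pos, fun x => (h0.false x).elim⟩
  · obtain ⟨x0, hx0⟩ := Finite.exists_min θ
    exact ⟨θ x0, h x0, hx0⟩

lemma exists_ge_nat {ι : Type} [Finite ι] (z : ι → ℕ) : ∃ z0 : ℕ, ∀ x, z x ≤ z0 := by
  rcases isEmpty_or_nonempty ι with h0 | h0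
  · exact ⟨0, fun x => (h0.false x).elim⟩
  · obtain ⟨x0, hx0⟩ := Finite.exists_max z
    exact ⟨z x0, hx0⟩

/-- the product of the remaining forms -/
noncomputable def PQ {K0 B : ℕ} (E : Finset ℕ) (X : ℝ) (f : Fin B → ℝ → ℝ) (a b : Fin (K0 + 1) → Fin B)
    (i : Fin (K0 + 1)) (t : Fin (K0 + 1) → ℕ) (n : ℕ) : ℝ :=
  ∏ j : Fin K0, (VVm E (RR X) (LL X) (f (a (i.succAbove j))) (vl (t (i.succAbove j)) n) *
    VVm E (RR X) (LL X) (f (b (i.succAbove j))) (vl (t (i.succAbove j)) n))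

lemma sqw_prime {K0 B : ℕ} (E : Finset ℕ) (X : ℝ) (f : Fin B → ℝ → ℝ) (A : Finset (Fin (K0 + 1) → Fin B))
    (i : Fin (K0 + 1)) (t : Fin (K0 + 1) → ℕ) (n : ℕ) (hR : 1 ≤ RR X) (hp : (t i * n + 1).Prime)
    (hRp : RR X < t i * n + 1) :
    sqw E X f A (fun j => vl (t j) n) ^ 2 =
      ∑ a ∈ A, ∑ b ∈ A, f (a i) 0 * f (b i) 0 * PQ E X f a b i t n := by
  rw [sqw_sq]
  refine Finset.sum_congr rfl fun a _ => Finset.sum_congr rfl fun b _ => ?_
  rw [Fin.prod_univ_succAbove _ i]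
  have h1 : ∀ l, VVm E (RR X) (LL X) (f l) (vl (t i) n) = f l 0 := by
    intro l
    have := VV_prime E (RR X) hR (LL X) (f l) (t i * n + 1) hp hRp
    push_cast at this
    exact this
  rw [h1, h1]
  rfl

lemma ev_log (D δ : ℝ) (hδ : 0 < δ) : ∀ᶠ X : ℝ in atTop, Real.log 4 + D * Real.log (Real.log X) ≤
    δ * Real.log X := by
  have h1 : ∀ᶠ Y : ℝ in atTop, Real.log 4 + D * Real.log Y ≤ δ * Y := by
    have h2 : ∀ᶠ Y : ℝ in atTop, ‖Real.log Y‖ ≤ (δ / (2 * (|D| + 1))) * ‖(id Y : ℝ)‖ :=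
      Real.isLittleO_log_id_atTop.def (by positivity)
    filter_upwards [h2, eventually_ge_atTop 1, eventually_ge_atTop (Real.log 4 / (δ / 2))] with Y h3 h4 h5
    have h6 : Real.log 4 ≤ Y * (δ / 2) := by
      rwa [div_le_iff₀ (by positivity)] at h5
    have h7 : D * Real.log Y ≤ δ / 2 * Y := by
      have h8 : D * Real.log Y ≤ (|D| + 1) * ‖Real.log Y‖ := by
        calc D * Real.log Y ≤ |D * Real.log Y| := le_abs_self _
          _ = |D| * |Real.log Y| := abs_mul _ _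
          _ ≤ (|D| + 1) * |Real.log Y| := by
              apply mul_le_mul_of_nonneg_right (by linarith) (abs_nonneg _)
          _ = _ := rfl
      have h9 : (|D| + 1) * ‖Real.log Y‖ ≤ (|D| + 1) * ((δ / (2 * (|D| + 1))) * ‖(id Y : ℝ)‖) :=
        mul_le_mul_of_nonneg_left h3 (by positivity)
      have h10 : (|D| + 1) * ((δ / (2 * (|D| + 1))) * ‖(id Y : ℝ)‖) = δ / 2 * Y := by
        have : ‖(id Y : ℝ)‖ = Y := by
          rw [id, Real.norm_eq_abs, abs_of_nonneg (by linarith)]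
        rw [this]
        have : |D| + 1 ≠ 0 := by positivity
        field_simp
      linarith
    linarith
  exact Real.tendsto_log_atTop.eventually h1

end ONE

open Classical in
theorem t_ONE (hW : S_WGT) (h2 : S_S2) : S_ONE := by
  intro K0 B f c A hsm hcs hf0 hc hA hf1 ε hε
  set Jm : ℝ := ∑ i, |JJ f A i| + 1 with hJm
  have hJsum : 0 ≤ ∑ i, |JJ f A i| := sum_nonneg fun i _ => abs_nonneg _
  have hJm0 : 0 < Jm := by linarith
  have hJle : ∀ i, JJ f A i ≤ Jm := by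
    intro i
    have h1 : |JJ f A i| ≤ ∑ i, |JJ f A i| :=
      single_le_sum (f := fun i => |JJ f A i|) (fun i _ => abs_nonneg _) (mem_univ i)
    linarith [le_abs_self (JJ f A i)]
  set δ : ℝ := ε / (4 * Jm) with hδd
  have hδ0 : 0 < δ := by positivity
  have hδJ : δ * Jm ≤ ε / 4 := by
    rw [hδd]
    apply le_of_eq
    field_simp
  set ε1 : ℝ := ε / 4 / ((A.card : ℝ) ^ 2 + 1) with hε1
  have hε10 : 0 < ε1 := by positivity
  -- the data for all pairs
  have hz : ∀ x : Fin (K0 + 1) × (Fin (K0 + 1) → Fin B) × (Fin (K0 + 1) → Fin B),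
    ∃ θ : ℝ, 0 < θ ∧ ∃ z : ℕ, x.2.1 ∈ A → x.2.2 ∈ A → ∀ D : ℝ, ∀ᶠ X : ℝ in atTop,
      ∀ (W : ℕ) (E : Finset ℕ) (a0 : ℕ) (t : Fin (K0 + 1) → ℕ), Cn D θ X z W E a0 t →
      |∑ n ∈ Icc 1 ⌊3 * X⌋₊, nw X W a0 n * th (t x.1 * n + 1) * ONE.PQ E X f x.2.1 x.2.2 x.1 t n -
        LL X * QM (K0 + 1) X W E *
          ∏ j : Fin K0, DD (f (x.2.1 (x.1.succAbove j))) (f (x.2.2 (x.1.succAbove j)))| ≤
      ε1 * (LL X * QM (K0 + 1) X W E) := by
    rintro ⟨i, a, b⟩
    by_cases hab : a ∈ A ∧ b ∈ A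
    · have hsum : ∑ j : Fin K0, c (a (i.succAbove j)) + ∑ j : Fin K0, c (b (i.succAbove j)) ≤ 2 * 1 := by
        have h3 := sum_succAbove_le c (fun l => (hc l).1) a i
        have h4 := sum_succAbove_le c (fun l => (hc l).1) b i
        have h5 := hA a hab.1
        have h6 := hA b hab.2
        linarith
      obtain ⟨θ, hθ, z, hz⟩ := h2 (fun j => f (a (i.succAbove j))) (fun j => f (b (i.succAbove j)))
        (fun j => c (a (i.succAbove j))) (fun j => c (b (i.succAbove j))) 1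
        (fun j => hsm _) (fun j => hsm _) (fun j => hcs _) (fun j => hcs _)
        (fun j x => hf1 _ x) (fun j x => hf1 _ x) (fun j x hx => hf0 _ x hx) (fun j x hx => hf0 _ x hx)
        hsum zero_le_one (by norm_num) ε1 hε10
      refine ⟨θ, hθ, z, fun _ _ D => ?_⟩
      filter_upwards [hz D, LL_tendsto.eventually_ge_atTop 2] with X h3 h4
      intro W E a0 t hC
      exact h3 (RR X) W E a0 t (fun j x hx => by
        have h5 := supp_aux h4 hx
        exact ⟨hf0 _ x ((hc _).2.trans_lt h5), hf0 _ x ((hc _).2.trans_lt h5)⟩) hC i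
    · exact ⟨1, one_pos, 0, fun h3 h4 => absurd ⟨h3, h4⟩ hab⟩
  choose θf hθf zf hzf using hz
  obtain ⟨θ, hθ0, hθle⟩ := ONE.exists_pos_le θf hθf
  obtain ⟨z, hzle⟩ := ONE.exists_ge_nat zf
  refine ⟨θ, hθ0, z, fun D => ?_⟩
  have hev : ∀ᶠ X : ℝ in atTop, ∀ x : Fin (K0 + 1) × (Fin (K0 + 1) → Fin B) × (Fin (K0 + 1) → Fin B),
      x.2.1 ∈ A → x.2.2 ∈ A →
      ∀ (W : ℕ) (E : Finset ℕ) (a0 : ℕ) (t : Fin (K0 + 1) → ℕ), Cn D θ X z W E a0 t →
      |∑ n ∈ Icc 1 ⌊3 * X⌋₊, nw X W a0 n * th (t x.1 * n + 1) * ONE.PQ E X f x.2.1 x.2.2 x.1 t n -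
        LL X * QM (K0 + 1) X W E *
          ∏ j : Fin K0, DD (f (x.2.1 (x.1.succAbove j))) (f (x.2.2 (x.1.succAbove j)))| ≤
      ε1 * (LL X * QM (K0 + 1) X W E) := by
    rw [Filter.eventually_all]
    intro x
    by_cases hab : x.2.1 ∈ A ∧ x.2.2 ∈ A
    · filter_upwards [hzf x hab.1 hab.2 D] with X h3
      intro _ _ W E a0 t hC
      exact h3 W E a0 t (ONE.Cn_mono hC (hθle x) (hzle x))
    · filter_upwards with X h3 h4
      exact absurd ⟨h3, h4⟩ hab
  have hR : ∀ᶠ X : ℝ in atTop, 1 ≤ RR X ∧ (RR X : ℝ) < X := by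
    filter_upwards [LL_tendsto.eventually_ge_atTop 1, eventually_gt_atTop 1] with X h1 h2
    have hlog : 0 < Real.log X := Real.log_pos h2
    constructor
    · unfold RR
      apply Nat.le_floor
      rw [Nat.cast_one]
      exact Real.one_le_exp (by linarith)
    · unfold RR
      calc (⌊Real.exp (LL X)⌋₊ : ℝ) ≤ Real.exp (LL X) := Nat.floor_le (Real.exp_pos _).le
        _ < Real.exp (Real.log X) := by
            apply Real.exp_lt_exp.2
            unfold LL
            linarith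
        _ = X := Real.exp_log (by linarith)
  filter_upwards [hev, hR, eventually_ge_atTop 16, LL_tendsto.eventually_ge_atTop 1,
    ONE.ev_log D δ hδ0] with X h1 h3 h4 h5 h6
  intro W E a0 t hC i
  have hX0 : 0 < X := by linarith
  have hL0 : 0 < LL X := by linarith
  have hW0 : 0 < W := hC.cs.pos
  have hMP : 0 ≤ MP X := hW.mnn X
  have hBE : 0 < BE E := BE_pos hC.cs.gs.pr
  have hQ0 : 0 ≤ QM (K0 + 1) X W E := by unfold QM; positivity
  have hnw0 : ∀ n, 0 ≤ nw X W a0 n := by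
    intro n
    unfold nw
    split_ifs
    · exact hW.nn _
    · exact le_rfl
  set w : ℕ → ℝ := fun n => sqw E X f A (fun j => vl (t j) n) ^ 2 with hw
  have hw0 : ∀ n, 0 ≤ w n := fun n => sq_nonneg _
  set S := ∑ n ∈ Icc 1 ⌊3 * X⌋₊, nw X W a0 n * (if (t i * n + 1).Prime then w n else 0) with hS
  have hS0 : 0 ≤ S := sum_nonneg fun n _ => mul_nonneg (hnw0 n) (by split_ifs; exacts [hw0 n, le_rfl])
  have hti : (1 : ℝ) ≤ t i := by exact_mod_cast hC.dl.pos i
  have htl := hC.tl i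
  have hlog0 : 0 < Real.log X := Real.log_pos (by linarith)
  have hlD : 1 ≤ Real.log X ^ D := hti.trans htl
  have e1 : ∑ n ∈ Icc 1 ⌊3 * X⌋₊, nw X W a0 n * (w n * th (t i * n + 1)) ≤
      (200 * LL X * (1 + δ)) * S := by
    rw [hS, mul_sum]
    apply sum_le_sum
    intro n hn
    rw [mem_Icc] at hn
    have hn3 : (n : ℝ) ≤ 3 * X := (Nat.le_floor_iff (by positivity)).1 hn.2
    have hnu := hnw0 n
    have e2 : w n * th (t i * n + 1) ≤ (200 * LL X * (1 + δ)) * (if (t i * n + 1).Prime then w n else 0) := by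
      unfold th
      split_ifs with hp
      · rw [mul_comm]
        apply mul_le_mul_of_nonneg_right _ (hw0 n)
        have e3 : ((t i * n + 1 : ℕ) : ℝ) ≤ 4 * X * Real.log X ^ D := by
          push_cast
          have e4 : (t i : ℝ) * n ≤ Real.log X ^ D * (3 * X) :=
            mul_le_mul htl hn3 (Nat.cast_nonneg _) (by linarith)
          have e5 : 1 ≤ X * Real.log X ^ D := by
            calc (1 : ℝ) = 1 * 1 := by ring
              _ ≤ X * Real.log X ^ D := mul_le_mul (by linarith) hlD zero_le_one (by linarith)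
          linarith
        have e6 : Real.log ((t i * n + 1 : ℕ) : ℝ) ≤ Real.log (4 * X * Real.log X ^ D) :=
          Real.log_le_log (by exact_mod_cast hp.pos) e3
        have e7 : Real.log (4 * X * Real.log X ^ D) = Real.log 4 + Real.log X + D * Real.log (Real.log X) := by
          rw [Real.log_mul (by positivity) (by linarith), Real.log_mul (by norm_num) (by linarith),
            Real.log_rpow hlog0]
        have e8 : 200 * LL X * (1 + δ) = Real.log X + δ * Real.log X := by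
          unfold LL; ring
        rw [e8]
        linarith
      · simp
    calc nw X W a0 n * (w n * th (t i * n + 1)) ≤
        nw X W a0 n * ((200 * LL X * (1 + δ)) * (if (t i * n + 1).Prime then w n else 0)) :=
          mul_le_mul_of_nonneg_left e2 hnu
      _ = _ := by ring
  -- expansion
  have hterm : ∀ n ∈ Icc 1 ⌊3 * X⌋₊, nw X W a0 n * (w n * th (t i * n + 1)) =
      ∑ a ∈ A, ∑ b ∈ A, f (a i) 0 * f (b i) 0 * (nw X W a0 n * th (t i * n + 1) * ONE.PQ E X f a b i t n) := by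
    intro n _
    by_cases hz : nw X W a0 n * th (t i * n + 1) = 0
    · have e2 : nw X W a0 n * (w n * th (t i * n + 1)) = (nw X W a0 n * th (t i * n + 1)) * w n := by ring
      rw [e2, hz, zero_mul]
      symm
      apply Finset.sum_eq_zero; intro a _
      apply Finset.sum_eq_zero; intro b _
      rw [zero_mul, mul_zero]
    · have hnu : nw X W a0 n ≠ 0 := fun h => hz (by rw [h, zero_mul])
      have hth : th (t i * n + 1) ≠ 0 := fun h => hz (by rw [h, mul_zero])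
      have hp : (t i * n + 1).Prime := by
        by_contra hnp
        apply hth
        unfold th
        rw [if_neg hnp]
      have hXn : X < n := by
        by_contra hle
        push Not at hle
        apply hnu
        unfold nw
        rw [hW.low _ (by positivity) (by rw [div_le_one (by linarith)]; exact hle), ite_self]
      have hRn : RR X < t i * n + 1 := by
        have h7 : (RR X : ℝ) < n := h3.2.trans hXn
        have h8 : RR X < n := by exact_mod_cast h7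
        have h9 : 1 * n ≤ t i * n := Nat.mul_le_mul_right _ (hC.dl.pos i)
        omega
      have h10 : w n = ∑ a ∈ A, ∑ b ∈ A, f (a i) 0 * f (b i) 0 * ONE.PQ E X f a b i t n :=
        ONE.sqw_prime E X f A i t n h3.1 hp hRn
      rw [h10, Finset.sum_mul, Finset.mul_sum]
      refine Finset.sum_congr rfl fun a _ => ?_
      rw [Finset.sum_mul, Finset.mul_sum]
      refine Finset.sum_congr rfl fun b _ => ?_
      ring
  rw [Finset.sum_congr rfl hterm] at e1
  have hexch : ∑ n ∈ Icc 1 ⌊3 * X⌋₊, ∑ a ∈ A, ∑ b ∈ A,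
      f (a i) 0 * f (b i) 0 * (nw X W a0 n * th (t i * n + 1) * ONE.PQ E X f a b i t n) =
      ∑ a ∈ A, ∑ b ∈ A, f (a i) 0 * f (b i) 0 *
        ∑ n ∈ Icc 1 ⌊3 * X⌋₊, nw X W a0 n * th (t i * n + 1) * ONE.PQ E X f a b i t n := by
    rw [Finset.sum_comm]
    refine Finset.sum_congr rfl fun a _ => ?_
    rw [Finset.sum_comm]
    refine Finset.sum_congr rfl fun b _ => ?_
    rw [Finset.mul_sum]
  rw [hexch] at e1
  set Q := QM (K0 + 1) X W E with hQ
  have hM1nn : 0 ≤ LL X * Q := mul_nonneg hL0.le hQ0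
  have hpair : ∀ a ∈ A, ∀ b ∈ A, LL X * Q * (f (a i) 0 * f (b i) 0 * ∏ j : Fin K0, DD (f (a (i.succAbove j))) (f (b (i.succAbove j)))) -
      ε1 * (LL X * Q) ≤ f (a i) 0 * f (b i) 0 *
        ∑ n ∈ Icc 1 ⌊3 * X⌋₊, nw X W a0 n * th (t i * n + 1) * ONE.PQ E X f a b i t n := by
    intro a ha b hb
    have k1 := h1 (i, a, b) ha hb W E a0 t hC
    dsimp only at k1
    have k2 : |f (a i) 0 * f (b i) 0| ≤ 1 := by
      rw [abs_mul]
      calc |f (a i) 0| * |f (b i) 0| ≤ 1 * 1 := mul_le_mul (hf1 _ _) (hf1 _ _) (abs_nonneg _) zero_le_one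
        _ = 1 := one_mul 1
    set U := ∑ n ∈ Icc 1 ⌊3 * X⌋₊, nw X W a0 n * th (t i * n + 1) * ONE.PQ E X f a b i t n
    set Dp := ∏ j : Fin K0, DD (f (a (i.succAbove j))) (f (b (i.succAbove j)))
    have k3 : |f (a i) 0 * f (b i) 0 * (U - LL X * Q * Dp)| ≤ ε1 * (LL X * Q) := by
      rw [abs_mul]
      calc |f (a i) 0 * f (b i) 0| * |U - LL X * Q * Dp| ≤ 1 * (ε1 * (LL X * Q)) :=
            mul_le_mul k2 k1 (abs_nonneg _) zero_le_one
        _ = _ := one_mul _
    have k4 := (abs_le.1 k3).1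
    have k5 : f (a i) 0 * f (b i) 0 * (U - LL X * Q * Dp) = f (a i) 0 * f (b i) 0 * U -
        LL X * Q * (f (a i) 0 * f (b i) 0 * Dp) := by
      ring
    rw [k5] at k4
    linarith
  have e2 := Finset.sum_le_sum fun a ha => Finset.sum_le_sum fun b hb => hpair a ha b hb
  simp_rw [Finset.sum_sub_distrib, ← Finset.mul_sum, Finset.sum_const, nsmul_eq_mul] at e2
  have hJ : JJ f A i = ∑ a ∈ A, ∑ b ∈ A, f (a i) 0 * f (b i) 0 * ∏ j : Fin K0, DD (f (a (i.succAbove j))) (f (b (i.succAbove j))) := rfl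
  rw [← hJ] at e2
  have hfin : (A.card : ℝ) * ((A.card : ℝ) * (ε1 * (LL X * Q))) ≤ ε / 4 * (LL X * Q) := by
    have e3 : (A.card : ℝ) * ((A.card : ℝ) * (ε1 * (LL X * Q))) =
        ((A.card : ℝ) ^ 2 / ((A.card : ℝ) ^ 2 + 1)) * (ε / 4 * (LL X * Q)) := by rw [hε1]; ring
    rw [e3]
    have h7 : (A.card : ℝ) ^ 2 / ((A.card : ℝ) ^ 2 + 1) ≤ 1 := by
      rw [div_le_one (by positivity)]; linarith
    calc ((A.card : ℝ) ^ 2 / ((A.card : ℝ) ^ 2 + 1)) * (ε / 4 * (LL X * Q)) ≤ 1 * (ε / 4 * (LL X * Q)) :=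
          mul_le_mul_of_nonneg_right h7 (by positivity)
      _ = _ := one_mul _
  have e3 : LL X * Q * (JJ f A i - ε / 4) - 0 ≤ (200 * LL X * (1 + δ)) * S := by
    have e4 : LL X * Q * (JJ f A i - ε / 4) = LL X * Q * JJ f A i - ε / 4 * (LL X * Q) := by ring
    rw [e4]
    linarith
  exact ONEaux.final_alg hε hL0 hQ0 le_rfl hδ0.le (hJle i) (by linarith : (1 - 2 * 0) * (LL X * Q) ≤ LL X * Q)
    (by norm_num) (by rw [mul_zero, zero_mul]; positivity) hδJ (by positivity) le_rfl hS0 e3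

end Pool.Agent.NH16.QL
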