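import Mathlib
import Pool.Agent.NH16.QL.Stm
import Pool.Agent.H362R2.QT.PRG
import Pool.Agent.H362R2.QT.RAMP

/-!
Project QL, module PAIR (helper84): pairs of primes, from the second sum and the linear ramp.
Port of `Pool/Agent/H362R2/QT/PAIR.lean`.
-/

set_option autoImplicit false

open Finset Filter Topology
open scoped ContDiff

namespace Pool.Agent.NH16.QL

open Pool.Agent.H378R2 Pool.Agent.H387R2 Pool.Agent.H387R2.MB Pool.Agent.H362R2.QT

namespace PAIR

/-- the longer range of divisors does not matter for functions supported on `x ≤ 1/2` -/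
theorem VV_long (E : Finset ℕ) (X : ℝ) (hL : 2 ≤ LL X) (F : ℝ → ℝ) (hF : ∀ x, 1 / 2 < x → F x = 0) (x : ℤ) :
    VVm E (RG X) (LL X) F x = VVm E (RR X) (LL X) F x := by
  have hRR : RR X ≤ RG X := by
    unfold RR RG
    apply Nat.floor_le_floor
    apply Real.exp_le_exp.2
    linarith
  have hR1 : 1 ≤ RR X := by
    unfold RR
    apply Nat.le_floor
    rw [Nat.cast_one]
    exact Real.one_le_exp (by linarith)
  unfold VVm
  symm
  apply Finset.sum_subset
  · intro d hd
    rw [mem_adm] at hd ⊢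
    exact ⟨⟨hd.1.1, hd.1.2.trans hRR⟩, hd.2⟩
  · intro d hd hd'
    rw [mem_adm] at hd hd'
    have h1 : RR X < d := by
      by_contra h
      exact hd' ⟨⟨hd.1.1, not_lt.1 h⟩, hd.2⟩
    have h2 : Real.log (RR X) / LL X < Real.log d / LL X := by
      apply div_lt_div_of_pos_right _ (by linarith)
      apply Real.log_lt_log (by exact_mod_cast hR1)
      exact_mod_cast h1
    rw [hF _ (supp_aux hL h2), mul_zero, ite_self]

/-- the ramp is optimal -/
theorem DD_ge (V : ℝ) (hV : 0 < V) (G : ℝ → ℝ) (hsm : ContDiff ℝ ∞ G) (hcs : HasCompactSupport G) (h0 : G 0 = 1)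
    (hz : ∀ x, V < x → G x = 0) : 1 / V ≤ DD G G := by
  have hc : Continuous (deriv G) := hsm.continuous_deriv (by simp)
  have hdcs : HasCompactSupport (deriv G) := hcs.deriv
  have hint : MeasureTheory.Integrable (fun t => deriv G t * deriv G t) :=
    (hc.mul hc).integrable_of_hasCompactSupport hdcs.mul_left
  have hGV : G V = 0 := by
    have h1 : Tendsto G (𝓝[>] V) (𝓝 (G V)) := (hsm.continuous.tendsto V).mono_left nhdsWithin_le_nhds
    have h2 : Tendsto G (𝓝[>] V) (𝓝 0) := by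
      apply tendsto_const_nhds.congr'
      filter_upwards [self_mem_nhdsWithin] with x hx
      exact (hz x hx).symm
    exact tendsto_nhds_unique h1 h2
  have h1 : ∫ t in (0:ℝ)..V, deriv G t * deriv G t ≤ DD G G := by
    rw [intervalIntegral.integral_of_le hV.le]
    unfold DD
    apply MeasureTheory.setIntegral_mono_set hint.integrableOn
    · exact Filter.Eventually.of_forall fun x => mul_self_nonneg _
    · exact (Set.Ioc_subset_Ioi_self).eventuallyLE
  have h2 : 0 ≤ ∫ t in (0:ℝ)..V, (deriv G t + 1 / V) ^ 2 :=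
    intervalIntegral.integral_nonneg hV.le fun x _ => sq_nonneg _
  have h3 : ∫ t in (0:ℝ)..V, (deriv G t + 1 / V) ^ 2 =
      (∫ t in (0:ℝ)..V, deriv G t * deriv G t) + (2 / V) * (∫ t in (0:ℝ)..V, deriv G t) + 1 / V := by
    have e1 : ∀ t, (deriv G t + 1 / V) ^ 2 = (deriv G t * deriv G t + (2 / V) * deriv G t) + (1 / V) ^ 2 := by
      intro t; ring
    simp_rw [e1]
    have i1 : IntervalIntegrable (fun t => deriv G t * deriv G t) MeasureTheory.volume 0 V :=
      (hc.mul hc).intervalIntegrable _ _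
    have i2 : IntervalIntegrable (fun t => (2 / V) * deriv G t) MeasureTheory.volume 0 V :=
      (continuous_const.mul hc).intervalIntegrable _ _
    rw [intervalIntegral.integral_add (i1.add i2) (by simp), intervalIntegral.integral_add i1 i2,
      intervalIntegral.integral_const_mul, intervalIntegral.integral_const, smul_eq_mul]
    congr 1
    field_simp
    ring
  have h4 : ∫ t in (0:ℝ)..V, deriv G t = -1 := by
    rw [intervalIntegral.integral_deriv_eq_sub (fun x _ => (hsm.differentiable (by simp)).differentiableAt)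
      (hc.intervalIntegrable _ _), hGV, h0]
    ring
  rw [h4] at h3
  have h5 : (2 / V) * (-1 : ℝ) + 1 / V = -(1 / V) := by ring
  linarith

/-- the function at the coordinate `j` -/
noncomputable def FJ {K0 B : ℕ} (f : Fin B → ℝ → ℝ) (G : ℝ → ℝ) (a : Fin (K0 + 1) → Fin B) (i : Fin (K0 + 1))
    (j0 j : Fin K0) : ℝ → ℝ := if j = j0 then G else f (a (i.succAbove j))

lemma FJ_self {K0 B : ℕ} (f : Fin B → ℝ → ℝ) (G : ℝ → ℝ) (a : Fin (K0 + 1) → Fin B) (i : Fin (K0 + 1))
    (j0 : Fin K0) : FJ f G a i j0 j0 = G := by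
  unfold FJ
  rw [if_pos rfl]

lemma FJ_ne {K0 B : ℕ} (f : Fin B → ℝ → ℝ) (G : ℝ → ℝ) (a : Fin (K0 + 1) → Fin B) (i : Fin (K0 + 1))
    {j0 j : Fin K0} (h : j ≠ j0) : FJ f G a i j0 j = f (a (i.succAbove j)) := by
  unfold FJ
  rw [if_neg h]

/-- the product away from `i`, with the long function `G` at `j0` -/
noncomputable def PRD {K0 B : ℕ} (E : Finset ℕ) (X : ℝ) (f : Fin B → ℝ → ℝ) (G : ℝ → ℝ)
    (a b : Fin (K0 + 1) → Fin B) (i : Fin (K0 + 1)) (j0 : Fin K0) (t : Fin (K0 + 1) → ℕ) (n : ℕ) : ℝ :=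
  ∏ j : Fin K0, (VVm E (RG X) (LL X) (FJ f G a i j0 j) (vl (t (i.succAbove j)) n) *
    VVm E (RG X) (LL X) (FJ f G b i j0 j) (vl (t (i.succAbove j)) n))

/-- the comparison sum -/
noncomputable def Sq {K0 B : ℕ} (E : Finset ℕ) (X : ℝ) (f : Fin B → ℝ → ℝ) (G : ℝ → ℝ)
    (A : Finset (Fin (K0 + 1) → Fin B)) (i : Fin (K0 + 1)) (j0 : Fin K0) (t : Fin (K0 + 1) → ℕ) (n : ℕ) : ℝ :=
  ∑ a ∈ A, ∑ b ∈ A, (f (a i) 0 * f (b i) 0) * (f (a (i.succAbove j0)) 0 * f (b (i.succAbove j0)) 0) *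
    PRD E X f G a b i j0 t n

theorem Sq_nonneg {K0 B : ℕ} (E : Finset ℕ) (X : ℝ) (f : Fin B → ℝ → ℝ) (G : ℝ → ℝ)
    (A : Finset (Fin (K0 + 1) → Fin B)) (i : Fin (K0 + 1)) (j0 : Fin K0) (t : Fin (K0 + 1) → ℕ) (n : ℕ) :
    0 ≤ Sq E X f G A i j0 t n := by
  have h : Sq E X f G A i j0 t n = (∑ a ∈ A, f (a i) 0 * f (a (i.succAbove j0)) 0 *
      ∏ j : Fin K0, VVm E (RG X) (LL X) (FJ f G a i j0 j) (vl (t (i.succAbove j)) n)) ^ 2 := by
    rw [sq, Finset.sum_mul_sum]
    unfold Sq PRD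
    refine Finset.sum_congr rfl fun a _ => Finset.sum_congr rfl fun b _ => ?_
    rw [Finset.prod_mul_distrib]
    ring
  rw [h]
  exact sq_nonneg _

theorem sqw_eq_Sq {K0 B : ℕ} (E : Finset ℕ) (X : ℝ) (f : Fin B → ℝ → ℝ) (G : ℝ → ℝ)
    (A : Finset (Fin (K0 + 1) → Fin B)) (i : Fin (K0 + 1)) (j0 : Fin K0) (t : Fin (K0 + 1) → ℕ) (n : ℕ)
    (hL : 2 ≤ LL X) (hf : ∀ l x, 1 / 2 < x → f l x = 0) (hG : G 0 = 1)
    (hp : (t i * n + 1).Prime) (hq : (t (i.succAbove j0) * n + 1).Prime)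
    (hRp : RG X < t i * n + 1) (hRq : RG X < t (i.succAbove j0) * n + 1) :
    sqw E X f A (fun j => vl (t j) n) ^ 2 = Sq E X f G A i j0 t n := by
  classical
  have hRR : RR X ≤ RG X := by
    unfold RR RG
    apply Nat.floor_le_floor
    apply Real.exp_le_exp.2
    linarith
  have hR1 : 1 ≤ RR X := by
    unfold RR
    apply Nat.le_floor
    rw [Nat.cast_one]
    exact Real.one_le_exp (by linarith)
  have hvl : ∀ s : ℕ, vl s n = ((s * n + 1 : ℕ) : ℤ) := by
    intro s
    unfold vl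
    push_cast
    ring
  have h0 : ∀ l, VVm E (RR X) (LL X) (f l) (vl (t i) n) = f l 0 := by
    intro l
    rw [hvl]
    exact VV_prime E (RR X) hR1 (LL X) (f l) _ hp (lt_of_le_of_lt hRR hRp)
  have h1 : ∀ l, VVm E (RR X) (LL X) (f l) (vl (t (i.succAbove j0)) n) = f l 0 := by
    intro l
    rw [hvl]
    exact VV_prime E (RR X) hR1 (LL X) (f l) _ hq (lt_of_le_of_lt hRR hRq)
  have h2 : VVm E (RG X) (LL X) G (vl (t (i.succAbove j0)) n) = 1 := by
    rw [hvl, VV_prime E (RG X) (hR1.trans hRR) (LL X) G _ hq hRq, hG]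
  rw [sqw_sq]
  unfold Sq
  refine Finset.sum_congr rfl fun a _ => Finset.sum_congr rfl fun b _ => ?_
  rw [Fin.prod_univ_succAbove _ i, h0, h0, mul_assoc (f (a i) 0 * f (b i) 0)]
  congr 1
  unfold PRD
  rw [← Finset.mul_prod_erase univ _ (mem_univ j0), ← Finset.mul_prod_erase univ _ (mem_univ j0)]
  rw [h1, h1, FJ_self, FJ_self, h2, one_mul, one_mul]
  congr 1
  refine Finset.prod_congr rfl fun j hj => ?_
  rw [FJ_ne _ _ _ _ (Finset.ne_of_mem_erase hj), FJ_ne _ _ _ _ (Finset.ne_of_mem_erase hj),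
    VV_long E X hL _ (hf _), VV_long E X hL _ (hf _)]

lemma exists_pos_le {ι : Type*} (s : Finset ι) (g : ι → ℝ) (hg : ∀ i ∈ s, 0 < g i) :
    ∃ θ : ℝ, 0 < θ ∧ ∀ i ∈ s, θ ≤ g i := by
  classical
  induction s using Finset.induction_on with
  | empty => exact ⟨1, one_pos, by simp⟩
  | insert a s ha ih =>
    obtain ⟨θ, h1, h2⟩ := ih fun i hi => hg i (Finset.mem_insert_of_mem hi)
    refine ⟨min θ (g a), lt_min h1 (hg a (Finset.mem_insert_self _ _)), fun i hi => ?_⟩
    rcases Finset.mem_insert.1 hi with rfl | hi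
    · exact min_le_right _ _
    · exact (min_le_left _ _).trans (h2 i hi)

lemma Cn_mono {D θ θ' X : ℝ} {z z' W : ℕ} {E : Finset ℕ} {a0 : ℕ} {K : ℕ} {t : Fin K → ℕ}
    (h : Cn D θ X z W E a0 t) (hθ : θ ≤ θ') (hz : z' ≤ z) : Cn D θ' X z' W E a0 t :=
  ⟨⟨h.cs.gs.mono hz, h.cs.pos, h.cs.le, h.cs.dv⟩, h.dl, h.cp, h.tl, h.sm.trans hθ⟩

lemma nw_nonneg (hW : S_WGT) (X : ℝ) (W a n : ℕ) : 0 ≤ nw X W a n := by
  unfold nw
  split_ifs
  · exact hW.nn _
  · exact le_rfl

lemma QM_nonneg (hW : S_WGT) (K : ℕ) {X : ℝ} (hX : 0 < LL X) (W : ℕ) {E : Finset ℕ} (hE : ∀ p ∈ E, p.Prime) :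
    0 ≤ QM K X W E := by
  have h1 := BE_pos hE
  have h2 := hW.mnn X
  unfold QM
  positivity

/-- final real inequality -/
lemma final_alg {T P J D V ε ε1 ε2 Jm n2 : ℝ} (hV : 0 < V) (hP : 0 ≤ P)
    (hJ : |J| ≤ Jm) (hD1 : 1 / V ≤ D) (hD2 : D ≤ 1 / V + ε2)
    (c2 : ε2 * Jm ≤ ε / 2) (c3 : n2 * ε1 ≤ ε / 2)
    (hT : T ≤ P * (D * J) + n2 * (ε1 * P)) : T ≤ P * (J / V + ε) := by
  have hJm : 0 ≤ Jm := (abs_nonneg _).trans hJ
  have hJab := abs_le.1 hJ
  have a1 : D * J ≤ J / V + ε2 * Jm := by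
    have h1 : (D - 1 / V) * J ≤ ε2 * Jm := by
      refine (mul_le_mul_of_nonneg_left hJab.2 (by linarith : 0 ≤ D - 1 / V)).trans ?_
      exact mul_le_mul_of_nonneg_right (by linarith) hJm
    have h2 : D * J = J / V + (D - 1 / V) * J := by ring
    linarith
  have a2 := mul_le_mul_of_nonneg_left a1 hP
  have b2 := mul_le_mul_of_nonneg_left c2 hP
  have b3 := mul_le_mul_of_nonneg_left c3 hP
  have e1 : n2 * (ε1 * P) = P * (n2 * ε1) := by ring
  have e2 : P * (J / V + ε) = P * (J / V) + P * (ε / 2) + P * (ε / 2) := by ring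
  have e3 : P * (J / V + ε2 * Jm) = P * (J / V) + P * (ε2 * Jm) := by ring
  linarith

end PAIR

open PAIR

open Classical in
theorem t_PAIR (hW : S_WGT) (h2 : S_S2) : S_PAIR := by
  intro K0 B f c A V ρ hsm hcs hf0 hc hA hf1 hV hρ hρ1 hVρ ε hε
  -- constants
  set Jm : ℝ := ∑ i : Fin (K0 + 1), ∑ j0 : Fin K0, |JJ2 f A i j0| with hJm
  have hJm0 : 0 ≤ Jm := Finset.sum_nonneg fun i _ => Finset.sum_nonneg fun j _ => abs_nonneg _
  have hJle : ∀ i j0, |JJ2 f A i j0| ≤ Jm := by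
    intro i j0
    refine le_trans (Finset.single_le_sum (f := fun j0 => |JJ2 f A i j0|) (fun j _ => abs_nonneg _) (mem_univ j0)) ?_
    exact Finset.single_le_sum (f := fun i => ∑ j0 : Fin K0, |JJ2 f A i j0|)
      (fun i _ => Finset.sum_nonneg fun j _ => abs_nonneg _) (mem_univ i)
  set n2 : ℝ := (A.card : ℝ) ^ 2 with hn2
  have hn20 : 0 ≤ n2 := by positivity
  set ε2 : ℝ := ε / (2 * (Jm + 1)) with hε2
  have hε20 : 0 < ε2 := by positivity
  have c2 : ε2 * Jm ≤ ε / 2 := by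
    have h4 : ε2 * (2 * (Jm + 1)) = ε := by rw [hε2]; field_simp
    nlinarith
  set ε1 : ℝ := ε / (2 * (n2 + 1)) with hε1
  have hε10 : 0 < ε1 := by positivity
  have c3 : n2 * ε1 ≤ ε / 2 := by
    have h4 : ε1 * (2 * (n2 + 1)) = ε := by rw [hε1]; field_simp
    nlinarith
  obtain ⟨G, hGsm, hGcs, hG0, hG1, hGz, hGD⟩ := RAMP V ε2 hV hε20
  have hDge := DD_ge V hV G hGsm hGcs hG0 hGz
  have hv : max V (1 / 2) < 50 := max_lt (by linarith) (by norm_num)
  -- properties of the functions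
  have pF : ∀ (Q : (ℝ → ℝ) → Prop), Q G → (∀ l, Q (f l)) → ∀ (a : Fin (K0 + 1) → Fin B) (i : Fin (K0 + 1)) (j0 j : Fin K0),
      Q (FJ f G a i j0 j) := by
    intro Q hQG hQf a i j0 j
    unfold FJ
    split_ifs
    · exact hQG
    · exact hQf _
  -- thresholds
  have key : ∀ q : Fin (K0 + 1) × Fin K0 × (Fin (K0 + 1) → Fin B) × (Fin (K0 + 1) → Fin B),
      ∃ θ : ℝ, 0 < θ ∧ ∃ z : ℕ, q.2.2.1 ∈ A → q.2.2.2 ∈ A → ∀ D : ℝ, ∀ᶠ X : ℝ in atTop,
      ∀ (W : ℕ) (E : Finset ℕ) (a0 : ℕ) (t : Fin (K0 + 1) → ℕ), Cn D θ X z W E a0 t →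
      |∑ n ∈ Icc 1 ⌊3 * X⌋₊, nw X W a0 n * th (t q.1 * n + 1) * PRD E X f G q.2.2.1 q.2.2.2 q.1 q.2.1 t n -
        LL X * QM (K0 + 1) X W E * (DD G G * ∏ j ∈ (univ : Finset (Fin K0)).erase q.2.1,
          DD (f (q.2.2.1 (q.1.succAbove j))) (f (q.2.2.2 (q.1.succAbove j))))| ≤
      ε1 * (LL X * QM (K0 + 1) X W E) := by
    rintro ⟨i, j0, a, b⟩
    by_cases hab : a ∈ A ∧ b ∈ A
    · obtain ⟨θ, hθ, z, hz⟩ := h2 (FJ f G a i j0) (FJ f G b i j0)
        (fun j => if j = j0 then V else c (a (i.succAbove j))) (fun j => if j = j0 then V else c (b (i.succAbove j)))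
        (V + ρ) (pF _ hGsm hsm a i j0) (pF _ hGsm hsm b i j0) (pF _ hGcs hcs a i j0) (pF _ hGcs hcs b i j0)
        (pF (fun F => ∀ x, |F x| ≤ 1) hG1 hf1 a i j0) (pF (fun F => ∀ x, |F x| ≤ 1) hG1 hf1 b i j0)
        (by
          intro j x hx
          unfold FJ
          by_cases hj : j = j0
          · rw [if_pos hj] at hx ⊢
            exact hGz x hx
          · rw [if_neg hj] at hx ⊢
            exact hf0 _ x hx)
        (by
          intro j x hx
          unfold FJ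
          by_cases hj : j = j0
          · rw [if_pos hj] at hx ⊢
            exact hGz x hx
          · rw [if_neg hj] at hx ⊢
            exact hf0 _ x hx)
        (by
          have k1 := PRGaux.sum_ite_le c (fun l => (hc l).1) V ρ a i j0 (hA a hab.1)
          have k2 := PRGaux.sum_ite_le c (fun l => (hc l).1) V ρ b i j0 (hA b hab.2)
          linarith)
        (by linarith) hVρ ε1 hε10
      refine ⟨θ, hθ, z, fun _ _ D => ?_⟩
      filter_upwards [hz D, LL_tendsto.eventually_ge_atTop 1,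
        LL_tendsto.eventually_ge_atTop (1 / (50 - max V (1 / 2)))] with X g1 g2 g3
      intro W E a0 t hC
      have g4 := g1 (RG X) W E a0 t (by
        intro j x hx
        have h6 : max V (1 / 2) < x := by
          refine lt_of_le_of_lt ?_ hx
          have h7 : 0 < 50 - max V (1 / 2) := by linarith
          rw [le_div_iff₀ (by linarith)]
          rw [div_le_iff₀ h7] at g3
          have h8 := PRGaux.log_RG_ge g2
          have h9 : Real.log 2 ≤ 1 := by
            have := Real.log_two_lt_d9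
            linarith
          nlinarith
        have h7 : V < x := (le_max_left _ _).trans_lt h6
        have h8 : 1 / 2 < x := (le_max_right _ _).trans_lt h6
        have h9 : ∀ l, f l x = 0 := fun l => hf0 l x ((hc l).2.trans_lt h8)
        exact ⟨pF (fun F => F x = 0) (hGz x h7) h9 a i j0 j, pF (fun F => F x = 0) (hGz x h7) h9 b i j0 j⟩) hC i
      have e1 : ∏ j, DD (FJ f G a i j0 j) (FJ f G b i j0 j) =
          DD G G * ∏ j ∈ (univ : Finset (Fin K0)).erase j0, DD (f (a (i.succAbove j))) (f (b (i.succAbove j))) := by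
        rw [← Finset.mul_prod_erase univ _ (mem_univ j0), FJ_self, FJ_self]
        congr 1
        refine Finset.prod_congr rfl fun j hj => ?_
        rw [FJ_ne _ _ _ _ (Finset.ne_of_mem_erase hj), FJ_ne _ _ _ _ (Finset.ne_of_mem_erase hj)]
      rw [e1] at g4
      exact g4
    · exact ⟨1, one_pos, 0, fun h5 h6 => absurd ⟨h5, h6⟩ hab⟩
  choose θf hθf zf hzf using key
  obtain ⟨θ, hθ0, hθle⟩ := exists_pos_le univ θf fun q _ => hθf q
  set z : ℕ := univ.sup zf with hzdef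
  have hzle : ∀ q, zf q ≤ z := fun q => Finset.le_sup (mem_univ q)
  refine ⟨θ, hθ0, z, fun D => ?_⟩
  have hev : ∀ᶠ X : ℝ in atTop, ∀ q : Fin (K0 + 1) × Fin K0 × (Fin (K0 + 1) → Fin B) × (Fin (K0 + 1) → Fin B),
      q.2.2.1 ∈ A → q.2.2.2 ∈ A →
      ∀ (W : ℕ) (E : Finset ℕ) (a0 : ℕ) (t : Fin (K0 + 1) → ℕ), Cn D (θf q) X (zf q) W E a0 t →
      |∑ n ∈ Icc 1 ⌊3 * X⌋₊, nw X W a0 n * th (t q.1 * n + 1) * PRD E X f G q.2.2.1 q.2.2.2 q.1 q.2.1 t n -
        LL X * QM (K0 + 1) X W E * (DD G G * ∏ j ∈ (univ : Finset (Fin K0)).erase q.2.1,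
          DD (f (q.2.2.1 (q.1.succAbove j))) (f (q.2.2.2 (q.1.succAbove j))))| ≤
      ε1 * (LL X * QM (K0 + 1) X W E) := by
    rw [Filter.eventually_all]
    intro q
    by_cases h : q.2.2.1 ∈ A ∧ q.2.2.2 ∈ A
    · filter_upwards [hzf q h.1 h.2 D] with X hX _ _
      exact hX
    · exact Filter.Eventually.of_forall fun X h5 h6 => absurd ⟨h5, h6⟩ h
  have hRGX : ∀ᶠ X : ℝ in atTop, (RG X : ℝ) < X := by
    filter_upwards [eventually_gt_atTop 1] with X h5
    have hlog : 0 < Real.log X := Real.log_pos h5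
    calc (RG X : ℝ) ≤ Real.exp (50 * LL X) := Nat.floor_le (Real.exp_pos _).le
      _ < Real.exp (Real.log X) := by
          apply Real.exp_lt_exp.2
          unfold LL
          linarith
      _ = X := Real.exp_log (by linarith)
  filter_upwards [hev, hRGX, eventually_ge_atTop 4, LL_tendsto.eventually_ge_atTop 2] with X g1 g5 g6 g7
  intro W E a0 t hC i j0
  have hX0 : 0 < X := by linarith
  have hL0 : 0 < LL X := by linarith
  have hQ0 : 0 ≤ QM (K0 + 1) X W E := QM_nonneg hW (K0 + 1) hL0 W hC.cs.gs.pr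
  set P := LL X * QM (K0 + 1) X W E with hPdef
  have hP0 : 0 ≤ P := mul_nonneg hL0.le hQ0
  -- the theta sum
  set T := ∑ n ∈ Icc 1 ⌊3 * X⌋₊, nw X W a0 n * th (t i * n + 1) * Sq E X f G A i j0 t n with hT
  have hTle : T ≤ P * (DD G G * JJ2 f A i j0) + n2 * (ε1 * P) := by
    have e1 : T = ∑ a ∈ A, ∑ b ∈ A, (f (a i) 0 * f (b i) 0) * (f (a (i.succAbove j0)) 0 * f (b (i.succAbove j0)) 0) *
        ∑ n ∈ Icc 1 ⌊3 * X⌋₊, nw X W a0 n * th (t i * n + 1) * PRD E X f G a b i j0 t n := by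
      rw [hT]
      unfold Sq
      simp_rw [Finset.mul_sum]
      rw [Finset.sum_comm]
      refine Finset.sum_congr rfl fun a _ => ?_
      rw [Finset.sum_comm]
      refine Finset.sum_congr rfl fun b _ => ?_
      refine Finset.sum_congr rfl fun n _ => ?_
      ring
    have e2 : ∀ a ∈ A, ∀ b ∈ A, (f (a i) 0 * f (b i) 0) * (f (a (i.succAbove j0)) 0 * f (b (i.succAbove j0)) 0) *
        ∑ n ∈ Icc 1 ⌊3 * X⌋₊, nw X W a0 n * th (t i * n + 1) * PRD E X f G a b i j0 t n ≤
        P * (DD G G * ((f (a i) 0 * f (b i) 0) * (f (a (i.succAbove j0)) 0 * f (b (i.succAbove j0)) 0) *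
          ∏ j ∈ (univ : Finset (Fin K0)).erase j0, DD (f (a (i.succAbove j))) (f (b (i.succAbove j))))) +
        ε1 * P := by
      intro a ha b hb
      have k1 := g1 (i, j0, a, b) ha hb W E a0 t (Cn_mono hC (hθle _ (mem_univ _)) (hzle _))
      simp only at k1
      rw [← hPdef] at k1
      set S := ∑ n ∈ Icc 1 ⌊3 * X⌋₊, nw X W a0 n * th (t i * n + 1) * PRD E X f G a b i j0 t n
      set Pr := ∏ j ∈ (univ : Finset (Fin K0)).erase j0, DD (f (a (i.succAbove j))) (f (b (i.succAbove j)))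
      set co := (f (a i) 0 * f (b i) 0) * (f (a (i.succAbove j0)) 0 * f (b (i.succAbove j0)) 0) with hco
      have k2 : |co| ≤ 1 := by
        have hm : ∀ x y : ℝ, |x| ≤ 1 → |y| ≤ 1 → |x * y| ≤ 1 := fun x y hx hy => by
          rw [abs_mul]
          calc |x| * |y| ≤ 1 * 1 := mul_le_mul hx hy (abs_nonneg _) zero_le_one
            _ = 1 := one_mul 1
        exact hm _ _ (hm _ _ (hf1 _ _) (hf1 _ _)) (hm _ _ (hf1 _ _) (hf1 _ _))
      have k3 : |co * (S - P * (DD G G * Pr))| ≤ ε1 * P := by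
        rw [abs_mul]
        calc |co| * |S - P * (DD G G * Pr)| ≤ 1 * (ε1 * P) := mul_le_mul k2 k1 (abs_nonneg _) zero_le_one
          _ = _ := one_mul _
      have k4 := (abs_le.1 k3).2
      have k5 : co * (S - P * (DD G G * Pr)) = co * S - P * (DD G G * (co * Pr)) := by ring
      linarith
    rw [e1]
    refine (Finset.sum_le_sum fun a ha => Finset.sum_le_sum fun b hb => e2 a ha b hb).trans (le_of_eq ?_)
    simp_rw [Finset.sum_add_distrib, ← Finset.mul_sum, Finset.sum_const, nsmul_eq_mul]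
    unfold JJ2
    rw [hn2]
    ring
  have hfin := final_alg hV hP0 (hJle i j0) hDge hGD c2 c3 hTle
  -- pointwise comparison
  have hpt : ∀ n ∈ Icc 1 ⌊3 * X⌋₊, nw X W a0 n *
      (if (t i * n + 1).Prime ∧ (t (i.succAbove j0) * n + 1).Prime then
        sqw E X f A (fun j => vl (t j) n) ^ 2 else 0) ≤
      (1 / (200 * LL X)) * (nw X W a0 n * th (t i * n + 1) * Sq E X f G A i j0 t n) := by
    intro n _
    have hnu := nw_nonneg hW X W a0 n
    have hSq := Sq_nonneg E X f G A i j0 t n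
    have hrhs : 0 ≤ (1 / (200 * LL X)) * (nw X W a0 n * th (t i * n + 1) * Sq E X f G A i j0 t n) := by
      have := th_nonneg (t i * n + 1)
      positivity
    by_cases hz : nw X W a0 n = 0
    · rw [hz, zero_mul]
      rw [hz] at hrhs
      exact hrhs
    split_ifs with hp
    · have hXn : X < n := by
        by_contra hle
        push Not at hle
        apply hz
        unfold nw
        rw [hW.low _ (by positivity) (by rw [div_le_one (by linarith)]; exact hle), ite_self]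
      have hRn : RG X < n := by
        have : (RG X : ℝ) < n := g5.trans hXn
        exact_mod_cast this
      have htn : ∀ j, n ≤ t j * n := fun j => Nat.le_mul_of_pos_left n (hC.dl.pos j)
      have ht1 := htn i
      have ht2 := htn (i.succAbove j0)
      rw [sqw_eq_Sq E X f G A i j0 t n g7 (fun l x hx => hf0 l x ((hc l).2.trans_lt hx)) hG0 hp.1 hp.2
        (by omega) (by omega)]
      have hth : 200 * LL X ≤ th (t i * n + 1) := by
        unfold th
        rw [if_pos hp.1]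
        have e1 : 200 * LL X = Real.log X := by unfold LL; ring
        rw [e1]
        apply Real.log_le_log hX0
        have h3 : (n : ℝ) ≤ ((t i * n + 1 : ℕ) : ℝ) := by exact_mod_cast ht1.trans (Nat.le_succ _)
        linarith
      have e2 : 1 ≤ (1 / (200 * LL X)) * th (t i * n + 1) := by
        rw [one_div, ← div_eq_inv_mul, le_div_iff₀ (by positivity), one_mul]
        exact hth
      calc nw X W a0 n * Sq E X f G A i j0 t n = 1 * (nw X W a0 n * Sq E X f G A i j0 t n) := by ring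
        _ ≤ ((1 / (200 * LL X)) * th (t i * n + 1)) * (nw X W a0 n * Sq E X f G A i j0 t n) :=
            mul_le_mul_of_nonneg_right e2 (by positivity)
        _ = _ := by ring
    · rw [mul_zero]
      exact hrhs
  refine (Finset.sum_le_sum hpt).trans ?_
  rw [← Finset.mul_sum, ← hT]
  calc 1 / (200 * LL X) * T ≤ 1 / (200 * LL X) * (P * (JJ2 f A i j0 / V + ε)) :=
        mul_le_mul_of_nonneg_left hfin (by positivity)
    _ = (JJ2 f A i j0 / V + ε) / 200 * QM (K0 + 1) X W E := by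
        rw [hPdef]
        field_simp

end Pool.Agent.NH16.QL
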