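import Pool.Agent.NH16.QL.Stm
import Pool.Agent.H510R2.Maier.MA1

/-! The prime number theorem with the weight `Ph`: `LP X ~ MP X`. -/

set_option autoImplicit false

open Finset Filter Topology

namespace Pool.Agent.NH16.QL

open Pool.Agent.H378R2 Pool.Agent.H387R2 Pool.Agent.H387R2.MB Pool.Agent.H362R2.QT

namespace PNT

theorem phi_log (a b : ℝ) : |Phi a - Phi b| ≤ |Real.log a - Real.log b| := by
  unfold Phi
  set x := Real.log a
  set y := Real.log b
  have h3 : |max 0 (1 / 2 - |x - 1 / 2|) - max 0 (1 / 2 - |y - 1 / 2|)| ≤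
      |(1 / 2 - |x - 1 / 2|) - (1 / 2 - |y - 1 / 2|)| := by
    have := abs_max_sub_max_le_abs (1 / 2 - |x - 1 / 2|) (1 / 2 - |y - 1 / 2|) 0
    rwa [max_comm, max_comm (1 / 2 - |y - 1 / 2|)] at this
  refine h3.trans ?_
  have h4 : (1 / 2 - |x - 1 / 2|) - (1 / 2 - |y - 1 / 2|) = |y - 1 / 2| - |x - 1 / 2| := by ring
  rw [h4]
  refine (abs_abs_sub_abs_le_abs_sub _ _).trans ?_
  rw [abs_sub_comm x y]
  apply le_of_eq
  congr 1
  ring

theorem ph_max {u : ℝ} (h : 0 ≤ u) : Ph u = Ph (max u 1) := by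
  rcases le_total u 1 with h1 | h1
  · unfold Ph
    rw [max_eq_right h1, Phi_eq_zero_of_le (by positivity) (by nlinarith),
      Phi_eq_zero_of_le (by norm_num) (by norm_num)]
  · rw [max_eq_left h1]

theorem ph_lip {u v : ℝ} (hu : 0 ≤ u) (hv : 0 ≤ v) : |Ph u - Ph v| ≤ |u - v| := by
  rw [ph_max hu, ph_max hv]
  have h1 : |max u 1 - max v 1| ≤ |u - v| := abs_max_sub_max_le_abs u v 1
  have h2 : |Real.log (max u 1) - Real.log (max v 1)| ≤ |max u 1 - max v 1| :=
    log_lip (le_max_right _ _) (le_max_right _ _)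
  refine le_trans ?_ (h2.trans h1)
  have h3 := phi_log ((max u 1) ^ 2) ((max v 1) ^ 2)
  rw [Real.log_pow, Real.log_pow, ← mul_sub, abs_mul] at h3
  unfold Ph
  rw [← sub_div, abs_div]
  norm_num at h3 ⊢
  linarith

theorem ph_ge {u : ℝ} (h : Real.exp (1 / 2) ≤ u) : Ph u = 0 := by
  unfold Ph
  rw [Phi_eq_zero_of_ge, zero_div]
  have h1 : Real.exp 1 = Real.exp (1 / 2) ^ 2 := by
    rw [← Real.exp_nat_mul]
    norm_num
  rw [h1]
  exact pow_le_pow_left₀ (Real.exp_pos _).le h 2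

end PNT

/-- **QL-2.** -/
theorem t_PNT : S_PNT := by
  intro ε hε
  have h1 := Pool.Agent.Helper601.PNT.psi_div_tendsto
  have h2 : ∀ᶠ x : ℝ in atTop, |Chebyshev.psi x / x - 1| < ε / 12 := by
    have := (Metric.tendsto_nhds.1 h1) (ε / 12) (by positivity)
    simpa [Real.dist_eq] using this
  obtain ⟨x0, hx0⟩ := eventually_atTop.1 h2
  set x1 := max x0 1 with hx1
  have hx11 : 1 ≤ x1 := le_max_right _ _
  -- a bound for |psi n - n|
  have hall : ∀ n : ℕ, 1 ≤ n → |Chebyshev.psi n - n| ≤ ε / 12 * n + 8 * x1 := by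
    intro n hn
    have hn0 : (1 : ℝ) ≤ n := by exact_mod_cast hn
    rcases le_total x1 n with h | h
    · have h3 := (hx0 n ((le_max_left _ _).trans h)).le
      have h4 : Chebyshev.psi n - n = (Chebyshev.psi n / n - 1) * n := by
        field_simp
      rw [h4, abs_mul, abs_of_nonneg (by linarith : (0 : ℝ) ≤ n)]
      have := mul_le_mul_of_nonneg_right h3 (by linarith : (0 : ℝ) ≤ n)
      linarith
    · have h3 := Chebyshev.psi_nonneg (n : ℝ)
      have h4 : Chebyshev.psi n ≤ 7 * n := by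
        have h5 := Chebyshev.psi_le_const_mul_self (x := (n : ℝ)) (by linarith)
        have h6 : Real.log 4 + 4 ≤ 7 := by
          rw [show (4 : ℝ) = 2 ^ 2 by norm_num, Real.log_pow]
          have := Real.log_two_lt_d9
          push_cast
          linarith
        nlinarith
      rw [abs_le]
      constructor
      · nlinarith
      · nlinarith
  filter_upwards [eventually_ge_atTop (4 : ℝ), eventually_ge_atTop (96 * x1 / ε)] with X hX4 hXe
  have hX0 : 0 < X := by linarith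
  set N := ⌊3 * X⌋₊ with hN
  have hNle : (N : ℝ) ≤ 3 * X := Nat.floor_le (by linarith)
  have hNlt : 3 * X < N + 1 := Nat.lt_floor_add_one _
  have hend : Ph (((N + 1 : ℕ) : ℝ) / X) = 0 := by
    apply PNT.ph_ge
    rw [le_div_iff₀ hX0]
    push_cast
    have h3 := exp_one_lt_three'
    have h4 : Real.exp (1 / 2) ≤ Real.exp 1 := Real.exp_le_exp.2 (by norm_num)
    nlinarith
  have e1 : LP X = ∑ n ∈ Icc 1 N, (Ph ((n : ℕ) / X) - Ph (((n + 1 : ℕ) : ℝ) / X)) *
      Chebyshev.psi n := by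
    unfold LP
    rw [Pool.Agent.H510R2.Maier.abel N (fun n => Ph ((n : ℕ) / X))
      (fun n => ArithmeticFunction.vonMangoldt n), hend, zero_mul, add_zero]
    apply Finset.sum_congr rfl
    intro n _
    rw [Pool.Agent.H510R2.Maier.psi_nat]
  have e2 : MP X = ∑ n ∈ Icc 1 N, (Ph ((n : ℕ) / X) - Ph (((n + 1 : ℕ) : ℝ) / X)) * (n : ℝ) := by
    unfold MP
    have := Pool.Agent.H510R2.Maier.abel N (fun n => Ph ((n : ℕ) / X)) (fun _ => (1 : ℝ))
    simp only [mul_one] at this
    rw [this, hend, zero_mul, add_zero]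
    apply Finset.sum_congr rfl
    intro n _
    simp
  rw [e1, e2, ← Finset.sum_sub_distrib]
  calc |∑ n ∈ Icc 1 N, ((Ph ((n : ℕ) / X) - Ph (((n + 1 : ℕ) : ℝ) / X)) * Chebyshev.psi n -
        (Ph ((n : ℕ) / X) - Ph (((n + 1 : ℕ) : ℝ) / X)) * (n : ℝ))|
      ≤ ∑ n ∈ Icc 1 N, |(Ph ((n : ℕ) / X) - Ph (((n + 1 : ℕ) : ℝ) / X)) * Chebyshev.psi n -
        (Ph ((n : ℕ) / X) - Ph (((n + 1 : ℕ) : ℝ) / X)) * (n : ℝ)| :=
        Finset.abs_sum_le_sum_abs _ _
    _ ≤ ∑ n ∈ Icc 1 N, (1 / X) * (ε / 4 * X + 8 * x1) := by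
        apply Finset.sum_le_sum
        intro n hn
        rw [Finset.mem_Icc] at hn
        rw [← mul_sub, abs_mul]
        have h3 : |Ph ((n : ℕ) / X) - Ph (((n + 1 : ℕ) : ℝ) / X)| ≤ 1 / X := by
          have h4 := PNT.ph_lip (u := (n : ℝ) / X) (v := ((n + 1 : ℕ) : ℝ) / X) (by positivity)
            (by positivity)
          refine h4.trans ?_
          rw [← sub_div, abs_div, abs_of_pos hX0]
          push_cast
          rw [show (n : ℝ) - (n + 1) = -1 by ring, abs_neg, abs_one]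
        have h5 := hall n hn.1
        have hn' : (n : ℝ) ≤ N := by exact_mod_cast hn.2
        have h6 : |Chebyshev.psi n - n| ≤ ε / 4 * X + 8 * x1 := by
          have : ε / 12 * n ≤ ε / 12 * (3 * X) := by
            apply mul_le_mul_of_nonneg_left (by linarith) (by positivity)
          linarith
        exact mul_le_mul h3 h6 (abs_nonneg _) (by positivity)
    _ = N * ((1 / X) * (ε / 4 * X + 8 * x1)) := by
        rw [Finset.sum_const, Nat.card_Icc, nsmul_eq_mul]; simp
    _ ≤ (3 * X) * ((1 / X) * (ε / 4 * X + 8 * x1)) := by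
        apply mul_le_mul_of_nonneg_right hNle (by positivity)
    _ = 3 * (ε / 4 * X + 8 * x1) := by field_simp
    _ ≤ ε * X := by
        have h7 : 96 * x1 ≤ ε * X := by
          rw [div_le_iff₀ hε] at hXe
          linarith
        linarith

end Pool.Agent.NH16.QL
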