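import Pool.Agent.NH16.QL.Stm
import Pool.Agent.H387R2.MB9

set_option autoImplicit false

open Finset Filter Topology
open scoped ContDiff

namespace Pool.Agent.NH16.QL

open Pool.Agent.H378R2 Pool.Agent.H387R2 Pool.Agent.H387R2.MB Pool.Agent.H362R2.QT

namespace RU

lemma nw_nonneg (hW : S_WGT) (X : ℝ) (W a n : ℕ) : 0 ≤ nw X W a n := by
  unfold nw
  split_ifs
  · exact hW.nn _
  · exact le_rfl

end RU

open Classical in
theorem t_RU (hW : S_WGT) (h : S_S1UP) : S_RU := by
  intro J δ hδ
  set s : ℝ := min δ (1 / (J + 2)) with hs_def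
  have hs0 : 0 < s := lt_min hδ (by positivity)
  have hsδ : s ≤ δ := min_le_left _ _
  have hsJ : s ≤ 1 / (J + 2) := min_le_right _ _
  have hs2 : s ≤ 1 / 2 := by
    refine hsJ.trans ?_
    apply one_div_le_one_div_of_le (by norm_num)
    have : (0:ℝ) ≤ J := Nat.cast_nonneg J
    linarith
  set f : Fin 1 → ℝ → ℝ := fun _ => hs s with hf
  set A : Finset (Fin J → Fin 1) := {fun _ => 0} with hA
  obtain ⟨z, h⟩ := h f (fun _ => s) A (fun _ => hs_smooth s) (fun _ => hs_compact hs0)
    (fun _ x hx => hs_zero hs0 (hx.le.trans (le_abs_self x))) (fun _ => ⟨hs0.le, hs2⟩)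
    (fun a _ => by
      rw [sum_const, card_univ, Fintype.card_fin, nsmul_eq_mul]
      calc (J : ℝ) * s ≤ J * (1 / (J + 2)) := by gcongr
        _ ≤ 1 := by
            rw [mul_one_div, div_le_one (by positivity)]
            linarith) (fun _ x => hs_abs_le s x) 1 one_pos
  refine ⟨|II f A| + 2, by positivity, z, ?_⟩
  have h9 := Real.tendsto_log_atTop.eventually (ev_pow_exp 3 (1 / 700) 1 (by norm_num))
  filter_upwards [h, hW.ex J 5 1 one_pos, LL_tendsto.eventually_ge_atTop 1, h9] with X h1 h2 h6 h9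
  intro W E a0 t hCS hDL
  have hWle : (W : ℝ) ≤ Real.exp (Real.log X / 700) := by
    refine hCS.le.trans ?_
    rw [one_mul] at h9
    calc Real.log X ^ 3 ≤ Real.exp (1 / 700 * Real.log X) := h9
      _ = _ := by ring_nf
  have k1 := h1 W E a0 t ⟨hCS.gs.toGE h6, hCS.pos, hWle, hCS.dv⟩ hDL
  have k2 := h2 W E hCS.pos hCS.le hCS.gs.pr
  have hW0 : (0:ℝ) < W := by exact_mod_cast hCS.pos
  have hBE : 0 < BE E := BE_pos hCS.gs.pr
  have hL0 : 0 < LL X := by linarith
  have hMP := hW.mnn X
  have hQ0 : 0 ≤ QM J X W E := by unfold QM; positivity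
  have hR : 1 ≤ RR X := by
    unfold RR
    apply Nat.le_floor
    rw [Nat.cast_one]
    exact Real.one_le_exp (by linarith)
  have k3 : ∀ n ∈ Icc 1 ⌊3 * X⌋₊, nw X W a0 n * (if ∀ j, Rg δ X (t j * n + 1) then 1 else 0) ≤
      nw X W a0 n * sqw E X f A (fun j => vl (t j) n) ^ 2 := by
    intro n _
    apply mul_le_mul_of_nonneg_left _ (RU.nw_nonneg hW X W a0 n)
    split_ifs with hc
    · have e : sqw E X f A (fun j => vl (t j) n) = 1 := by
        unfold sqw
        rw [hA, sum_singleton]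
        apply prod_eq_one
        intro j _
        have e : vl (t j) n = ((t j * n + 1 : ℕ) : ℤ) := by unfold vl; push_cast; ring
        beta_reduce
        rw [e]
        exact VV_rg_eq hs0 hsδ h6 (hc j) E _ hR
      rw [e]; norm_num
    · exact sq_nonneg _
  refine (sum_le_sum k3).trans (k1.trans ?_)
  have e1 : (A.card : ℝ) = 1 := by rw [hA, card_singleton]; norm_num
  rw [e1]
  have e3 : 5 * Real.exp (2 * LL X) ≤ 5 * Real.exp (3 * LL X) := by
    have : Real.exp (2 * LL X) ≤ Real.exp (3 * LL X) := Real.exp_le_exp.2 (by linarith)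
    linarith
  have e4 : QM J X W E * (II f A + 1) ≤ QM J X W E * (|II f A| + 1) := by
    apply mul_le_mul_of_nonneg_left _ hQ0
    linarith [le_abs_self (II f A)]
  calc _ ≤ QM J X W E * (|II f A| + 1) + 1 * QM J X W E := by
        rw [one_pow, one_mul]
        linarith
    _ = _ := by ring

end Pool.Agent.NH16.QL
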