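import Pool.Agent.NH16.QL.Stm
import Pool.Agent.H362R2.QT.PRG

/-! Project QL, QL-8: the second sum asymptotically. -/

set_option autoImplicit false

open Finset Filter Topology
open scoped ContDiff

namespace Pool.Agent.NH16.QL

open Pool.Agent.H378R2 Pool.Agent.H387R2 Pool.Agent.H387R2.MB Pool.Agent.H362R2.QT

namespace S2aux

theorem EP_congr (X : ℝ) (Q b b' : ℕ) (h : b ≡ b' [MOD Q]) : EP X Q b = EP X Q b' := by
  unfold EP
  congr 1
  apply Finset.sum_congr _ (fun _ _ => rfl)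
  apply Finset.filter_congr
  intro n _
  exact ⟨fun h1 => h1.trans h, fun h1 => h1.trans h.symm⟩

theorem Bc_ex (X : ℝ) (W : ℕ) (hW : 0 < W) : ∃ Bc : ℕ → ℕ, (∀ q, 1 ≤ q → (Bc q).Coprime (W * q)) ∧
    (∀ q, 1 ≤ q → ∀ b' : ℕ, b'.Coprime (W * q) → |EP X (W * q) b'| ≤ |EP X (W * q) (Bc q)|) := by
  classical
  have h : ∀ q : ℕ, ∃ b : ℕ, 1 ≤ q → b.Coprime (W * q) ∧
      ∀ b' : ℕ, b'.Coprime (W * q) → |EP X (W * q) b'| ≤ |EP X (W * q) b| := by
    intro q
    by_cases hq : 1 ≤ q
    · have hWq : 0 < W * q := Nat.mul_pos hW hq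
      set S := (range (W * q)).filter (fun b => b.Coprime (W * q)) with hS
      have hne : S.Nonempty := by
        refine ⟨1 % (W * q), ?_⟩
        rw [hS, Finset.mem_filter, Finset.mem_range]
        refine ⟨Nat.mod_lt _ hWq, ?_⟩
        rw [Nat.coprime_iff_gcd_eq_one, Nat.ModEq.gcd_eq (Nat.mod_modEq 1 (W * q))]
        simp
      obtain ⟨b, hb, hmax⟩ := Finset.exists_max_image S (fun b => |EP X (W * q) b|) hne
      refine ⟨b, fun _ => ⟨(Finset.mem_filter.1 hb).2, fun b' hb' => ?_⟩⟩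
      have h1 : b' % (W * q) ∈ S := by
        rw [hS, Finset.mem_filter, Finset.mem_range]
        refine ⟨Nat.mod_lt _ hWq, ?_⟩
        rw [Nat.coprime_iff_gcd_eq_one, Nat.ModEq.gcd_eq (Nat.mod_modEq b' (W * q))]
        exact hb'
      have h2 := hmax _ h1
      rwa [EP_congr X (W * q) (b' % (W * q)) b' (Nat.mod_modEq _ _)] at h2
    · exact ⟨0, fun h => absurd h hq⟩
  choose Bc hBc using h
  exact ⟨Bc, fun q hq => (hBc q hq).1, fun q hq => (hBc q hq).2⟩

/-- comparison of the main terms -/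
lemma cmp {LPX MPX s W B φ η θ P : ℝ} (hs : 0 < s) (hW : 0 < W) (hB : 0 < B) (hφ : 0 < φ) (hM : 0 ≤ MPX)
    (hη : 0 < η) (hη1 : η ≤ 1) (hθ : θ ≤ η / 2) (hθ0 : 0 ≤ θ) (hP : 0 ≤ P)
    (h1 : |LPX - s * MPX| ≤ η / 2 * (s * MPX)) (h2 : (s * W) * B ≤ φ) (h3 : (1 - θ) * φ ≤ (s * W) * B) :
    |(LPX * (1 / φ)) * P - (MPX * (1 / (W * B))) * P| ≤ η * ((MPX * (1 / (W * B))) * P) := by
  have hab := abs_le.1 h1
  have hsMP : 0 ≤ s * MPX := mul_nonneg hs.le hM
  have hWB : 0 < W * B := mul_pos hW hB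
  have hq : 0 < 1 / φ := by positivity
  have q1 : s * (1 / φ) ≤ 1 / (W * B) := by
    rw [mul_one_div, div_le_div_iff₀ hφ hWB, one_mul]
    linarith
  have q2 : (1 - θ) * (1 / (W * B)) ≤ s * (1 / φ) := by
    rw [mul_one_div, mul_one_div, div_le_div_iff₀ hWB hφ]
    linarith
  set w := 1 / (W * B) with hw
  have hw0 : 0 < w := by positivity
  have hMw : 0 ≤ MPX * w := mul_nonneg hM hw0.le
  have u1 : LPX * (1 / φ) ≤ (1 + η / 2) * (MPX * w) := by
    calc LPX * (1 / φ) ≤ ((1 + η / 2) * (s * MPX)) * (1 / φ) := by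
          apply mul_le_mul_of_nonneg_right _ hq.le
          linarith [hab.2]
      _ = (1 + η / 2) * MPX * (s * (1 / φ)) := by ring
      _ ≤ (1 + η / 2) * MPX * w := by
          apply mul_le_mul_of_nonneg_left q1
          positivity
      _ = _ := by ring
  have u2 : (1 - η) * (MPX * w) ≤ LPX * (1 / φ) := by
    calc (1 - η) * (MPX * w) ≤ ((1 - η / 2) * (1 - θ)) * (MPX * w) := by
          apply mul_le_mul_of_nonneg_right _ hMw
          nlinarith
      _ = ((1 - η / 2) * MPX) * ((1 - θ) * w) := by ring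
      _ ≤ ((1 - η / 2) * MPX) * (s * (1 / φ)) := by
          apply mul_le_mul_of_nonneg_left q2
          apply mul_nonneg _ hM
          linarith
      _ = ((1 - η / 2) * (s * MPX)) * (1 / φ) := by ring
      _ ≤ LPX * (1 / φ) := by
          apply mul_le_mul_of_nonneg_right _ hq.le
          linarith [hab.1]
  have u3 : |LPX * (1 / φ) - MPX * w| ≤ η * (MPX * w) := by
    have : 0 ≤ η * (MPX * w) := mul_nonneg hη.le hMw
    rw [abs_le]
    constructor <;> nlinarith
  calc |(LPX * (1 / φ)) * P - (MPX * w) * P| = |LPX * (1 / φ) - MPX * w| * P := by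
        rw [← sub_mul, abs_mul, abs_of_nonneg hP]
    _ ≤ (η * (MPX * w)) * P := mul_le_mul_of_nonneg_right u3 hP
    _ = _ := by ring

end S2aux

open S2aux in
theorem t_S2 (hW : S_WGT) (hP : S_PNT) (hB : S_BV) (hS : S_SUM2) (hC : S_CV) (hV : S_VM) (hT : S_TT) : S_S2 := by
  intro K0 F G cF cG S hFs hGs hFc hGc hF1 hG1 hF0 hG0 hsum hS0 hS50 ε hε
  classical
  set DDp : ℝ := ∏ j, DD (F j) (G j) with hDDp
  set Dm : ℝ := |DDp| + 1 with hDm
  have hDm1 : 1 ≤ Dm := by
    have := abs_nonneg DDp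
    linarith
  set η : ℝ := min 1 (ε / (8 * Dm)) with hη
  have hη0 : 0 < η := lt_min one_pos (by positivity)
  have hη1 : η ≤ 1 := min_le_left _ _
  have hηD : η * |DDp| ≤ ε / 8 := by
    have h1 : η ≤ ε / (8 * Dm) := min_le_right _ _
    calc η * |DDp| ≤ ε / (8 * Dm) * Dm := by
          apply mul_le_mul h1 (by linarith) (abs_nonneg _) (by positivity)
      _ = ε / 8 := by field_simp
  obtain ⟨δ, hδ, hsv⟩ := sieve_asymp K0 F G hFs hGs hFc hGc (ε / 8) (by positivity)
  refine ⟨η / 2, by positivity, ⌈1 / δ⌉₊, ?_⟩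
  intro D
  set nD : ℕ := ⌈|D|⌉₊ with hnD
  set A : ℕ := nD + K0 + 5 with hA
  set θ' : ℝ := max (S / 100) (1 / 4) with hθ'
  have hθ'0 : 0 < θ' := lt_of_lt_of_le (by norm_num) (le_max_right _ _)
  have hθ'1 : θ' < 1 / 2 := max_lt (by linarith) (by norm_num)
  obtain ⟨X1, hX1⟩ := eventually_atTop.1 (hB θ' hθ'0 hθ'1 K0 A ((nD + 3 : ℕ) : ℝ))
  obtain ⟨X2, hX2⟩ := eventually_atTop.1 (hP (η / 200) (by positivity))
  have hc0 : 0 < (50 - S) / 100 := by linarith
  have ev1 := Real.tendsto_log_atTop.eventually (ev_pow_exp (nD + K0 + 5) ((50 - S) / 100) (4800 / ε) hc0)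
  have ev2 := Real.tendsto_log_atTop.eventually (ev_pow_exp nD 1 1 one_pos)
  filter_upwards [eventually_ge_atTop X1, eventually_ge_atTop X2, hW.mge, hW.qge (K0 + 1), eventually_ge_atTop 4,
    LL_tendsto.eventually_ge_atTop (max 1 (1 / δ)), ev1, ev2, Real.tendsto_log_atTop.eventually_ge_atTop (max 2 (200 / ε)),
    eventually_ge_atTop (1000 / η)]
    with X hXX1 hXX2 hmge hqge hX4 hLL e1 e2 hlog hXη
  intro R W E a0 t hR hCn i
  have hX0 : 0 < X := by linarith
  have hLL1 : 1 ≤ LL X := (le_max_left _ _).trans hLL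
  have hLLδ : 1 / δ ≤ LL X := (le_max_right _ _).trans hLL
  have hL0 : 0 < LL X := by linarith
  have hlog2 : 2 ≤ Real.log X := (le_max_left _ _).trans hlog
  have hlogε : 200 / ε ≤ Real.log X := (le_max_right _ _).trans hlog
  have hlog0 : 0 < Real.log X := by linarith
  have hCS := hCn.cs
  have hW0 : 0 < W := hCS.pos
  have hWr : (0 : ℝ) < W := by exact_mod_cast hW0
  have hEpr := hCS.gs.pr
  have hBE : 0 < BE E := BE_pos hEpr
  have hGE := hCS.gs.toGE hLL1
  set s : ℕ := t i with hs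
  have hs1 : 1 ≤ s := hCn.dl.pos i
  have hsr1 : (1 : ℝ) ≤ s := by exact_mod_cast hs1
  have hsr0 : (0 : ℝ) < s := by linarith
  have hlog1 : 1 ≤ Real.log X := by linarith
  have hsD : (s : ℝ) ≤ Real.log X ^ nD := by
    refine (hCn.tl i).trans ?_
    rw [← Real.rpow_natCast]
    apply Real.rpow_le_rpow_of_exponent_le hlog1
    exact (le_abs_self D).trans (Nat.le_ceil _)
  have hsX : (s : ℝ) ≤ X := by
    refine hsD.trans ?_
    rw [one_mul, one_mul, Real.exp_log hX0] at e2
    exact e2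
  set X' : ℝ := (s : ℝ) * X with hX'
  have hXX' : X ≤ X' := le_mul_of_one_le_left hX0.le hsr1
  have hX'0 : 0 < X' := by linarith
  set P0 : ℝ := 1 / (LL X * BE E) ^ K0 with hP0
  have hP00 : 0 < P0 := by positivity
  set T : ℝ := LL X * QM (K0 + 1) X W E with hTd
  have hT1 : T = (MP X * (1 / (W * BE E))) * P0 := by
    rw [hTd, hP0]
    unfold QM
    rw [pow_succ]
    field_simp
  have hMP0 : 0 ≤ MP X := hW.mnn X
  have hT0 : 0 ≤ T := by rw [hT1]; positivity
  have hTge : X / (50 * Real.log X ^ (K0 + 4)) ≤ T := by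
    have h1 := hqge W E hW0 hCS.le hEpr
    have h2 : (3 + (K0 + 1)) = K0 + 4 := by ring
    rw [h2] at h1
    have h3 : 0 ≤ QM (K0 + 1) X W E := le_trans (by positivity) h1
    calc _ ≤ QM (K0 + 1) X W E := h1
      _ ≤ LL X * QM (K0 + 1) X W E := le_mul_of_one_le_left h3 hLL1
  -- the function of the prime
  set g : Fin K0 → ℕ := fun j => t (i.succAbove j) with hg
  set h : Fin K0 → ℤ := fun j => (s : ℤ) - t (i.succAbove j) with hh
  set Pf : ℕ → ℝ := fun m => ∏ j : Fin K0, (VVm E R (LL X) (F j) (g j * m + h j) *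
    VVm E R (LL X) (G j) (g j * m + h j)) with hPf
  have hPfle : ∀ m, |Pf m| ≤ Real.exp (2 * S * LL X) := by
    intro m
    exact PRGaux.prod_le E R (LL X) hL0 F G cF cG hF0 hG0 hF1 hG1 (2 * S) hsum _
  -- step 1
  have s1 := hC X hX4 s W a0 hs1 hW0 Pf (Real.exp (2 * S * LL X)) hPfle
  have s1' : ∑ n ∈ Icc 1 ⌊3 * X⌋₊, nw X W a0 n * th (s * n + 1) * Pf (s * n + 1) =
      ∑ n ∈ Icc 1 ⌊3 * X⌋₊, nw X W a0 n * th (t i * n + 1) * ∏ j : Fin K0,
          (VVm E R (LL X) (F j) (vl (t (i.succAbove j)) n) * VVm E R (LL X) (G j) (vl (t (i.succAbove j)) n)) := by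
    apply sum_congr rfl
    intro n _
    congr 1
    rw [hPf]
    apply prod_congr rfl
    intro j _
    have e3 : ((g j : ℕ) : ℤ) * ((s * n + 1 : ℕ) : ℤ) + h j = (s : ℤ) * vl (t (i.succAbove j)) n := by
      simp only [hg, hh]
      unfold vl
      push_cast
      ring
    rw [e3, hV E R (LL X) (F j) s hs1 (fun p hp hpE => hCn.dl.du p hp hpE i),
      hV E R (LL X) (G j) s hs1 (fun p hp hpE => hCn.dl.du p hp hpE i)]
  rw [s1'] at s1
  -- step 2
  have hsW : 0 < s * W := Nat.mul_pos hs1 hW0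
  have hcop : (s * a0 + 1).Coprime (s * W) := by
    apply Nat.Coprime.mul_right
    · rw [Nat.coprime_comm, mul_comm s a0, Nat.coprime_mul_right_add_right]
      exact Nat.coprime_one_right s
    · exact hCn.cp i
  obtain ⟨Bc, hBc1, hBc2⟩ := Bc_ex X' (s * W) hsW
  have hne : ∀ j : Fin K0, i.succAbove j ≠ i := fun j => Fin.succAbove_ne i j
  have s2 := hS X' (s * W) (s * a0 + 1) hsW hcop F G (LL X) 1 hL0 zero_le_one cF cG hF1 hG1 hF0 hG0
    (fun _ => E) R g h
    (fun _ p hp hpE hd => by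
      rcases (Nat.Prime.dvd_mul hp).1 hd with h1 | h1
      · exact hCn.dl.du p hp hpE i h1
      · exact hCS.dv p hp hpE h1)
    (fun j p hp hpE => hCn.dl.du p hp hpE _)
    (fun j p hp hpE => hCn.dl.dt i (i.succAbove j) (hne j).symm p hp hpE)
    (by
      intro j k hjk p hp hpE _ n hd
      have h1 : (p : ℤ) ∣ (s : ℤ) * ((t (i.succAbove k) : ℤ) - t (i.succAbove j)) := by
        have h2 := dvd_sub (Dvd.dvd.mul_left hd.1 (t (i.succAbove k) : ℤ)) (Dvd.dvd.mul_left hd.2 (t (i.succAbove j) : ℤ))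
        have h3 : (t (i.succAbove k) : ℤ) * (g j * n + h j) - (t (i.succAbove j) : ℤ) * (g k * n + h k) =
          (s : ℤ) * ((t (i.succAbove k) : ℤ) - t (i.succAbove j)) := by
          simp only [hg, hh]
          ring
        rwa [h3] at h2
      rcases Int.Prime.dvd_mul' hp h1 with h4 | h4
      · exact hCn.dl.du p hp hpE i (Int.natCast_dvd_natCast.1 h4)
      · exact hCn.dl.dt _ _ (fun hh' => hjk (Fin.succAbove_right_injective hh').symm) p hp hpE h4)
    Bc hBc2
  set SS := sieveSum K0 F G (LL X) (fun _ => E) (fun p _ => 1 / ((p : ℝ) - 1)) R with hSS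
  have s2' : (1 : ℝ) ^ (2 * K0) * ∑ q ∈ (Icc 1 ⌊Real.exp (LL X * (∑ j, cF j + ∑ j, cG j))⌋₊).filter
      (fun q => Squarefree q ∧ q.Coprime (s * W)), (q.divisors.card : ℝ) ^ (2 * K0) * |EP X' (s * W * q) (Bc q)| ≤
      X' / Real.log X' ^ A := by
    rw [one_pow, one_mul]
    have hWle : ((s * W : ℕ) : ℝ) ≤ Real.log X' ^ (((nD + 3 : ℕ) : ℝ)) := by
      rw [Real.rpow_natCast]
      push_cast
      calc (s : ℝ) * W ≤ Real.log X ^ nD * Real.log X ^ 3 := mul_le_mul hsD hCS.le hWr.le (by positivity)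
        _ = Real.log X ^ (nD + 3) := by rw [pow_add]
        _ ≤ Real.log X' ^ (nD + 3) := by
            apply pow_le_pow_left₀ hlog0.le
            exact Real.log_le_log hX0 hXX'
    refine le_trans ?_ (hX1 X' (hXX1.trans hXX') (s * W) hsW hWle Bc hBc1)
    apply Finset.sum_le_sum_of_subset_of_nonneg
    · apply Finset.filter_subset_filter
      apply Finset.Icc_subset_Icc le_rfl
      apply Nat.floor_le_floor
      have h1 : Real.exp (LL X * (∑ j, cF j + ∑ j, cG j)) ≤ X ^ (S / 100) := by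
        rw [← PRGaux.exp_LL X S hX0]
        apply Real.exp_le_exp.2
        nlinarith
      refine h1.trans ?_
      calc X ^ (S / 100) ≤ X ^ θ' := Real.rpow_le_rpow_of_exponent_le (by linarith) (le_max_left _ _)
        _ ≤ X' ^ θ' := Real.rpow_le_rpow hX0.le hXX' hθ'0.le
    · intro q _ _
      positivity
  -- step 3
  have s3 := hsv (LL X) (fun _ => E) (fun p _ => 1 / ((p : ℝ) - 1)) R hLLδ hR (fun _ => hEpr)
    (fun _ p hp hpl => hGE.sm p hp (by exact_mod_cast hpl.trans (Nat.le_ceil (1 / δ))))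
    (fun _ => hGE.s1) (fun _ => hGE.s2) (fun _ p hp _ => w_two hp)
  have k3 : ∏ j : Fin K0, (LL X * ∏ p ∈ E, (1 - 1 / (p : ℝ))) = (LL X * BE E) ^ K0 := by
    rw [Finset.prod_const, Finset.card_univ, Fintype.card_fin]
    rfl
  rw [k3] at s3
  have s3' : |(LL X * BE E) ^ K0 * SS - DDp| ≤ ε / 8 := s3
  -- step 4: comparison of main terms
  have hφ : (0 : ℝ) < ((s * W).totient : ℝ) := by exact_mod_cast Nat.totient_pos.2 hsW
  have htt := hT E W (η / 2) hEpr hW0 hCS.dv hCn.sm s hs1 (fun p hp hpE => hCn.dl.du p hp hpE i)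
  have hLM : |LP X' - s * MP X| ≤ η / 2 * (s * MP X) := by
    have h1 := hX2 X' (hXX2.trans hXX')
    have h2 := hW.sc X hX4 s hs1
    rw [← hX'] at h2
    have h3 : η / 200 * X' ≤ η / 4 * (s * MP X) := by
      rw [hX']
      have : η / 200 * (s * X) = η / 4 * (s * (X / 50)) := by ring
      rw [this]
      gcongr
    have h4 : 5 * (s : ℝ) ≤ η / 4 * (s * MP X) := by
      have h5 : 20 ≤ η * MP X := by
        rw [div_le_iff₀ hη0] at hXη
        have : η * (X / 50) ≤ η * MP X := by gcongr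
        linarith
      nlinarith
    have h5 := abs_sub_le (LP X') (MP X') (s * MP X)
    linarith
  have s4 := cmp (P := P0) hsr0 hWr hBE hφ hMP0 hη0 hη1 le_rfl (by positivity) hP00.le hLM
    (by have := htt.1; push_cast at this; exact this) (by have := htt.2; push_cast at this; exact this)
  rw [← hT1] at s4
  set M1 : ℝ := (LP X' * (1 / ((s * W).totient : ℝ))) * P0 with hM1
  have hab4 := abs_le.1 s4
  have hM1le : M1 ≤ 2 * T := by nlinarith
  have hM10 : 0 ≤ M1 := by nlinarith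
  have s5 : |(LP X' * (1 / ((s * W).totient : ℝ))) * SS - M1 * DDp| ≤ ε / 4 * T := by
    have h1 : (LP X' * (1 / ((s * W).totient : ℝ))) * SS - M1 * DDp =
        M1 * ((LL X * BE E) ^ K0 * SS - DDp) := by
      rw [hM1, hP0]
      field_simp
    rw [h1, abs_mul, abs_of_nonneg hM10]
    calc M1 * |(LL X * BE E) ^ K0 * SS - DDp| ≤ (2 * T) * (ε / 8) :=
          mul_le_mul hM1le s3' (abs_nonneg _) (by positivity)
      _ = _ := by ring
  have s6 : |M1 * DDp - T * DDp| ≤ ε / 8 * T := by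
    rw [← sub_mul, abs_mul]
    calc |M1 - T| * |DDp| ≤ (η * T) * |DDp| := mul_le_mul_of_nonneg_right s4 (abs_nonneg _)
      _ = (η * |DDp|) * T := by ring
      _ ≤ _ := mul_le_mul_of_nonneg_right hηD hT0
  -- errors
  have hlogpow : 0 < Real.log X ^ (K0 + 4) := by positivity
  have er2 : X' / Real.log X' ^ A ≤ ε / 4 * T := by
    have h1 : X' / Real.log X' ^ A ≤ (Real.log X ^ nD * X) / Real.log X ^ A := by
      apply div_le_div₀ (by positivity) _ (by positivity)
      · exact pow_le_pow_left₀ hlog0.le (Real.log_le_log hX0 hXX') _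
      · rw [hX']
        exact mul_le_mul_of_nonneg_right hsD hX0.le
    refine h1.trans ?_
    refine le_trans ?_ (mul_le_mul_of_nonneg_left hTge (by positivity))
    have h2 : Real.log X ^ nD * X / Real.log X ^ A = X / (Real.log X ^ (K0 + 4) * Real.log X) := by
      have : Real.log X ^ A = Real.log X ^ nD * (Real.log X ^ (K0 + 4) * Real.log X) := by
        rw [hA, ← pow_succ, ← pow_add]
        congr 1
      rw [this]
      field_simp
    have h3 : ε / 4 * (X / (50 * Real.log X ^ (K0 + 4))) = X / (Real.log X ^ (K0 + 4) * (200 / ε)) := by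
      field_simp
      ring
    rw [h2, h3]
    apply div_le_div_of_nonneg_left hX0.le (by positivity)
    exact mul_le_mul_of_nonneg_left hlogε hlogpow.le
  have er1 : Real.exp (2 * S * LL X) * (4 * Real.log (4 * X') + 4 * Real.sqrt X' * Real.log (4 * X')) ≤ ε / 4 * T := by
    have hl4 : Real.log (4 * X') ≤ 3 * Real.log X := by
      have h1 : 4 * X' ≤ X ^ 3 := by
        have : X' ≤ X ^ 2 := by
          rw [hX', sq]
          exact mul_le_mul_of_nonneg_right hsX hX0.le
        nlinarith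
      have h2 := Real.log_le_log (by linarith) h1
      rwa [Real.log_pow] at h2
    have hl40 : 0 ≤ Real.log (4 * X') := Real.log_nonneg (by linarith)
    have hsq : 1 ≤ Real.sqrt X' := by
      rw [Real.one_le_sqrt]; linarith
    have hsq2 : Real.sqrt X' ≤ Real.log X ^ nD * Real.sqrt X := by
      rw [hX', Real.sqrt_mul hsr0.le]
      apply mul_le_mul_of_nonneg_right _ (Real.sqrt_nonneg _)
      refine le_trans ?_ hsD
      rw [Real.sqrt_le_left hsr0.le]
      nlinarith
    have h1 : 4 * Real.log (4 * X') + 4 * Real.sqrt X' * Real.log (4 * X') ≤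
        24 * (Real.log X ^ nD * Real.sqrt X * Real.log X) := by
      calc 4 * Real.log (4 * X') + 4 * Real.sqrt X' * Real.log (4 * X') ≤
          8 * (Real.sqrt X' * Real.log (4 * X')) := by nlinarith
        _ ≤ 8 * ((Real.log X ^ nD * Real.sqrt X) * (3 * Real.log X)) := by gcongr
        _ = _ := by ring
    have h2 : Real.exp (2 * S * LL X) * Real.sqrt X * Real.exp ((50 - S) / 100 * Real.log X) = X := by
      have h3 : Real.sqrt X = Real.exp (1 / 2 * Real.log X) := by
        rw [Real.sqrt_eq_rpow, Real.rpow_def_of_pos hX0]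
        ring_nf
      rw [h3, ← Real.exp_add, ← Real.exp_add]
      conv_rhs => rw [← Real.exp_log hX0]
      congr 1
      unfold LL
      ring
    refine le_trans ?_ (mul_le_mul_of_nonneg_left hTge (by positivity))
    have h3 : ε / 4 * (X / (50 * Real.log X ^ (K0 + 4))) = X / ((200 / ε) * Real.log X ^ (K0 + 4)) := by
      field_simp
      ring
    rw [h3, le_div_iff₀ (by positivity)]
    calc Real.exp (2 * S * LL X) * (4 * Real.log (4 * X') + 4 * Real.sqrt X' * Real.log (4 * X')) *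
        ((200 / ε) * Real.log X ^ (K0 + 4)) ≤
        Real.exp (2 * S * LL X) * (24 * (Real.log X ^ nD * Real.sqrt X * Real.log X)) *
        ((200 / ε) * Real.log X ^ (K0 + 4)) := by gcongr
      _ = Real.exp (2 * S * LL X) * Real.sqrt X * ((4800 / ε) * Real.log X ^ (nD + K0 + 5)) := by
          have : Real.log X ^ (nD + K0 + 5) = Real.log X ^ nD * (Real.log X * Real.log X ^ (K0 + 4)) := by
            rw [← pow_succ', ← pow_add]
            congr 1
          rw [this]
          ring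
      _ ≤ Real.exp (2 * S * LL X) * Real.sqrt X * Real.exp ((50 - S) / 100 * Real.log X) := by gcongr
      _ = X := h2
  have a1 := abs_le.1 s1
  have a2 := abs_le.1 s2
  have a5 := abs_le.1 s5
  have a6 := abs_le.1 s6
  have hε4 : ε / 4 * T + ε / 4 * T + ε / 4 * T + ε / 8 * T ≤ ε * T := by nlinarith
  rw [abs_le]
  constructor <;> linarith [a1.1, a1.2, a2.1, a2.2, a5.1, a5.2, a6.1, a6.2, s2', er1, er2]

end Pool.Agent.NH16.QL
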