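import Pool.Agent.NH16.QL.Stm
import Pool.Agent.H378R2.M7e

/-!
Project QL, job QL-6: sums over a class of primes times truncated divisor sums, with coefficients.
Port of `Pool.Agent.H378R2.sum2` (file `M7e.lean`).
-/

set_option autoImplicit false

open Finset

namespace Pool.Agent.NH16.QL

open Pool.Agent.H378R2

theorem SUM2.EP_eq (X : ℝ) (Q b : ℕ) : EP X Q b =
    ∑ n ∈ (Icc 1 ⌊3 * X⌋₊).filter (fun n => n ≡ b [MOD Q]),
      Ph (n / X) * ArithmeticFunction.vonMangoldt n - LP X * (1 / (Nat.totient Q : ℝ)) := rfl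

theorem t_SUM2 : S_SUM2 := by
  classical
  intro J X W b hW hbW F G L Cf hL hCf cF cG hF hG hF0 hG0 E R g h hEW hEg hEh hres B hB
  refine (expand_le E R L F G ⌊3 * X⌋₊ (fun n => if n ≡ b [MOD W] then Ph (n / X) * ArithmeticFunction.vonMangoldt n else 0)
    (fun n j => g j * n + h j) (LP X * (1 / W.totient)) (fun p _ => 1 / ((p : ℝ) - 1))).trans ?_
  refine (support_bound E R L Cf hL hCf F G cF cG hF hG hF0 hG0 _ (fun _ _ => abs_nonneg _)).trans ?_
  apply mul_le_mul_of_nonneg_left _ (by positivity)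
  refine fiber_bound (supp E R L cF) (supp E R L cG) _ PC (fun q => |EP X (W * q) (B q)|)
    (fun _ => abs_nonneg _) ?_ ?_ _ ?_ ?_
  · intro q hq
    rw [Finset.mem_filter, Finset.mem_Icc] at hq
    omega
  · intro d hd e he hPC
    have hdp := supp_prod_le hd
    have hep := supp_prod_le he
    rw [mem_supp] at hd he
    have hd0 : ∀ j, d j ≠ 0 := fun j => by have := (mem_adm.1 (hd j).1).1.1; omega
    have he0 : ∀ j, e j ≠ 0 := fun j => by have := (mem_adm.1 (he j).1).1.1; omega
    have hprodpos : 0 < ∏ j, Nat.lcm (d j) (e j) :=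
      Finset.prod_pos fun j _ => Nat.pos_of_ne_zero (Nat.lcm_ne_zero (hd0 j) (he0 j))
    rw [Finset.mem_filter, Finset.mem_Icc]
    refine ⟨⟨hprodpos, Nat.le_floor ?_⟩, ?_, ?_⟩
    · have h1 : ∏ j, Nat.lcm (d j) (e j) ≤ (∏ j, d j) * ∏ j, e j := by
        rw [← Finset.prod_mul_distrib]
        exact Finset.prod_le_prod' fun j _ => lcm_le_mul' (Nat.pos_of_ne_zero (hd0 j)) (Nat.pos_of_ne_zero (he0 j))
      calc ((∏ j, Nat.lcm (d j) (e j) : ℕ) : ℝ) ≤ (((∏ j, d j) * ∏ j, e j : ℕ) : ℝ) := by exact_mod_cast h1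
        _ = ((∏ j, d j : ℕ) : ℝ) * ((∏ j, e j : ℕ) : ℝ) := by push_cast; ring
        _ ≤ Real.exp (L * ∑ j, cF j) * Real.exp (L * ∑ j, cG j) := by
            apply mul_le_mul hdp hep (Nat.cast_nonneg _) (Real.exp_pos _).le
        _ = _ := by rw [← Real.exp_add]; ring_nf
    · exact squarefree_prod _ hPC fun j => sqf_lcm (mem_adm.1 (hd j).1).2.1 (mem_adm.1 (he j).1).2.1
    · exact Nat.Coprime.prod_left fun j _ => adm_lcm_coprime (hd j).1 (he j).1 (hEW j)
  · intro d hd e he hPC
    rw [mem_supp] at hd he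
    set D : Fin J → ℕ := fun j => Nat.lcm (d j) (e j) with hD
    have hd0 : ∀ j, d j ≠ 0 := fun j => by have := (mem_adm.1 (hd j).1).1.1; omega
    have he0 : ∀ j, e j ≠ 0 := fun j => by have := (mem_adm.1 (he j).1).1.1; omega
    have hD0 : ∀ j, D j ≠ 0 := fun j => Nat.lcm_ne_zero (hd0 j) (he0 j)
    have hDW : ∀ j, (D j).Coprime W := fun j => adm_lcm_coprime (hd j).1 (he j).1 (hEW j)
    have hDg : ∀ j, (g j).Coprime (D j) := fun j => (adm_lcm_coprime (hd j).1 (he j).1 (hEg j)).symm
    have hDsq : ∀ j, Squarefree (D j) := fun j =>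
      sqf_lcm (mem_adm.1 (hd j).1).2.1 (mem_adm.1 (he j).1).2.1
    obtain ⟨b', hb'⟩ := class_exists W b hW.ne' D g h hD0 hPC hDW hDg
    have hprodpos : 0 < ∏ j, D j := Finset.prod_pos fun j _ => Nat.pos_of_ne_zero (hD0 j)
    have hself := (hb' b').2 rfl
    have hcop : b'.Coprime (W * ∏ j, D j) := by
      rw [Nat.coprime_mul_iff_right]
      constructor
      · have h1 : b'.gcd W = b.gcd W := Nat.ModEq.gcd_eq hself.1
        rw [Nat.coprime_iff_gcd_eq_one, h1]
        exact hbW
      · apply Nat.Coprime.prod_right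
        intro j _
        by_contra hcop
        obtain ⟨p, hp, hpi, hpj⟩ := Nat.Prime.not_coprime_iff_dvd.1 hcop
        have hpE := prime_not_mem (hd j).1 (he j).1 hp hpj
        apply hEh j p hp hpE
        have h2 : (p : ℤ) ∣ g j * b' + h j := (Int.natCast_dvd_natCast.2 hpj).trans (hself.2 j)
        have h3 : (p : ℤ) ∣ g j * b' := Dvd.dvd.mul_left (Int.natCast_dvd_natCast.2 hpi) _
        exact (Int.dvd_add_right h3).1 h2
    have e1 : Err ⌊3 * X⌋₊ (fun n => if n ≡ b [MOD W] then Ph (n / X) * ArithmeticFunction.vonMangoldt n else 0)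
      (fun n j => g j * n + h j) (LP X * (1 / W.totient)) (fun p _ => 1 / ((p : ℝ) - 1)) d e =
        EP X (W * ∏ j, D j) b' := by
      rw [SUM2.EP_eq]
      unfold Err
      rw [if_pos hPC]
      congr 1
      · rw [Finset.sum_filter]
        refine Finset.sum_congr rfl fun n _ => ?_
        by_cases hn : n ≡ b' [MOD (W * ∏ j, D j)]
        · have h3 := (hb' n).2 hn
          have hDC : DC (fun j => (g j : ℤ) * n + h j) d e := h3.2
          simp only [if_pos hn, if_pos hDC, if_pos h3.1]
        · rw [if_neg hn]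
          by_cases hDC : DC (fun j => (g j : ℤ) * n + h j) d e
          · rw [if_pos hDC]
            have hna : ¬ n ≡ b [MOD W] := fun hna => hn ((hb' n).1 ⟨hna, hDC⟩)
            simp only [if_neg hna]
          · rw [if_neg hDC]
      · rw [mul_assoc]
        congr 1
        have hcopW : W.Coprime (∏ j, D j) := Nat.Coprime.prod_right fun j _ => (hDW j).symm
        rw [Nat.totient_mul hcopW, totient_prod D hPC]
        have : ∀ j : Fin J, ∏ p ∈ (Nat.lcm (d j) (e j)).primeFactors, (1 : ℝ) / ((p : ℝ) - 1) =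
            1 / ((D j).totient : ℝ) := by
          intro j
          rw [totient_sqf (hDsq j), Finset.prod_div_distrib, Finset.prod_const_one]
        simp_rw [this]
        rw [Finset.prod_div_distrib, Finset.prod_const_one]
        push_cast
        rw [one_div_mul_one_div]
    rw [e1]
    exact hB _ hprodpos _ hcop
  · intro d hd e he hPC
    rw [mem_supp] at hd he
    rw [not_PC_err _ _ _ _ (fun j => (hd j).1) (fun j => (he j).1) _ hPC]
    · norm_num
    · intro i j hij p hp hpi hpj n _ _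
      exact hres i j hij p hp hpi hpj n

end Pool.Agent.NH16.QL
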