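import Pool.Agent.NH16.QL.Stm
import Pool.Agent.H378R2.M7d
import Pool.Agent.H387R2.MB2

/-! QL-5: the first sum (`S_S1PR`, `S_S1UP`, `S_TOT` from `S_WGT`). -/

set_option autoImplicit false

open Finset Filter Topology
open scoped ContDiff

namespace Pool.Agent.NH16.QL

open Pool.Agent.H378R2 Pool.Agent.H387R2 Pool.Agent.H387R2.MB Pool.Agent.H362R2.QT

namespace TOTa

theorem sum1P (hw : S_WGT) {J : ℕ} (X : ℝ) (hX : 4 ≤ X) (W a : ℕ) (hW : 0 < W) (F G : Fin J → ℝ → ℝ)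
    (L Cf : ℝ) (hL : 0 < L) (hCf : 0 ≤ Cf) (cF cG : Fin J → ℝ)
    (hF : ∀ j x, |F j x| ≤ Cf) (hG : ∀ j x, |G j x| ≤ Cf)
    (hF0 : ∀ j x, cF j < x → F j x = 0) (hG0 : ∀ j x, cG j < x → G j x = 0)
    (E : Fin J → Finset ℕ) (R : ℕ) (c : Fin J → ℕ) (h : Fin J → ℤ)
    (hEW : ∀ j, ∀ p : ℕ, p.Prime → p ∉ E j → ¬ p ∣ W) (hEc : ∀ j, ∀ p : ℕ, p.Prime → p ∉ E j → ¬ p ∣ c j)
    (hres : ∀ i j, i ≠ j → ∀ p : ℕ, p.Prime → p ∉ E i → p ∉ E j → ∀ n : ℕ,
      ¬ ((p : ℤ) ∣ c i * n + h i ∧ (p : ℤ) ∣ c j * n + h j))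
    (hsize : W * Real.exp (L * (∑ j, cF j + ∑ j, cG j)) ≤ X) :
    |∑ n ∈ Icc 1 ⌊3 * X⌋₊, (if n ≡ a [MOD W] then Ph (n / X) else 0) *
        ∏ j, (VVm (E j) R L (F j) (c j * n + h j) * VVm (E j) R L (G j) (c j * n + h j)) -
      (MP X * (1 / W)) * sieveSum J F G L E (fun p _ => 1 / (p : ℝ)) R| ≤
    5 * Cf ^ (2 * J) * Real.exp (L * (∑ j, cF j + ∑ j, cG j)) := by
  classical
  refine (expand_le E R L F G ⌊3 * X⌋₊ (fun n => if n ≡ a [MOD W] then Ph (n / X) else 0)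
    (fun n j => c j * n + h j) (MP X * (1 / W)) (fun p _ => 1 / (p : ℝ))).trans ?_
  refine (support_bound E R L Cf hL hCf F G cF cG hF hG hF0 hG0 _ (fun _ _ => abs_nonneg _)).trans ?_
  have key : ∀ d ∈ supp E R L cF, ∀ e ∈ supp E R L cG,
      |Err ⌊3 * X⌋₊ (fun n => if n ≡ a [MOD W] then Ph (n / X) else 0)
        (fun n j => c j * n + h j) (MP X * (1 / W)) (fun p _ => 1 / (p : ℝ)) d e| ≤ 5 := by
    intro d hd e he
    have hdp := supp_prod_le hd
    have hep := supp_prod_le he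
    rw [mem_supp] at hd he
    by_cases hPC : PC d e
    · set D : Fin J → ℕ := fun j => Nat.lcm (d j) (e j) with hD
      have hd0 : ∀ j, d j ≠ 0 := fun j => by have := (mem_adm.1 (hd j).1).1.1; omega
      have he0 : ∀ j, e j ≠ 0 := fun j => by have := (mem_adm.1 (he j).1).1.1; omega
      have hD0 : ∀ j, D j ≠ 0 := fun j => Nat.lcm_ne_zero (hd0 j) (he0 j)
      have hDW : ∀ j, (D j).Coprime W := fun j => adm_lcm_coprime (hd j).1 (he j).1 (hEW j)
      have hDc : ∀ j, (c j).Coprime (D j) := fun j => (adm_lcm_coprime (hd j).1 (he j).1 (hEc j)).symm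
      have hDsq : ∀ j, Squarefree (D j) := fun j =>
        sqf_lcm (mem_adm.1 (hd j).1).2.1 (mem_adm.1 (he j).1).2.1
      obtain ⟨b, hb⟩ := class_exists W a hW.ne' D c h hD0 hPC hDW hDc
      have hprodpos : 0 < ∏ j, D j := Finset.prod_pos fun j _ => Nat.pos_of_ne_zero (hD0 j)
      have hDle : ((∏ j, D j : ℕ) : ℝ) ≤ Real.exp (L * (∑ j, cF j + ∑ j, cG j)) := by
        have h1 : ∏ j, D j ≤ (∏ j, d j) * ∏ j, e j := by
          rw [← Finset.prod_mul_distrib]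
          exact Finset.prod_le_prod' fun j _ => lcm_le_mul' (Nat.pos_of_ne_zero (hd0 j)) (Nat.pos_of_ne_zero (he0 j))
        calc ((∏ j, D j : ℕ) : ℝ) ≤ (((∏ j, d j) * ∏ j, e j : ℕ) : ℝ) := by exact_mod_cast h1
          _ = ((∏ j, d j : ℕ) : ℝ) * ((∏ j, e j : ℕ) : ℝ) := by push_cast; ring
          _ ≤ Real.exp (L * ∑ j, cF j) * Real.exp (L * ∑ j, cG j) := by
              apply mul_le_mul hdp hep (Nat.cast_nonneg _) (Real.exp_pos _).le
          _ = _ := by rw [← Real.exp_add]; ring_nf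
      have hQle : ((W * ∏ j, D j : ℕ) : ℝ) ≤ X := by
        push_cast
        refine le_trans ?_ hsize
        have : (∏ j, (D j : ℝ)) ≤ Real.exp (L * (∑ j, cF j + ∑ j, cG j)) := by
          have := hDle; push_cast at this; exact this
        exact mul_le_mul_of_nonneg_left this (Nat.cast_nonneg _)
      have h2 := hw.cls X hX (W * ∏ j, D j) b (Nat.mul_pos hW hprodpos) hQle
      have e1 : Err ⌊3 * X⌋₊ (fun n => if n ≡ a [MOD W] then Ph (n / X) else 0)
        (fun n j => c j * n + h j) (MP X * (1 / W)) (fun p _ => 1 / (p : ℝ)) d e =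
          ∑ n ∈ (Icc 1 ⌊3 * X⌋₊).filter (fun n => n ≡ b [MOD (W * ∏ j, D j)]), Ph (n / X) -
            MP X * (1 / ((W * ∏ j, D j : ℕ) : ℝ)) := by
        unfold Err
        rw [if_pos hPC]
        congr 1
        · rw [Finset.sum_filter]
          refine Finset.sum_congr rfl fun n _ => ?_
          by_cases hn : n ≡ b [MOD (W * ∏ j, D j)]
          · have h3 := (hb n).2 hn
            have hDC : DC (fun j => (c j : ℤ) * n + h j) d e := h3.2
            simp only [if_pos hn, if_pos hDC, if_pos h3.1]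
          · rw [if_neg hn]
            by_cases hDC : DC (fun j => (c j : ℤ) * n + h j) d e
            · rw [if_pos hDC]
              have hna : ¬ n ≡ a [MOD W] := fun hna => hn ((hb n).1 ⟨hna, hDC⟩)
              simp only [if_neg hna]
            · rw [if_neg hDC]
        · rw [mul_assoc]
          congr 1
          have : ∀ j : Fin J, ∏ p ∈ (Nat.lcm (d j) (e j)).primeFactors, (1 : ℝ) / p = 1 / (D j : ℝ) :=
            fun j => prod_one_div (hDsq j)
          simp_rw [this]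
          rw [Finset.prod_div_distrib, Finset.prod_const_one]
          push_cast
          field_simp
      rw [e1]
      exact h2
    · rw [not_PC_err _ _ _ _ (fun j => (hd j).1) (fun j => (he j).1) _ hPC]
      · norm_num
      · intro i j hij p hp hpi hpj n _ _
        exact hres i j hij p hp hpi hpj n
  have h3 : ∑ d ∈ supp E R L cF, ∑ e ∈ supp E R L cG,
      |Err ⌊3 * X⌋₊ (fun n => if n ≡ a [MOD W] then Ph (n / X) else 0)
        (fun n j => c j * n + h j) (MP X * (1 / W)) (fun p _ => 1 / (p : ℝ)) d e| ≤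
      5 * Real.exp (L * (∑ j, cF j + ∑ j, cG j)) := by
    calc _ ≤ ∑ d ∈ supp E R L cF, ∑ e ∈ supp E R L cG, (5 : ℝ) :=
          Finset.sum_le_sum fun d hd => Finset.sum_le_sum fun e he => key d hd e he
      _ = ((supp E R L cF).card : ℝ) * (((supp E R L cG).card : ℝ) * 5) := by
          rw [Finset.sum_const, Finset.sum_const, nsmul_eq_mul, nsmul_eq_mul]
      _ ≤ Real.exp (L * ∑ j, cF j) * (Real.exp (L * ∑ j, cG j) * 5) := by
          have := supp_card E R L cF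
          have := supp_card E R L cG
          gcongr
      _ = _ := by rw [mul_add, Real.exp_add]; ring
  calc _ ≤ Cf ^ (2 * J) * (5 * Real.exp (L * (∑ j, cF j + ∑ j, cG j))) :=
        mul_le_mul_of_nonneg_left h3 (by positivity)
    _ = _ := by ring

end TOTa

theorem t_S1PR (h : S_WGT) : S_S1PR := by
  intro K F G cF cG Cf hCf hF hG hF0 hG0 hs X hX hL z W E hC a0 t ht
  have k1 := TOTa.sum1P h X hX W a0 hC.pos F G (LL X) Cf (by linarith) hCf cF cG hF hG hF0 hG0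
    (fun _ => E) (RR X) t
    (fun _ => (1 : ℤ)) (fun _ p hp h => hC.dv p hp h)
    (fun j p hp hpE => ht.du p hp hpE j)
    (by
      intro i j hij p hp hpE _ n hh
      apply ht.dt i j hij p hp hpE
      have h8 := dvd_sub (hh.2.mul_left (t i : ℤ)) (hh.1.mul_left (t j : ℤ))
      have h7 : (t i : ℤ) * ((t j : ℤ) * n + 1) - (t j : ℤ) * ((t i : ℤ) * n + 1) = t i - t j := by ring
      rwa [h7] at h8)
    (size_aux' (by linarith) hC.le (by linarith))
  refine k1.trans ?_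
  apply mul_le_mul_of_nonneg_left _ (by positivity)
  apply Real.exp_le_exp.2
  nlinarith

theorem t_S1UP (h : S_WGT) : S_S1UP := by
  classical
  intro K B f c A hsm hcs hf0 hc hA hf1 ε1 hε1
  have hz : ∀ ab : (Fin K → Fin B) × (Fin K → Fin B), ∃ z : ℕ, ∀ᶠ X : ℝ in atTop,
      ∀ (E : Fin K → Finset ℕ) (w : ℕ → Fin K → ℝ),
      (∀ j, GE X z (E j)) →
      (∀ j, ∀ p : ℕ, p.Prime → |w p j - 1 / p| ≤ 2 / (p : ℝ) ^ 2) →
      |(∏ j, (LL X * BE (E j))) * sieveSum K (fun j => f (ab.1 j)) (fun j => f (ab.2 j)) (LL X) E w (RR X) -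
        ∏ j, DD (f (ab.1 j)) (f (ab.2 j))| ≤ ε1 / ((A.card : ℝ) ^ 2 + 1) := by
    intro ab
    exact asympE K (fun j => f (ab.1 j)) (fun j => f (ab.2 j)) (fun j => hsm _) (fun j => hsm _)
      (fun j => hcs _) (fun j => hcs _) (fun j x hx => hf0 _ x ((hc _).2.trans_lt hx))
      (fun j x hx => hf0 _ x ((hc _).2.trans_lt hx)) _ (by positivity)
  choose z hz using hz
  refine ⟨(A ×ˢ A).sup z, ?_⟩
  have hev : ∀ᶠ X : ℝ in atTop, ∀ ab ∈ A ×ˢ A, ∀ (E : Fin K → Finset ℕ) (w : ℕ → Fin K → ℝ),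
      (∀ j, GE X (z ab) (E j)) →
      (∀ j, ∀ p : ℕ, p.Prime → |w p j - 1 / p| ≤ 2 / (p : ℝ) ^ 2) →
      |(∏ j, (LL X * BE (E j))) * sieveSum K (fun j => f (ab.1 j)) (fun j => f (ab.2 j)) (LL X) E w (RR X) -
        ∏ j, DD (f (ab.1 j)) (f (ab.2 j))| ≤ ε1 / ((A.card : ℝ) ^ 2 + 1) := by
    rw [Filter.eventually_all_finset]
    intro ab _
    exact hz ab
  filter_upwards [hev, eventually_ge_atTop 4, LL_tendsto.eventually_ge_atTop 1] with X h1 h4 h6
  intro W E a0 t hC ht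
  have hWpos : 0 < W := hC.pos
  have hWr : (0 : ℝ) < W := by exact_mod_cast hWpos
  have hBE : 0 < BE E := BE_pos hC.ge.pr
  have hLB : 0 < LL X * BE E := by positivity
  have hMnn : 0 ≤ MP X := h.mnn X
  have hone : ∀ a ∈ A, ∀ b ∈ A, ∑ n ∈ Icc 1 ⌊3 * X⌋₊, nw X W a0 n *
      ∏ j, (VVm E (RR X) (LL X) (f (a j)) (vl (t j) n) * VVm E (RR X) (LL X) (f (b j)) (vl (t j) n)) ≤
      (MP X * (1 / (W : ℝ))) * (1 / (LL X * BE E) ^ K) *
        (∏ j, DD (f (a j)) (f (b j)) + ε1 / ((A.card : ℝ) ^ 2 + 1)) + 5 * Real.exp (2 * LL X) := by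
    intro a ha b hb
    have hsum : ∑ j, c (a j) + ∑ j, c (b j) ≤ 2 := by
      have := hA a ha
      have := hA b hb
      linarith
    have k1 := t_S1PR h (fun j => f (a j)) (fun j => f (b j)) (fun j => c (a j)) (fun j => c (b j)) 1 zero_le_one
      (fun j x => hf1 _ x) (fun j x => hf1 _ x)
      (fun j x hx => hf0 _ x hx) (fun j x hx => hf0 _ x hx) hsum X h4 h6 _ W E hC a0 t ht
    rw [one_pow, mul_one] at k1
    have hab : (a, b) ∈ A ×ˢ A := Finset.mem_product.2 ⟨ha, hb⟩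
    have k2 := h1 (a, b) hab (fun _ => E) (fun p _ => 1 / (p : ℝ))
      (fun _ => hC.ge.mono (Finset.le_sup (f := z) hab)) (fun _ p _ => w_one p)
    have k3 : ∏ j : Fin K, (LL X * BE E) = (LL X * BE E) ^ K := by
      rw [Finset.prod_const, Finset.card_univ, Fintype.card_fin]
    rw [k3] at k2
    have k4 := (abs_le.1 k1).2
    have k5 := (abs_le.1 k2).2
    simp only at k5
    set SS := sieveSum K (fun j => f (a j)) (fun j => f (b j)) (LL X) (fun _ => E) (fun p _ => 1 / (p : ℝ)) (RR X)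
    have k6 : SS ≤ (1 / (LL X * BE E) ^ K) * (∏ j, DD (f (a j)) (f (b j)) + ε1 / ((A.card : ℝ) ^ 2 + 1)) := by
      rw [one_div, ← div_eq_inv_mul, le_div_iff₀ (by positivity)]
      linarith
    have k7 : MP X * (1 / (W : ℝ)) * SS ≤ (MP X * (1 / (W : ℝ))) * ((1 / (LL X * BE E) ^ K) *
        (∏ j, DD (f (a j)) (f (b j)) + ε1 / ((A.card : ℝ) ^ 2 + 1))) :=
      mul_le_mul_of_nonneg_left k6 (by positivity)
    linarith
  simp_rw [sqw_sq, Finset.mul_sum]
  rw [Finset.sum_comm]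
  have hswap : ∀ a ∈ A, ∑ n ∈ Icc 1 ⌊3 * X⌋₊, ∑ b ∈ A, nw X W a0 n *
      ∏ j, (VVm E (RR X) (LL X) (f (a j)) (vl (t j) n) * VVm E (RR X) (LL X) (f (b j)) (vl (t j) n)) ≤
      ∑ b ∈ A, ((MP X * (1 / (W : ℝ))) * (1 / (LL X * BE E) ^ K) *
        (∏ j, DD (f (a j)) (f (b j)) + ε1 / ((A.card : ℝ) ^ 2 + 1)) + 5 * Real.exp (2 * LL X)) := by
    intro a ha
    rw [Finset.sum_comm]
    exact Finset.sum_le_sum fun b hb => hone a ha b hb
  refine (Finset.sum_le_sum hswap).trans ?_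
  simp_rw [Finset.sum_add_distrib, ← Finset.mul_sum, Finset.sum_add_distrib, Finset.sum_const, nsmul_eq_mul]
  have hfin : ((A.card : ℝ) * ((A.card : ℝ) * (ε1 / ((A.card : ℝ) ^ 2 + 1)))) ≤ ε1 := by
    have : (A.card : ℝ) * ((A.card : ℝ) * (ε1 / ((A.card : ℝ) ^ 2 + 1))) =
        ((A.card : ℝ) ^ 2 / ((A.card : ℝ) ^ 2 + 1)) * ε1 := by ring
    rw [this]
    have h7 : (A.card : ℝ) ^ 2 / ((A.card : ℝ) ^ 2 + 1) ≤ 1 := by
      rw [div_le_one (by positivity)]; linarith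
    nlinarith
  have hcoef : 0 ≤ (MP X * (1 / (W : ℝ))) * (1 / (LL X * BE E) ^ K) := by positivity
  have : (MP X * (1 / (W : ℝ))) * (1 / (LL X * BE E) ^ K) *
      (∑ a ∈ A, ∑ b ∈ A, ∏ j, DD (f (a j)) (f (b j)) +
        (A.card : ℝ) * ((A.card : ℝ) * (ε1 / ((A.card : ℝ) ^ 2 + 1)))) ≤
      (MP X * (1 / (W : ℝ))) * (1 / (LL X * BE E) ^ K) * (II f A + ε1) := by
    apply mul_le_mul_of_nonneg_left _ hcoef
    unfold II
    linarith
  unfold QM
  calc _ = (MP X * (1 / (W : ℝ))) * (1 / (LL X * BE E) ^ K) *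
      (∑ a ∈ A, ∑ b ∈ A, ∏ j, DD (f (a j)) (f (b j)) +
        (A.card : ℝ) * ((A.card : ℝ) * (ε1 / ((A.card : ℝ) ^ 2 + 1)))) +
          (A.card : ℝ) ^ 2 * (5 * Real.exp (2 * LL X)) := by ring
    _ ≤ _ := by linarith

theorem t_TOT (h : S_WGT) : S_TOT := by
  intro K B f c A hsm hcs hf0 hc hA hf1 ε hε
  obtain ⟨z, hz⟩ := t_S1UP h f c A hsm hcs hf0 hc hA hf1 (ε / 2) (by positivity)
  refine ⟨z, ?_⟩
  filter_upwards [hz, h.ex K ((A.card : ℝ) ^ 2 * 5) (ε / 2) (by positivity),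
    LL_tendsto.eventually_ge_atTop 1, ev_pow_exp 3 (1 / 700) 1 (by norm_num) |>
      (fun h => Real.tendsto_log_atTop.eventually h)] with X h1 h2 h3 h4
  intro D θ W E a0 t hC
  have hWle : (W : ℝ) ≤ Real.exp (Real.log X / 700) := by
    refine hC.cs.le.trans ?_
    rw [one_mul] at h4
    calc Real.log X ^ 3 ≤ Real.exp (1 / 700 * Real.log X) := h4
      _ = _ := by ring_nf
  have hCW : CW X z W E := ⟨hC.cs.gs.toGE h3, hC.cs.pos, hWle, hC.cs.dv⟩
  have s1 := h1 W E a0 t hCW hC.dl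
  have s2 := h2 W E hC.cs.pos hC.cs.le hC.cs.gs.pr
  have e1 : Real.exp (2 * LL X) ≤ Real.exp (3 * LL X) := Real.exp_le_exp.2 (by linarith)
  have e2 : (A.card : ℝ) ^ 2 * (5 * Real.exp (2 * LL X)) ≤
      (A.card : ℝ) ^ 2 * 5 * Real.exp (3 * LL X) := by
    rw [mul_assoc]
    exact mul_le_mul_of_nonneg_left (mul_le_mul_of_nonneg_left e1 (by norm_num)) (by positivity)
  refine s1.trans ?_
  nlinarith [s2, e2]

end Pool.Agent.NH16.QL
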