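import Pool.Agent.NH16.QL.WGT
import Pool.Agent.NH16.QL.SUM2
import Pool.Agent.NH16.QL.PAIR
import Pool.Agent.NH16.QL.BV
import Pool.Agent.NH16.QL.BVU
import Pool.Agent.NH16.QL.COL
import Pool.Agent.NH16.QL.CTS
import Pool.Agent.NH16.QL.CV
import Pool.Agent.NH16.QL.FIN
import Pool.Agent.NH16.QL.FINN
import Pool.Agent.NH16.QL.LOW
import Pool.Agent.NH16.QL.NR
import Pool.Agent.NH16.QL.ONE
import Pool.Agent.NH16.QL.PNT
import Pool.Agent.NH16.QL.RU
import Pool.Agent.NH16.QL.S2
import Pool.Agent.NH16.QL.SM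
import Pool.Agent.NH16.QL.TOT

/-!
# Project QL: assembly
-/

namespace Pool.Agent.NH16.QL

theorem wgt_holds : S_WGT := t_WGT
theorem pnt_holds : S_PNT := t_PNT
theorem bv_holds : S_BV := t_BV t_BVU
theorem sum2_holds : S_SUM2 := t_SUM2
theorem s2_holds : S_S2 := t_S2 wgt_holds pnt_holds bv_holds sum2_holds (t_CV wgt_holds) t_VM t_TT
theorem s1pr_holds : S_S1PR := t_S1PR wgt_holds
theorem s1up_holds : S_S1UP := t_S1UP wgt_holds
theorem tot_holds : S_TOT := t_TOT wgt_holds
theorem one_holds : S_ONE := t_ONE wgt_holds s2_holds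
theorem pair_holds : S_PAIR := t_PAIR wgt_holds s2_holds
theorem nr_holds : S_NR := t_NR wgt_holds s1pr_holds s1up_holds
theorem ru_holds : S_RU := t_RU wgt_holds s1up_holds
theorem col_holds : S_COL := t_COL wgt_holds tot_holds one_holds pair_holds nr_holds
theorem low_holds : S_LOW := t_LOW wgt_holds col_holds
theorem upp_holds : S_UPP := t_UPP wgt_holds ru_holds
theorem sm_holds : S_SM := t_SM wgt_holds low_holds upp_holds
theorem finn_holds : S_FINN := t_FINN wgt_holds sm_holds t_CTS t_MEAN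
theorem fin_holds : S_FIN := t_FIN wgt_holds finn_holds

end Pool.Agent.NH16.QL
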