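import Pool.Agent.NH16.QL.Stm
import Pool.Agent.H362R2.QT.SM

/-! QL-15 (helper91): second moment and combinatorics in one class, after `Pool.Agent.H362R2.QT.SM`. -/

set_option autoImplicit false

namespace Pool.Agent.NH16.QL

open Finset Filter Topology
open Pool.Agent.H378R2 Pool.Agent.H387R2 Pool.Agent.H387R2.MB Pool.Agent.H362R2.QT

namespace SMp

lemma UM_add (r j : ℕ) (X : ℝ) (y : ℕ) : UM (r + j) X y = UM r X y / (LL X * rho y) ^ j := by
  unfold UM
  rw [pow_add]
  simp only [one_div, mul_inv]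
  rw [div_eq_mul_inv]
  ring

lemma nw_nonneg (hW : S_WGT) (X : ℝ) (W a n : ℕ) : 0 ≤ nw X W a n := by
  unfold nw
  split_ifs
  · exact hW.nn _
  · exact le_rfl

end SMp

open SMp

open Classical in
/-- **QL-15.** -/
theorem t_SM (hW : S_WGT) (hL : S_LOW) (hU' : S_UPP) : S_SM := by
  intro k ε lam hk hε hlam
  obtain ⟨m, hm1, hkm, hdens⟩ := dens4' k hk ε hε
  obtain ⟨K', hK', δ, hδ, hδ2, c0, hc0, hlow⟩ := hL m hm1
  obtain ⟨δ', hδ', n0, hd⟩ := hdens K' hK'
  have hKr : k + 1 ≤ 4 * m * K' := hkm.trans (Nat.le_mul_of_pos_right _ hK')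
  set J := 4 * m * K' - (k + 1) with hJ
  obtain ⟨C1, hC1, hupp1⟩ := hU' (k + 1) δ hδ
  obtain ⟨C2, hC2, hupp2⟩ := hU' (k + 1 + 2 * J) δ hδ
  set D := Dc (k + 1) J * (C1 / lam ^ (2 * J) + C2) with hD
  have hD0 : 0 ≤ D := by
    have : 0 ≤ Dc (k + 1) J := by unfold Dc; positivity
    positivity
  have hKpos : (0:ℝ) < ((4 * m * K' : ℕ) : ℝ) := by exact_mod_cast (by omega : 0 < 4 * m * K')
  set κ0 : ℝ := 2 * c0 * δ' / ((1 + D) * ((4 * m * K' : ℕ) : ℝ) ^ (k + 1)) with hκ0
  have hκ : 0 < κ0 := by positivity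
  refine ⟨κ0 ^ 2, by positivity, fun C => ?_⟩
  have tN : Tendsto (fun N : ℕ => (N : ℝ)) atTop atTop := tendsto_natCast_atTop_atTop
  have tL : Tendsto (fun N : ℕ => Real.log (N : ℝ)) atTop atTop := Real.tendsto_log_atTop.comp tN
  have tX : Tendsto (fun N : ℕ => (N : ℝ) / 4) atTop atTop := tN.atTop_div_const (by norm_num)
  filter_upwards [hlow C, hupp1 C, hupp2 C, (LL_tendsto.comp tX).eventually_ge_atTop 1, tX.eventually hW.mge,
    tX.eventually_ge_atTop 4, r0_big lam n0 hlam, tL.eventually_gt_atTop 0] with N h1 h2 h3 h4 h5 h6 h7 h8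
  set X := (N:ℝ) / 4 with hX
  set y := ⌊Real.log (Real.log (N:ℝ))⌋₊ with hy
  have hL0 : 0 < LL X := by
    have : 1 ≤ LL X := h4
    linarith
  have hρ := rho_pos y
  have hMP : 0 < MP X := lt_of_lt_of_le (by positivity) h5
  intro b S hS1 hSM hSc hScard
  have hn0 : n0 ≤ S.card := by exact_mod_cast h7.trans hScard
  set g := LL X * rho y with hg
  have hg0 : 0 < g := by positivity
  have hW0 : (0:ℝ) < (Uni.WW y : ℝ) := by exact_mod_cast Uni.WW_pos y
  have hU : 0 < UM (k + 1) X y := by unfold UM; positivity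
  have hsg : lam * g ≤ S.card := by
    refine le_trans ?_ hScard
    have : LL X ≤ Real.log N := by
      unfold LL
      have e1 : Real.log X ≤ Real.log N := Real.log_le_log (by linarith) (by
        have : (0:ℝ) ≤ N := Nat.cast_nonneg N
        rw [hX]; linarith)
      linarith
    calc lam * g = lam * rho y * LL X := by rw [hg]; ring
      _ ≤ _ := mul_le_mul_of_nonneg_left this (by positivity)
  set Fail : Finset (Fin (4 * m) × Fin K' → ℕ) := (Fintype.piFinset (fun _ => S)).filter (fun A => Function.Injective A ∧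
    ¬ ∃ (S' : Finset (Fin (4 * m))) (c : Fin (4 * m) → Fin K'), m ≤ S'.card ∧
          ∀ U ⊆ S'.image (fun i => A (i, c i)), U.card = k + 1 → GoodM (κ0 ^ 2) k N y b U) with hFail
  have hcardI : Fintype.card (Fin (4 * m) × Fin K') = k + 1 + J := by
    rw [Fintype.card_prod, Fintype.card_fin, Fintype.card_fin]
    omega
  have hbound := absSM (ι := Fin (4 * m) × Fin K') (Icc 1 ⌊3 * X⌋₊) (fun n => nw X (Uni.WW y) b n)
    (fun n => nw_nonneg hW X _ b n) (fun n a => Rg δ X (a * n + 1)) (fun n a => (a * n + 1).Prime) S (k + 1) J hcardI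
    (UM (k + 1) X y) g c0 C1 C2 lam κ0 hU hg0 hC1.le hC2.le hlam hsg hκ
    (fun T hT hTr => h2 b T hTr (fun a ha => hS1 a (hT ha)) (fun a ha => hSM a (hT ha)))
    (fun R hR hRr => by
      have := h3 b R hRr (fun a ha => hS1 a (hR ha)) (fun a ha => hSM a (hR ha))
      rw [UM_add] at this
      exact this)
    Fail (by
      intro A hA
      rw [hFail, mem_filter, Fintype.mem_piFinset] at hA
      obtain ⟨hAS, hAinj, hAn⟩ := hA
      refine ⟨hAS, ?_⟩
      have hl := h1 b A hAinj (fun x => hS1 _ (hAS x)) (fun x => hSM _ (hAS x)) (fun x => hSc _ (hAS x))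
      have e1 : UM (4 * m * K') X y = UM (k + 1) X y / g ^ J := by
        rw [← UM_add]
        congr 1
        omega
      rw [e1] at hl
      refine hl.trans (sum_le_sum fun n _ => ?_)
      apply mul_le_mul_of_nonneg_left _ (nw_nonneg hW X _ b n)
      by_cases hc : (m ≤ ((univ : Finset (Fin (4 * m))).filter (fun g => ∃ j, (A (g, j) * n + 1).Prime)).card) ∧
        (∀ x, Rg δ X (A x * n + 1))
      · rw [if_pos hc, if_pos]
        refine ⟨?_, hc.2⟩
        set S' := (univ : Finset (Fin (4 * m))).filter (fun g => ∃ j, (A (g, j) * n + 1).Prime) with hS'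
        have hne : Nonempty (Fin K') := ⟨⟨0, hK'⟩⟩
        have hch : ∀ g : Fin (4 * m), ∃ j : Fin K', g ∈ S' → (A (g, j) * n + 1).Prime := by
          intro g
          by_cases hgS : g ∈ S'
          · have := hgS
            rw [hS', mem_filter] at this
            obtain ⟨j, hj⟩ := this.2
            exact ⟨j, fun _ => hj⟩
          · exact ⟨Classical.arbitrary _, fun h => absurd h hgS⟩
        choose c hc' using hch
        have hn : ¬ ∀ U ⊆ S'.image (fun i => A (i, c i)), U.card = k + 1 → GoodM (κ0 ^ 2) k N y b U :=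
          fun h => hAn ⟨S', c, hc.1, h⟩
        push Not at hn
        obtain ⟨U, hU1, hU2, hU3⟩ := hn
        refine ⟨U, fun a ha => ?_, hU2, ?_, ?_⟩
        · have := hU1 ha
          rw [mem_image] at this
          obtain ⟨i, _, hi⟩ := this
          rw [← hi]
          exact mem_image_of_mem _ (mem_univ _)
        · unfold GoodM at hU3
          rw [not_le] at hU3
          refine lt_of_le_of_lt (le_of_eq (sum_congr rfl fun n' _ => congrArg _ ?_)) hU3
          by_cases h9 : ∀ t ∈ U, (t * n' + 1).Prime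
          · rw [if_pos h9, if_pos h9]
          · rw [if_neg h9, if_neg h9]
        · intro t ht
          have := hU1 ht
          rw [mem_image] at this
          obtain ⟨i, hi1, hi⟩ := this
          rw [← hi]
          exact hc' i hi1
      · rw [if_neg hc]
        split_ifs <;> norm_num)
  refine hd ℕ S (GoodM (κ0 ^ 2) k N y b) Fail hn0 ?_ ?_
  · rw [← hD] at hbound
    have e2 : κ0 * ((1 + D) / 2) * ((Fintype.card (Fin (4 * m) × Fin K') : ℝ) ^ (k + 1) * (S.card : ℝ) ^ (k + 1 + J)) =
        c0 * (δ' * (S.card : ℝ) ^ (4 * m * K')) := by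
      have e3 : k + 1 + J = 4 * m * K' := by omega
      rw [hcardI, e3, hκ0]
      field_simp
    rw [e2] at hbound
    exact le_of_mul_le_mul_left hbound hc0
  · intro A hAinj hAS hAF
    by_contra hcon
    apply hAF
    rw [hFail, mem_filter, Fintype.mem_piFinset]
    refine ⟨hAS, hAinj, ?_⟩
    rintro ⟨S', c, h8, h9⟩
    apply hcon
    refine ⟨S', c, h8, fun U hU hUc => h9 U (fun a ha => ?_) hUc⟩
    obtain ⟨i, hi, hia⟩ := (@Finset.mem_image _ _ (fun a b => Classical.propDecidable (a = b)) _ _ _).1 (hU ha)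
    rw [← hia]
    exact Finset.mem_image_of_mem (fun i => A (i, c i)) hi

end Pool.Agent.NH16.QL
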