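import Pool.Agent.NH16.QL.Stm

/-!
# The weight `Ph`: Lipschitz bound, sums over classes, scaling (QL-1)
-/

set_option autoImplicit false

open Finset Filter Topology
open scoped ContDiff

namespace Pool.Agent.NH16.QL

open Pool.Agent.H378R2

namespace WGT

theorem Ph_nonneg (u : ℝ) : 0 ≤ Ph u := by
  unfold Ph
  have := Phi_nonneg (u ^ 2)
  linarith

theorem Ph_half (u : ℝ) : Ph u ≤ 1 / 2 := by
  unfold Ph
  have := Phi_le_half (u ^ 2)
  linarith

theorem Ph_low {u : ℝ} (h0 : 0 ≤ u) (h1 : u ≤ 1) : Ph u = 0 := by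
  unfold Ph
  rw [Phi_eq_zero_of_le (sq_nonneg u) (by nlinarith), zero_div]

theorem Ph_high {u : ℝ} (h : Real.exp (1 / 2) ≤ u) : Ph u = 0 := by
  unfold Ph
  have h1 : Real.exp 1 ≤ u ^ 2 := by
    calc Real.exp 1 = Real.exp (1 / 2) ^ 2 := by
          rw [← Real.exp_nat_mul]
          norm_num
      _ ≤ u ^ 2 := pow_le_pow_left₀ (Real.exp_pos _).le h 2
  rw [Phi_eq_zero_of_ge h1, zero_div]

theorem Ph_max {u : ℝ} (h : 0 ≤ u) : Ph u = Ph (max u 1) := by
  rcases le_total u 1 with h1 | h1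
  · rw [max_eq_right h1, Ph_low h h1, Ph_low zero_le_one le_rfl]
  · rw [max_eq_left h1]

theorem Ph_lip {u v : ℝ} (hu : 0 ≤ u) (hv : 0 ≤ v) : |Ph u - Ph v| ≤ |u - v| := by
  rw [Ph_max hu, Ph_max hv]
  have h1 : |max u 1 - max v 1| ≤ |u - v| := by
    exact abs_max_sub_max_le_abs u v 1
  have h2 : |Real.log (max u 1) - Real.log (max v 1)| ≤ |max u 1 - max v 1| :=
    log_lip (le_max_right _ _) (le_max_right _ _)
  refine le_trans ?_ (h2.trans h1)
  unfold Ph Phi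
  rw [Real.log_pow, Real.log_pow]
  set x := Real.log (max u 1)
  set y := Real.log (max v 1)
  rw [← sub_div, abs_div, abs_of_pos (by norm_num : (0 : ℝ) < 2), div_le_iff₀ (by norm_num)]
  have h3 : |max 0 (1 / 2 - |((2 : ℕ) : ℝ) * x - 1 / 2|) - max 0 (1 / 2 - |((2 : ℕ) : ℝ) * y - 1 / 2|)| ≤
      |(1 / 2 - |((2 : ℕ) : ℝ) * x - 1 / 2|) - (1 / 2 - |((2 : ℕ) : ℝ) * y - 1 / 2|)| := by
    have := abs_max_sub_max_le_abs (1 / 2 - |((2 : ℕ) : ℝ) * x - 1 / 2|)
      (1 / 2 - |((2 : ℕ) : ℝ) * y - 1 / 2|) 0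
    rwa [max_comm, max_comm (1 / 2 - |((2 : ℕ) : ℝ) * y - 1 / 2|)] at this
  refine h3.trans ?_
  have h4 : (1 / 2 - |((2 : ℕ) : ℝ) * x - 1 / 2|) - (1 / 2 - |((2 : ℕ) : ℝ) * y - 1 / 2|) =
      |((2 : ℕ) : ℝ) * y - 1 / 2| - |((2 : ℕ) : ℝ) * x - 1 / 2| := by ring
  rw [h4]
  refine (abs_abs_sub_abs_le_abs_sub _ _).trans ?_
  rw [abs_sub_comm x y]
  have h5 : ((2 : ℕ) : ℝ) * y - 1 / 2 - (((2 : ℕ) : ℝ) * x - 1 / 2) = (y - x) * 2 := by
    push_cast
    ring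
  rw [h5, abs_mul, abs_of_pos (by norm_num : (0 : ℝ) < 2)]

/-- extension of the sum -/
theorem ph_ext (X : ℝ) (hX : 4 ≤ X) (M : ℕ) (hM : ⌊3 * X⌋₊ < M) (P : ℕ → Prop) [DecidablePred P] :
    ∑ n ∈ (Icc 1 ⌊3 * X⌋₊).filter P, Ph (n / X) = ∑ n ∈ (range M).filter P, Ph (n / X) := by
  apply Finset.sum_subset
  · intro n hn
    simp only [Finset.mem_filter, Finset.mem_Icc, Finset.mem_range] at hn ⊢
    exact ⟨by omega, hn.2⟩
  · intro n hn hn'
    simp only [Finset.mem_filter, Finset.mem_Icc, Finset.mem_range, not_and] at hn hn'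
    by_cases h0 : n = 0
    · subst h0
      simp only [Nat.cast_zero, zero_div]
      exact Ph_low le_rfl zero_le_one
    · have h1 : ¬ (n ≤ ⌊3 * X⌋₊) := fun h => hn' ⟨by omega, h⟩ hn.2
      push Not at h1
      have h2 : 3 * X < n := Nat.lt_of_floor_lt h1
      apply Ph_high
      rw [le_div_iff₀ (by linarith)]
      have h3 := exp_one_lt_three'
      have h4 : Real.exp (1 / 2) ≤ Real.exp 1 := Real.exp_le_exp.2 (by norm_num)
      nlinarith

theorem ph_sum_class (X : ℝ) (hX : 4 ≤ X) (Q b : ℕ) (hQ : 0 < Q) (hQX : (Q : ℝ) ≤ X) :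
    |∑ n ∈ (Icc 1 ⌊3 * X⌋₊).filter (fun n => n ≡ b [MOD Q]), Ph (n / X) - MP X * (1 / Q)| ≤ 5 := by
  set I := ⌊3 * X⌋₊ / Q + 1 with hI
  have hM : ⌊3 * X⌋₊ < Q * I := by
    rw [hI]
    exact Nat.lt_mul_div_succ _ hQ
  have e1 := ph_ext X hX (Q * I) hM (fun n => n ≡ b [MOD Q])
  have e2 : MP X = ∑ n ∈ range (Q * I), Ph (n / X) := by
    have := ph_ext X hX (Q * I) hM (fun _ => True)
    simpa [MP] using this
  rw [e1, e2, sum_range_mul_filter Q I b hQ, sum_range_mul Q I hQ (fun n => Ph (n / X))]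
  have hQr : (0 : ℝ) < Q := by exact_mod_cast hQ
  have hXp : (0 : ℝ) < X := by linarith
  have hIle : (I : ℝ) * Q ≤ 4 * X := by
    have h1 : ((⌊3 * X⌋₊ / Q : ℕ) : ℝ) * Q ≤ 3 * X := by
      have h2 : (⌊3 * X⌋₊ / Q) * Q ≤ ⌊3 * X⌋₊ := Nat.div_mul_le_self _ _
      have h3 : (((⌊3 * X⌋₊ / Q) * Q : ℕ) : ℝ) ≤ (⌊3 * X⌋₊ : ℝ) := by exact_mod_cast h2
      rw [Nat.cast_mul] at h3
      exact h3.trans (Nat.floor_le (by linarith))
    rw [hI]
    push_cast
    linarith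
  have key : ∀ j ∈ range Q, |∑ i ∈ range I, Ph (((Q * i + b % Q : ℕ) : ℝ) / X) -
      ∑ i ∈ range I, Ph (((Q * i + j : ℕ) : ℝ) / X)| ≤ 4 := by
    intro j hj
    rw [← Finset.sum_sub_distrib]
    refine (Finset.abs_sum_le_sum_abs _ _).trans ?_
    have : ∀ i ∈ range I, |Ph (((Q * i + b % Q : ℕ) : ℝ) / X) - Ph (((Q * i + j : ℕ) : ℝ) / X)| ≤ Q / X := by
      intro i _
      refine (Ph_lip (by positivity) (by positivity)).trans ?_
      rw [← sub_div, abs_div, abs_of_pos hXp]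
      apply div_le_div_of_nonneg_right _ hXp.le
      push_cast
      have h1 : ((b % Q : ℕ) : ℝ) < Q := by exact_mod_cast Nat.mod_lt b hQ
      have h2 : (j : ℝ) < Q := by exact_mod_cast Finset.mem_range.1 hj
      have h3 : (0 : ℝ) ≤ ((b % Q : ℕ) : ℝ) := Nat.cast_nonneg _
      have h4 : (0 : ℝ) ≤ (j : ℝ) := Nat.cast_nonneg _
      rw [abs_le]
      constructor <;> linarith
    refine (Finset.sum_le_sum this).trans ?_
    rw [Finset.sum_const, Finset.card_range, nsmul_eq_mul, ← mul_div_assoc, div_le_iff₀ hXp]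
    exact hIle
  have e3 : ∑ i ∈ range I, Ph (((Q * i + b % Q : ℕ) : ℝ) / X) =
      (∑ j ∈ range Q, ∑ i ∈ range I, Ph (((Q * i + b % Q : ℕ) : ℝ) / X)) * (1 / Q) := by
    rw [Finset.sum_const, Finset.card_range, nsmul_eq_mul]
    field_simp
  rw [e3, ← sub_mul, ← Finset.sum_sub_distrib, abs_mul, abs_of_pos (by positivity : (0 : ℝ) < 1 / Q)]
  have h5 := (Finset.abs_sum_le_sum_abs (fun j => ∑ i ∈ range I, Ph (((Q * i + b % Q : ℕ) : ℝ) / X) -
      ∑ i ∈ range I, Ph (((Q * i + j : ℕ) : ℝ) / X)) (range Q)).trans (Finset.sum_le_sum key)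
  rw [Finset.sum_const, Finset.card_range, nsmul_eq_mul] at h5
  calc _ ≤ (Q : ℝ) * 4 * (1 / Q) := mul_le_mul_of_nonneg_right h5 (by positivity)
    _ = 4 := by field_simp
    _ ≤ 5 := by norm_num

theorem MP_nonneg (X : ℝ) : 0 ≤ MP X := Finset.sum_nonneg fun _ _ => Ph_nonneg _

theorem MP_le (X : ℝ) (hX : 4 ≤ X) : MP X ≤ 2 * X := by
  unfold MP
  have h : ∀ n ∈ Icc 1 ⌊3 * X⌋₊, Ph (n / X) ≤ 1 / 2 := fun n _ => Ph_half _
  refine (Finset.sum_le_sum h).trans ?_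
  rw [Finset.sum_const, Nat.card_Icc, nsmul_eq_mul, Nat.add_sub_cancel]
  have := Nat.floor_le (by linarith : 0 ≤ 3 * X)
  linarith

theorem MP_ge (X : ℝ) (hX : 40 ≤ X) : X / 50 ≤ MP X := by
  unfold MP
  have hsub : Icc ⌈23 / 20 * X⌉₊ ⌊27 / 20 * X⌋₊ ⊆ Icc 1 ⌊3 * X⌋₊ := by
    intro n hn
    rw [Finset.mem_Icc] at hn ⊢
    constructor
    · have : 0 < ⌈23 / 20 * X⌉₊ := Nat.ceil_pos.2 (by linarith)
      omega
    · exact hn.2.trans (Nat.floor_le_floor (by linarith))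
  have h1 := Finset.sum_le_sum_of_subset_of_nonneg (f := fun n : ℕ => Ph (n / X)) hsub
    (fun n _ _ => Ph_nonneg _)
  refine le_trans ?_ h1
  have hlow : ∀ n ∈ Icc ⌈23 / 20 * X⌉₊ ⌊27 / 20 * X⌋₊, (13 / 100 : ℝ) ≤ Ph (n / X) := by
    intro n hn
    rw [Finset.mem_Icc] at hn
    have hn1 : 23 / 20 * X ≤ n := (Nat.le_ceil _).trans (by exact_mod_cast hn.1)
    have hn2 : (n : ℝ) ≤ 27 / 20 * X := le_trans (by exact_mod_cast hn.2) (Nat.floor_le (by linarith))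
    have hX0 : 0 < X := by linarith
    have h3 : 23 / 20 ≤ (n : ℝ) / X := by rw [le_div_iff₀ hX0]; linarith
    have h4 : (n : ℝ) / X ≤ 27 / 20 := by rw [div_le_iff₀ hX0]; linarith
    have h5 : Real.log ((n : ℝ) / X) ≤ 7 / 20 := by
      have := Real.log_le_sub_one_of_pos (by linarith : 0 < (n : ℝ) / X)
      linarith
    have h6 : 3 / 23 ≤ Real.log ((n : ℝ) / X) := by
      have h7 : 1 - ((n : ℝ) / X)⁻¹ ≤ Real.log ((n : ℝ) / X) := by
        have := Real.one_sub_inv_le_log_of_pos (by linarith : 0 < (n : ℝ) / X)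
        exact this
      have h8 : ((n : ℝ) / X)⁻¹ ≤ 20 / 23 := (inv_anti₀ (by norm_num) h3).trans (by norm_num)
      linarith
    unfold Ph Phi
    rw [Real.log_pow]
    have h9 : |((2 : ℕ) : ℝ) * Real.log ((n : ℝ) / X) - 1 / 2| ≤ 24 / 100 := by
      push_cast
      rw [abs_le]
      constructor <;> linarith
    have h10 := le_max_right 0 (1 / 2 - |((2 : ℕ) : ℝ) * Real.log ((n : ℝ) / X) - 1 / 2|)
    linarith
  refine le_trans ?_ (Finset.sum_le_sum hlow)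
  rw [Finset.sum_const, Nat.card_Icc, nsmul_eq_mul]
  have h3 : (27 / 20 * X - 1 : ℝ) < ⌊27 / 20 * X⌋₊ := by
    have := Nat.lt_floor_add_one (27 / 20 * X)
    linarith
  have h4 : (⌈23 / 20 * X⌉₊ : ℝ) < 23 / 20 * X + 1 := Nat.ceil_lt_add_one (by linarith)
  have h5 : ⌈23 / 20 * X⌉₊ ≤ ⌊27 / 20 * X⌋₊ + 1 := by
    have : (⌈23 / 20 * X⌉₊ : ℝ) ≤ ((⌊27 / 20 * X⌋₊ + 1 : ℕ) : ℝ) := by push_cast; linarith
    exact_mod_cast this
  rw [Nat.cast_sub h5]
  push_cast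
  nlinarith

theorem MP_big : ∀ᶠ X : ℝ in atTop, X / 50 ≤ MP X := by
  filter_upwards [eventually_ge_atTop 40] with X hX
  exact MP_ge X hX

theorem MP_scale (X : ℝ) (hX : 4 ≤ X) (s : ℕ) (hs : 1 ≤ s) : |MP (s * X) - s * MP X| ≤ 5 * s := by
  have hs0 : (1 : ℝ) ≤ s := by exact_mod_cast hs
  have hX0 : 0 < X := by linarith
  have h1 := ph_sum_class (s * X) (by nlinarith) s 0 hs (by nlinarith)
  have h2 : ∑ n ∈ (Icc 1 ⌊3 * ((s : ℝ) * X)⌋₊).filter (fun n => n ≡ 0 [MOD s]), Ph (n / (s * X)) =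
      MP X := by
    unfold MP
    symm
    apply Finset.sum_nbij (fun n => s * n)
    · intro n hn
      simp only [Finset.mem_filter, Finset.mem_Icc] at hn ⊢
      refine ⟨⟨Nat.mul_pos hs hn.1, ?_⟩, ?_⟩
      · apply Nat.le_floor
        have h3 : (n : ℝ) ≤ 3 * X := le_trans (by exact_mod_cast hn.2) (Nat.floor_le (by linarith))
        push_cast
        nlinarith
      · rw [Nat.modEq_zero_iff_dvd]
        exact dvd_mul_right _ _
    · intro a _ b _ hab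
      exact Nat.eq_of_mul_eq_mul_left hs hab
    · intro m hm
      simp only [Finset.coe_filter, Finset.mem_Icc, Set.mem_ofPred_eq] at hm
      obtain ⟨⟨hm1, hm2⟩, hm3⟩ := hm
      rw [Nat.modEq_zero_iff_dvd] at hm3
      obtain ⟨n, rfl⟩ := hm3
      refine ⟨n, ?_, rfl⟩
      simp only [Finset.coe_Icc, Set.mem_Icc]
      constructor
      · by_contra h0
        have : n = 0 := by omega
        subst this
        omega
      · apply Nat.le_floor
        have h3 : ((s * n : ℕ) : ℝ) ≤ 3 * (s * X) :=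
          le_trans (by exact_mod_cast hm2) (Nat.floor_le (by positivity))
        push_cast at h3
        have h4 : (s : ℝ) * n ≤ s * (3 * X) := by linarith
        exact le_of_mul_le_mul_left h4 (by linarith)
    · intro n _
      push_cast
      rw [mul_div_mul_left _ _ (by linarith : (s : ℝ) ≠ 0)]
  rw [h2] at h1
  have h3 : MP (s * X) - s * MP X = -(s * (MP X - MP (s * X) * (1 / s))) := by
    field_simp
    ring
  rw [h3, abs_neg, abs_mul, abs_of_pos (by linarith : (0 : ℝ) < s)]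
  nlinarith

theorem low_bound (K : ℕ) {X : ℝ} (h4 : X / 50 ≤ MP X) (h6 : 1 ≤ LL X) (h7 : 4 ≤ X)
    (W : ℕ) (E : Finset ℕ) (hW : 0 < W)
    (hWle : (W : ℝ) ≤ Real.log X ^ 3) (hE : ∀ p ∈ E, p.Prime) :
    X / 50 * (1 / Real.log X ^ 3) * (1 / Real.log X ^ K) ≤
      (MP X * (1 / (W : ℝ))) * (1 / (LL X * BE E) ^ K) := by
  have hX0 : 0 < X := by linarith
  have hlog : 200 ≤ Real.log X := by
    unfold LL at h6
    linarith
  have hW0 : (0:ℝ) < W := by exact_mod_cast hW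
  have hL0 : 0 < LL X := by linarith
  have hBE := BE_pos hE
  have hBE1 := BE_le_one hE
  have hLX : LL X ≤ Real.log X := by unfold LL; linarith
  have hM0 : 0 ≤ MP X := MP_nonneg X
  have a1 : 1 / Real.log X ^ 3 ≤ 1 / (W : ℝ) := one_div_le_one_div_of_le hW0 hWle
  have a2 : 1 / Real.log X ^ K ≤ 1 / (LL X * BE E) ^ K := by
    apply one_div_le_one_div_of_le (by positivity)
    apply pow_le_pow_left₀ (by positivity)
    calc LL X * BE E ≤ LL X * 1 := by gcongr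
      _ ≤ Real.log X := by linarith
  have : (0:ℝ) ≤ 1 / Real.log X ^ K := by positivity
  gcongr

theorem QM_ge (K : ℕ) : ∀ᶠ X : ℝ in atTop, ∀ (W : ℕ) (E : Finset ℕ), 0 < W →
    (W : ℝ) ≤ Real.log X ^ 3 → (∀ p ∈ E, p.Prime) →
    X / (50 * Real.log X ^ (3 + K)) ≤ QM K X W E := by
  filter_upwards [MP_big, LL_tendsto.eventually_ge_atTop 1, eventually_ge_atTop 4] with X h4 h6 h7
  intro W E hW hWle hE
  refine le_trans (le_of_eq ?_) (low_bound K h4 h6 h7 W E hW hWle hE)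
  rw [pow_add]
  field_simp

theorem exp_err (K : ℕ) (c δ : ℝ) (hδ : 0 < δ) : ∀ᶠ X : ℝ in atTop, ∀ (W : ℕ) (E : Finset ℕ), 0 < W →
    (W : ℝ) ≤ Real.log X ^ 3 → (∀ p ∈ E, p.Prime) →
    c * Real.exp (3 * LL X) ≤ δ * QM K X W E := by
  have h1 : ∀ᶠ t : ℝ in atTop, (|c| + 1) * (50 / δ) * t ^ (3 + K) ≤ Real.exp ((1 / 2) * t) :=
    ev_pow_exp (3 + K) (1 / 2) ((|c| + 1) * (50 / δ)) (by norm_num)
  have h2 := Real.tendsto_log_atTop.eventually h1
  filter_upwards [h2, MP_big, eventually_ge_atTop (Real.exp 200), LL_tendsto.eventually_ge_atTop 1,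
    eventually_ge_atTop 4] with X h3 h4 h5 h6 h7
  intro W E hW hWle hE
  have hX0 : 0 < X := lt_of_lt_of_le (Real.exp_pos _) h5
  have hlog : 200 ≤ Real.log X := by
    rw [← Real.log_exp 200]; exact Real.log_le_log (Real.exp_pos _) h5
  have e1 := low_bound K h4 h6 h7 W E hW hWle hE
  refine le_trans ?_ (mul_le_mul_of_nonneg_left e1 hδ.le)
  have e2 : Real.exp (3 * LL X) * Real.exp ((1 / 2) * Real.log X) ≤ X := by
    rw [← Real.exp_add]
    calc Real.exp (3 * LL X + (1 / 2) * Real.log X) ≤ Real.exp (Real.log X) := by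
          apply Real.exp_le_exp.2
          unfold LL
          linarith
      _ = X := Real.exp_log hX0
  have hpow : 0 < Real.log X ^ (3 + K) := by positivity
  have e3 : c * Real.exp (3 * LL X) * ((50 / δ) * Real.log X ^ (3 + K)) ≤ X := by
    calc c * Real.exp (3 * LL X) * ((50 / δ) * Real.log X ^ (3 + K)) ≤
        (|c| + 1) * Real.exp (3 * LL X) * ((50 / δ) * Real.log X ^ (3 + K)) := by
          gcongr
          linarith [le_abs_self c]
      _ = Real.exp (3 * LL X) * ((|c| + 1) * (50 / δ) * Real.log X ^ (3 + K)) := by ring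
      _ ≤ Real.exp (3 * LL X) * Real.exp ((1 / 2) * Real.log X) := by gcongr
      _ ≤ X := e2
  have e4 : c * Real.exp (3 * LL X) ≤ X / ((50 / δ) * Real.log X ^ (3 + K)) := by
    rw [le_div_iff₀ (by positivity)]
    exact e3
  refine e4.trans (le_of_eq ?_)
  rw [pow_add]
  field_simp

end WGT

theorem t_WGT : S_WGT where
  nn := WGT.Ph_nonneg
  half := WGT.Ph_half
  lip := fun _ _ hu hv => WGT.Ph_lip hu hv
  low := fun _ h0 h1 => WGT.Ph_low h0 h1
  high := fun _ h => WGT.Ph_high h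
  cls := WGT.ph_sum_class
  mnn := WGT.MP_nonneg
  mle := WGT.MP_le
  mge := WGT.MP_big
  sc := WGT.MP_scale
  qge := WGT.QM_ge
  ex := WGT.exp_err

end Pool.Agent.NH16.QL
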